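import Pool.Agent.H159R3.Exp.Laur
import Pool.Agent.TH143.HE.Spec

/-!
Homogenization, and units in the ring of Laurent polynomials.
-/

set_option autoImplicit false

namespace Pool.Agent.N126.HG

open MvPolynomial Pool.Agent.H159R3.Exp

variable {R : Type} [CommRing R] {n : ℕ}

/-- the homogenization of `f`, of degree `d` (for `d` at least the degree of `f`) -/
noncomputable def hg (d : ℕ) (f : MvPolynomial (Fin n) R) : MvPolynomial (Fin (n + 1)) R :=
  ∑ m ∈ f.support, monomial (Finsupp.cons (d - m.degree) m) (f.coeff m)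

theorem degree_sum (m : Fin n →₀ ℕ) : m.degree = ∑ j, m j := by
  rw [Finsupp.degree_eq_sum]

theorem hg_hom {d : ℕ} {f : MvPolynomial (Fin n) R} (hd : f.totalDegree ≤ d) :
    (hg d f).IsHomogeneous d := by
  unfold hg
  refine IsHomogeneous.sum _ _ _ fun m hm => isHomogeneous_monomial _ ?_
  rw [degree_sum, Fin.sum_univ_succ, Finsupp.cons_zero]
  simp only [Finsupp.cons_succ]
  rw [← degree_sum]
  have h1 : m.degree ≤ d := by
    have h2 := le_totalDegree hm
    rw [Finsupp.sum_fintype _ _ (fun _ => rfl)] at h2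
    rw [degree_sum]
    exact h2.trans hd
  omega

theorem hg_eval₂ {A : Type} [CommRing A] (φ : R →+* A) (d : ℕ) (f : MvPolynomial (Fin n) R)
    (x : Fin n → A) : eval₂ φ (Fin.cons 1 x : Fin (n + 1) → A) (hg d f) = eval₂ φ x f := by
  unfold hg
  rw [← coe_eval₂Hom, map_sum]
  rw [eval₂_eq' φ x f]
  refine Finset.sum_congr rfl fun m _ => ?_
  rw [coe_eval₂Hom, eval₂_monomial, Finsupp.prod_fintype _ _ (fun i => pow_zero _),
    Fin.prod_univ_succ]
  simp only [Finsupp.cons_zero, Finsupp.cons_succ, Fin.cons_zero, Fin.cons_succ, one_pow, one_mul]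

theorem hg_scale {A : Type} [Field A] (φ : R →+* A) {d : ℕ} {f : MvPolynomial (Fin n) R}
    (hd : f.totalDegree ≤ d) {y : Fin (n + 1) → A} (hy : y 0 ≠ 0) :
    eval₂ φ y (hg d f) = y 0 ^ d * eval₂ φ (fun j => y j.succ / y 0) f := by
  rw [← hg_eval₂ φ d f, ← Pool.Agent.TH143.HE.eval₂_smul_homog φ (y 0) _ (hg_hom hd)]
  congr 1
  funext i
  refine Fin.cases ?_ (fun j => ?_) i
  · rw [Fin.cons_zero, mul_one]
  · rw [Fin.cons_succ]
    field_simp

theorem map_hg_eval {φ : R →+* ℂ} (d : ℕ) (f : MvPolynomial (Fin n) R) (y : Fin (n + 1) → ℂ) :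
    eval y (map φ (hg d f)) = eval₂ φ y (hg d f) := eval_map _ _ _

/-- polynomials without zeros, except for `0` -/
theorem poly_unit {Q : Polynomial ℂ} (h : ∀ z : ℂ, z ≠ 0 → Q.eval z ≠ 0) :
    ∃ (c : ℂ) (a : ℕ), c ≠ 0 ∧ Q = Polynomial.C c * Polynomial.X ^ a := by
  have hQ : Q ≠ 0 := by
    rintro rfl
    exact h 1 one_ne_zero Polynomial.eval_zero
  obtain ⟨q, hq, hq0⟩ := Polynomial.exists_eq_pow_rootMultiplicity_mul_and_not_dvd Q hQ 0
  have hroot : ∀ z : ℂ, q.eval z ≠ 0 := by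
    intro z hz
    by_cases h0 : z = 0
    · subst h0
      exact hq0 (Polynomial.dvd_iff_isRoot.2 hz)
    · apply h z h0
      rw [hq, Polynomial.eval_mul, hz, mul_zero]
  have hdeg : q.degree = 0 := by
    by_contra hne
    obtain ⟨z, hz⟩ := IsAlgClosed.exists_root q hne
    exact hroot z hz
  rw [Polynomial.eq_C_of_degree_eq_zero hdeg] at hq hroot
  refine ⟨q.coeff 0, Q.rootMultiplicity 0, ?_, ?_⟩
  · have := hroot 0
    rwa [Polynomial.eval_C] at this
  · conv_lhs => rw [hq]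
    rw [Polynomial.C_0, sub_zero, mul_comm]

/-- units -/
theorem laur_inv {φ : ℂ → ℂ} (hφ : Laur φ) (h : ∀ t, t ≠ 0 → φ t ≠ 0) :
    Laur (fun t => (φ t)⁻¹) := by
  obtain ⟨M, Q, hQ⟩ := hφ
  obtain ⟨c, a, hc, hca⟩ := poly_unit (Q := Q) fun z hz => by
    rw [← hQ z hz]
    exact mul_ne_zero (h z hz) (pow_ne_zero _ hz)
  refine ⟨a, Polynomial.C c⁻¹ * Polynomial.X ^ M, fun t ht => ?_⟩
  have h1 := hQ t ht
  rw [hca] at h1
  simp only [Polynomial.eval_mul, Polynomial.eval_C, Polynomial.eval_pow, Polynomial.eval_X] at h1 ⊢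
  have h2 := h t ht
  have h3 := pow_ne_zero a ht
  field_simp
  linear_combination -h1

theorem laur_pow {φ : ℂ → ℂ} (hφ : Laur φ) (k : ℕ) : Laur (fun t => φ t ^ k) := by
  induction k with
  | zero => simpa using Laur.const (1 : ℂ)
  | succ k ih =>
    simp only [pow_succ]
    exact ih.mul hφ

theorem laur_div {φ ψ : ℂ → ℂ} (hφ : Laur φ) (hψ : Laur ψ) (h : ∀ t, t ≠ 0 → ψ t ≠ 0) :
    Laur (fun t => φ t / ψ t) := by
  simp only [div_eq_mul_inv]
  exact hφ.mul (laur_inv hψ h)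

end Pool.Agent.N126.HG
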