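import Pool.Agent.N126.HG
import Pool.Agent.Y192.KC.All4
import Pool.Agent.TH710.NW.AffNF
import Pool.Agent.TH409.SH.Tfae

/-!
Entire curves and integral points on the inverse images of affine schemes under power maps, their
Kummer coverings, and complements of hypersurfaces in them.
-/

set_option autoImplicit false

namespace Pool.Agent.N126.KB

open MvPolynomial Pool.Agent.H159R3.Exp Pool.Agent.W235.RM Pool.Agent.Y192.KC Pool.Agent.N126.HG
open Pool.Agent.TH710.NW (sys append_parts)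
open scoped NumberField

/-- Polynomials `E i`, `P j`, `Q k` in `n` variables over the ring `R`, and positive numbers
`e j`. -/
structure Cov (R : Type) [CommRing R] (ι : Type) (n r l : ℕ) where
  E : ι → MvPolynomial (Fin n) R
  P : Fin r → MvPolynomial (Fin n) R
  Q : Fin l → MvPolynomial (Fin n) R
  e : Fin r → ℕ
  he : ∀ j, 0 < e j

section defs

variable {R : Type} [CommRing R] {ι : Type} {n r l : ℕ}

/-- the polynomial `f (x_1 ^ m, …, x_n ^ m)` in the variables `x_1, …, x_n, w_1, …, w_r` -/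
noncomputable def pw (r m : ℕ) (f : MvPolynomial (Fin n) R) : MvPolynomial (Fin (n + r)) R :=
  aeval (fun j => (X (Fin.castAdd r j) : MvPolynomial (Fin (n + r)) R) ^ m) f

/-- the polynomials `E_i (x ^ m)` and `w_j ^ e_j - P_j (x ^ m)` in the variables `x`, `w` -/
noncomputable def Cov.eqs (Y : Cov R ι n r l) (m : ℕ) : ι ⊕ Fin r → MvPolynomial (Fin (n + r)) R
  | Sum.inl i => pw r m (Y.E i)
  | Sum.inr j => X (Fin.natAdd n j) ^ Y.e j - pw r m (Y.P j)

/-- The equations `E_i (x ^ m) = 0`, `w_j ^ e_j = P_j (x ^ m)` and `Q_k (x ^ m) u_k = 1` in the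
variables `x_1, …, x_n, w_1, …, w_r, u_1, …, u_l`. -/
noncomputable def Cov.V (Y : Cov R ι n r l) (m : ℕ) :
    (ι ⊕ Fin r) ⊕ Fin l → MvPolynomial (Fin (n + r + l)) R :=
  sys (Y.eqs m) fun k => pw r m (Y.Q k)

theorem pw_eval₂ {A : Type} [CommRing A] (φ : R →+* A) (m : ℕ) (f : MvPolynomial (Fin n) R)
    (x : Fin (n + r) → A) :
    eval₂ φ x (pw r m f) = eval₂ φ (fun j => x (Fin.castAdd r j) ^ m) f := by
  unfold pw
  induction f using MvPolynomial.induction_on with
  | C a => simp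
  | add p q hp hq => rw [map_add, eval₂_add, eval₂_add, hp, hq]
  | mul_X p j hp => rw [map_mul, eval₂_mul, eval₂_mul, hp, aeval_X, eval₂_pow, eval₂_X, eval₂_X]

/-- the associated quasi-projective variety -/
noncomputable def lp (φ : R →+* ℂ) (Y : Cov R ι n r l) : LProj n r where
  E := Set.range fun i => map φ (hg (Y.E i).totalDegree (Y.E i))
  F := fun j => map φ (hg (Y.P j).totalDegree (Y.P j))
  d := fun j => (Y.P j).totalDegree
  e := Y.e
  hE := by
    rintro _ ⟨i, rfl⟩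
    exact ⟨_, (hg_hom le_rfl).map φ⟩
  hF := fun j => (hg_hom le_rfl).map φ
  he := Y.he
  G := X 0 * ∏ k, map φ (hg (Y.Q k).totalDegree (Y.Q k))
  q := 1 + ∑ k, (Y.Q k).totalDegree
  hG := (isHomogeneous_X _ _).mul (IsHomogeneous.prod _ _ _ fun k _ => (hg_hom le_rfl).map φ)

variable (φ : R →+* ℂ) (Y : Cov R ι n r l) (m : ℕ)

theorem ev_hg {t : Fin (n + 1) → ℂ} (h0 : t 0 ≠ 0) (f : MvPolynomial (Fin n) R) :
    eval (fun i => t i ^ m) (map φ (hg f.totalDegree f)) =
      (t 0 ^ m) ^ f.totalDegree * eval₂ φ (fun j => (t j.succ / t 0) ^ m) f := by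
  rw [map_hg_eval, hg_scale φ le_rfl (pow_ne_zero _ h0)]
  simp only [div_pow]

theorem pt_iff {t : Fin (n + 1) → ℂ} {v : Fin r → ℂ} (hm : 0 < m) (he : ∀ j, Y.e j ∣ m) :
    (lp φ Y).Pt m t v ↔ t 0 ≠ 0 ∧ (∀ i, eval₂ φ (fun j => (t j.succ / t 0) ^ m) (Y.E i) = 0) ∧
      (∀ j, (v j / t 0 ^ (lp φ Y).toProj.wt m j) ^ Y.e j =
        eval₂ φ (fun j => (t j.succ / t 0) ^ m) (Y.P j)) ∧
      ∀ k, eval₂ φ (fun j => (t j.succ / t 0) ^ m) (Y.Q k) ≠ 0 := by
  have hwt : ∀ j, (lp φ Y).toProj.wt m j * Y.e j = m * (Y.P j).totalDegree := by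
    intro j
    exact Nat.div_mul_cancel ((he j).mul_right _)
  constructor
  · rintro ⟨⟨h1, h2, h3⟩, h4⟩
    have h5 : eval (fun i => t i ^ m) ((X 0 : MvPolynomial (Fin (n + 1)) ℂ) *
        ∏ k, map φ (hg (Y.Q k).totalDegree (Y.Q k))) ≠ 0 := h4
    rw [map_mul, eval_X] at h5
    have h0 : t 0 ≠ 0 := by
      intro h0
      apply left_ne_zero_of_mul h5
      rw [h0, zero_pow hm.ne']
    have h00 := pow_ne_zero m h0
    refine ⟨h0, fun i => ?_, fun j => ?_, fun k => ?_⟩
    · have h6 := h2 _ ⟨i, rfl⟩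
      rw [ev_hg φ m h0] at h6
      exact (mul_eq_zero.1 h6).resolve_left (pow_ne_zero _ h00)
    · have h6 : v j ^ Y.e j = eval (fun i => t i ^ m) (map φ (hg (Y.P j).totalDegree (Y.P j))) := h3 j
      rw [ev_hg φ m h0] at h6
      rw [div_pow, ← pow_mul, hwt, pow_mul, h6]
      field_simp
    · have h6 := right_ne_zero_of_mul h5
      rw [map_prod] at h6
      have h7 := Finset.prod_ne_zero_iff.1 h6 k (Finset.mem_univ _)
      rw [ev_hg φ m h0] at h7
      exact right_ne_zero_of_mul h7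
  · rintro ⟨h0, h2, h3, h4⟩
    have h00 := pow_ne_zero m h0
    refine ⟨⟨fun h => h0 (congrFun h 0), ?_, fun j => ?_⟩, ?_⟩
    · rintro _ ⟨i, rfl⟩
      rw [ev_hg φ m h0, h2, mul_zero]
    · change v j ^ Y.e j = eval (fun i => t i ^ m) (map φ (hg (Y.P j).totalDegree (Y.P j)))
      rw [ev_hg φ m h0, ← h3, div_pow, ← pow_mul (t 0) ((lp φ Y).toProj.wt m j), hwt, pow_mul]
      field_simp
    · change eval (fun i => t i ^ m) ((X 0 : MvPolynomial (Fin (n + 1)) ℂ) *
        ∏ k, map φ (hg (Y.Q k).totalDegree (Y.Q k))) ≠ 0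
      rw [map_mul, eval_X, map_prod]
      refine mul_ne_zero h00 (Finset.prod_ne_zero_iff.2 fun k _ => ?_)
      rw [ev_hg φ m h0]
      exact mul_ne_zero (pow_ne_zero _ h00) (h4 k)

/-- the Laurent curve given by a morphism from the multiplicative group -/
noncomputable def lc (p : Fin (n + 1) → Polynomial ℂ) (s : Fin r → Polynomial ℂ) (t : ℂ) :
    Fin (n + r + l) → ℂ :=
  Fin.append (Fin.append (fun j => (p j.succ).eval t / (p 0).eval t)
    (fun j => (s j).eval t / (p 0).eval t ^ (lp φ Y).toProj.wt m j))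
    (fun k => (eval₂ φ (fun j => ((p j.succ).eval t / (p 0).eval t) ^ m) (Y.Q k))⁻¹)

theorem v_zero_iff (c : Fin (n + r + l) → ℂ) :
    (∀ i, eval₂ φ c (Y.V m i) = 0) ↔
      (∀ i, eval₂ φ (fun j => c (Fin.castAdd l (Fin.castAdd r j)) ^ m) (Y.E i) = 0) ∧
      (∀ j, c (Fin.castAdd l (Fin.natAdd n j)) ^ Y.e j =
        eval₂ φ (fun j => c (Fin.castAdd l (Fin.castAdd r j)) ^ m) (Y.P j)) ∧
      ∀ k, eval₂ φ (fun j => c (Fin.castAdd l (Fin.castAdd r j)) ^ m) (Y.Q k) *
        c (Fin.natAdd (n + r) k) = 1 := by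
  constructor
  · intro h
    refine ⟨fun i => ?_, fun j => ?_, fun k => ?_⟩
    · have h1 := h (Sum.inl (Sum.inl i))
      simp only [Cov.V, sys, Cov.eqs] at h1
      rw [eval₂_rename, pw_eval₂] at h1
      exact h1
    · have h1 := h (Sum.inl (Sum.inr j))
      simp only [Cov.V, sys, Cov.eqs] at h1
      rw [eval₂_rename, eval₂_sub, eval₂_pow, eval₂_X, pw_eval₂, sub_eq_zero] at h1
      exact h1
    · have h1 := h (Sum.inr k)
      simp only [Cov.V, sys] at h1
      rw [eval₂_sub, eval₂_mul, eval₂_X, eval₂_one, eval₂_rename, pw_eval₂, sub_eq_zero] at h1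
      exact h1
  · rintro ⟨h1, h2, h3⟩ ((i | j) | k)
    · simp only [Cov.V, sys, Cov.eqs]
      rw [eval₂_rename, pw_eval₂]
      exact h1 i
    · simp only [Cov.V, sys, Cov.eqs]
      rw [eval₂_rename, eval₂_sub, eval₂_pow, eval₂_X, pw_eval₂, sub_eq_zero]
      exact h2 j
    · simp only [Cov.V, sys]
      rw [eval₂_sub, eval₂_mul, eval₂_X, eval₂_one, eval₂_rename, pw_eval₂, sub_eq_zero]
      exact h3 k

theorem lc_x (p : Fin (n + 1) → Polynomial ℂ) (s : Fin r → Polynomial ℂ) (t : ℂ) (j : Fin n) :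
    lc φ Y m p s t (Fin.castAdd l (Fin.castAdd r j)) = (p j.succ).eval t / (p 0).eval t := by
  unfold lc
  rw [Fin.append_left, Fin.append_left]

theorem lc_w (p : Fin (n + 1) → Polynomial ℂ) (s : Fin r → Polynomial ℂ) (t : ℂ) (j : Fin r) :
    lc φ Y m p s t (Fin.castAdd l (Fin.natAdd n j)) =
      (s j).eval t / (p 0).eval t ^ (lp φ Y).toProj.wt m j := by
  unfold lc
  rw [Fin.append_left, Fin.append_right]

theorem lc_u (p : Fin (n + 1) → Polynomial ℂ) (s : Fin r → Polynomial ℂ) (t : ℂ) (k : Fin l) :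
    lc φ Y m p s t (Fin.natAdd (n + r) k) =
      (eval₂ φ (fun j => ((p j.succ).eval t / (p 0).eval t) ^ m) (Y.Q k))⁻¹ := by
  unfold lc
  rw [Fin.append_right]

theorem gm_curve (hm : 0 < m) (he : ∀ j, Y.e j ∣ m) {p : Fin (n + 1) → Polynomial ℂ}
    {s : Fin r → Polynomial ℂ} (hps : (lp φ Y).Gm m p s) :
    (∀ i, Laur fun t => lc φ Y m p s t i) ∧
      (∀ i t, t ≠ 0 → eval₂ φ (lc φ Y m p s t) (Y.V m i) = 0) ∧
      ∃ t t', t ≠ 0 ∧ t' ≠ 0 ∧ lc φ Y m p s t ≠ lc φ Y m p s t' := by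
  have hpt : ∀ t : ℂ, t ≠ 0 → _ := fun t ht => (pt_iff φ Y m hm he).1 (hps.mem t ht)
  have hp0 : ∀ t : ℂ, t ≠ 0 → (p 0).eval t ≠ 0 := fun t ht => (hpt t ht).1
  have hLx : ∀ j : Fin n, Laur fun t => (p j.succ).eval t / (p 0).eval t := fun j =>
    laur_div (Laur.poly _) (Laur.poly _) hp0
  have hLQ : ∀ k, Laur fun t => eval₂ φ (fun j => ((p j.succ).eval t / (p 0).eval t) ^ m) (Y.Q k) :=
    fun k => Laur.eval₂ φ _ (fun j => laur_pow (hLx j) m) _
  refine ⟨fun i => ?_, fun i t ht => ?_, ?_⟩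
  · refine Fin.addCases (fun i => ?_) (fun k => ?_) i
    · refine Fin.addCases (fun j => ?_) (fun j => ?_) i
      · simp only [lc_x]
        exact hLx j
      · simp only [lc_w]
        exact laur_div (Laur.poly _) (laur_pow (Laur.poly _) _) fun t ht =>
          pow_ne_zero _ (hp0 t ht)
    · simp only [lc_u]
      exact laur_inv (hLQ k) fun t ht => (hpt t ht).2.2.2 k
  · revert i
    rw [v_zero_iff]
    simp only [lc_x, lc_w, lc_u]
    obtain ⟨h0, h1, h2, h3⟩ := hpt t ht
    exact ⟨h1, h2, fun k => mul_inv_cancel₀ (h3 k)⟩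
  · obtain ⟨t, t', ht, ht', hnc⟩ := hps.nonconst
    refine ⟨t, t', ht, ht', fun heq => hnc ?_⟩
    have h0 := hp0 t ht
    have h0' := hp0 t' ht'
    refine ⟨(p 0).eval t' / (p 0).eval t, div_ne_zero h0' h0, fun i => ?_, fun j => ?_⟩
    · refine Fin.cases ?_ (fun j => ?_) i
      · field_simp
      · have h1 := congrFun heq (Fin.castAdd l (Fin.castAdd r j))
        rw [lc_x, lc_x, div_eq_div_iff h0 h0'] at h1
        field_simp
        linear_combination -h1
    · have h1 := congrFun heq (Fin.castAdd l (Fin.natAdd n j))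
      rw [lc_w, lc_w, div_eq_div_iff (pow_ne_zero _ h0) (pow_ne_zero _ h0')] at h1
      have h2 := pow_ne_zero ((lp φ Y).toProj.wt m j) h0
      rw [div_pow]
      field_simp
      linear_combination -h1

end defs

variable {K : Type} [Field K] {ι : Type} {n r l : ℕ}

/-- **Entire curves and curves of the multiplicative group.** -/
theorem entire_of_gm (σ : K →+* ℂ) (Y : Cov (𝓞 K) ι n r l) :
    ∃ m0 : ℕ, ∀ m, m0 ≤ m → (∀ j, Y.e j ∣ m) →
      ∀ (κ : Type) (G : κ → MvPolynomial (Fin (n + r + l)) (𝓞 K)),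
        GmCurvesIn σ (Y.V m) G → EntireCurvesIn σ (Y.V m) G := by
  set φ : 𝓞 K →+* ℂ := σ.comp (algebraMap (𝓞 K) K) with hφ
  obtain ⟨m0, h0⟩ := gmE_all n r (lp φ Y)
  refine ⟨m0 + 1, fun m hm he κ G h f hf hfV hnc z k => ?_⟩
  have hm0 : 0 < m := by omega
  have hfj : ∀ j, Differentiable ℂ (fun z => f z j) := fun j => by
    rw [differentiable_pi] at hf
    exact hf j
  have hV := fun z => (v_zero_iff φ Y m (f z)).1 (hfV z)
  let u : ℂ → Fin (n + 1) → ℂ := fun z => Fin.cons 1 fun j => f z (Fin.castAdd l (Fin.castAdd r j))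
  let v : ℂ → Fin r → ℂ := fun z j => f z (Fin.castAdd l (Fin.natAdd n j))
  have hu0 : ∀ z, u z 0 = 1 := fun z => rfl
  have hus : ∀ z j, u z (Fin.succ j) = f z (Fin.castAdd l (Fin.castAdd r j)) := fun z j => rfl
  have hE : (lp φ Y).Entire m u v := by
    refine ⟨differentiable_pi.2 fun i => ?_, differentiable_pi.2 fun j => hfj _, fun z => ?_, ?_⟩
    · refine Fin.cases ?_ (fun j => ?_) i
      · exact differentiable_const _
      · exact hfj _
    · rw [pt_iff φ Y m hm0 he]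
      obtain ⟨h1, h2, h3⟩ := hV z
      simp only [hu0, hus, div_one, one_pow]
      exact ⟨one_ne_zero, h1, h2, fun k => left_ne_zero_of_mul_eq_one (h3 k)⟩
    · obtain ⟨a, b, hab⟩ := hnc
      refine ⟨a, b, fun hs => hab ?_⟩
      obtain ⟨c, -, h1, h2⟩ := hs
      have hc : c = 1 := by
        have h3 := h1 0
        rw [hu0, hu0, mul_one] at h3
        exact h3.symm
      subst hc
      funext i
      refine Fin.addCases (fun i => ?_) (fun k => ?_) i
      · refine Fin.addCases (fun j => ?_) (fun j => ?_) i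
        · have h3 := h1 j.succ
          rw [one_mul, hus, hus] at h3
          exact h3.symm
        · have h3 := h2 j
          rw [one_pow, one_mul] at h3
          exact h3.symm
      · have h3 := (hV a).2.2 k
        have h4 := (hV b).2.2 k
        have h5 : (fun j => f b (Fin.castAdd l (Fin.castAdd r j)) ^ m) =
            fun j => f a (Fin.castAdd l (Fin.castAdd r j)) ^ m := by
          funext j
          have h6 := h1 j.succ
          rw [one_mul, hus, hus] at h6
          rw [h6]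
        rw [h5] at h4
        exact mul_left_cancel₀ (left_ne_zero_of_mul_eq_one h3) (h3.trans h4.symm)
  have hcount := h0 m (by omega) he u v hE
  have hdense : Dense {z | ¬ (lp φ Y).OnGm m (u z) (v z)}ᶜ := hcount.dense_compl ℂ
  have hgood : ∀ z ∈ {z | ¬ (lp φ Y).OnGm m (u z) (v z)}ᶜ, eval₂ φ (f z) (G k) = 0 := by
    intro z hz
    rw [Set.mem_compl_iff, Set.mem_ofPred_eq, not_not] at hz
    obtain ⟨p, s, hps, y, hy, a, ha, h1, h2⟩ := hz
    obtain ⟨g1, g2, g3⟩ := gm_curve φ Y m hm0 he hps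
    have h3 := h (lc φ Y m p s) g1 g2 g3 k y hy
    have h4 : lc φ Y m p s y = f z := by
      have h5 : (1 : ℂ) = a * (p 0).eval y := h1 0
      have hp0 : (p 0).eval y ≠ 0 := fun h6 => by
        rw [h6, mul_zero] at h5
        exact one_ne_zero h5
      have ha' : a = ((p 0).eval y)⁻¹ := eq_inv_of_mul_eq_one_left h5.symm
      have hx : ∀ j : Fin n, (p j.succ).eval y / (p 0).eval y =
          f z (Fin.castAdd l (Fin.castAdd r j)) := by
        intro j
        have h6 : f z (Fin.castAdd l (Fin.castAdd r j)) = a * (p j.succ).eval y := h1 j.succ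
        rw [h6, ha']
        field_simp
      funext i
      refine Fin.addCases (fun i => ?_) (fun k => ?_) i
      · refine Fin.addCases (fun j => ?_) (fun j => ?_) i
        · rw [lc_x, hx]
        · rw [lc_w]
          have h6 : f z (Fin.castAdd l (Fin.natAdd n j)) =
              a ^ (lp φ Y).toProj.wt m j * (s j).eval y := h2 j
          rw [h6, ha', inv_pow]
          field_simp
      · rw [lc_u]
        simp only [hx]
        exact inv_eq_of_mul_eq_one_right ((hV z).2.2 k)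
    rw [← h4]
    exact h3
  have hcont : Continuous fun z => eval₂ φ (f z) (G k) := by
    have h1 : (fun z => eval₂ φ (f z) (G k)) = fun z => eval (f z) (map φ (G k)) := by
      funext z
      rw [eval_map]
    rw [h1]
    exact (MvPolynomial.continuous_eval (map φ (G k))).comp hf.continuous
  have h2 : Set.EqOn (fun z => eval₂ φ (f z) (G k)) (fun _ => 0)
      (closure {z | ¬ (lp φ Y).OnGm m (u z) (v z)}ᶜ) :=
    Set.EqOn.closure (fun z hz => hgood z hz) hcont continuous_const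
  exact h2 (hdense.closure_eq ▸ Set.mem_univ z)

open Pool.Agent.TH409.SH (HeightLinear HeightBounded SparseFiniteAlg tfaeH)

/-- **The Bombieri-Lang-Vojta equivalence.** -/
theorem kummer_blv [NumberField K] [Finite ι] (Y : Cov (𝓞 K) ι n r l) :
    ∃ m0 : ℕ, ∀ m, m0 ≤ m → (∀ j, Y.e j ∣ m) →
      ∀ (κ : Type) (G : κ → MvPolynomial (Fin (n + r + l)) (𝓞 K)),
        (∀ σ : K →+* ℂ, [EntireCurvesIn σ (Y.V m) G, GmCurvesIn σ (Y.V m) G,
          HeightLinear (Y.V m) G, HeightBounded (Y.V m) G, SparseFiniteAlg (Y.V m) G,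
          RecurrenceFinite (Y.V m) G].TFAE) ∧
        (FinitelyManyIntegral (Y.V m) G → ∀ σ : K →+* ℂ, EntireCurvesIn σ (Y.V m) G) := by
  choose m0 h0 using fun σ : K →+* ℂ => entire_of_gm σ Y
  refine ⟨Finset.univ.sup m0, fun m hm he κ G => ?_⟩
  have h1 : ∀ σ : K →+* ℂ, [EntireCurvesIn σ (Y.V m) G, GmCurvesIn σ (Y.V m) G,
      HeightLinear (Y.V m) G, HeightBounded (Y.V m) G, SparseFiniteAlg (Y.V m) G,
      RecurrenceFinite (Y.V m) G].TFAE := by
    intro σ
    have hH := tfaeH σ (Y.V m) G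
    have hT := tfae σ (Y.V m) G
    tfae_have 1 → 2 := fun h => (hT.out 0 1).1 (exp_of_entire σ _ G h)
    tfae_have 2 → 1 := h0 σ m ((Finset.le_sup (Finset.mem_univ σ)).trans hm) he κ G
    tfae_have 2 ↔ 3 := hH.out 1 2
    tfae_have 2 ↔ 4 := hH.out 1 3
    tfae_have 2 ↔ 5 := hH.out 1 4
    tfae_have 2 ↔ 6 := hT.out 1 5
    tfae_finish
  exact ⟨h1, fun h σ => ((h1 σ).out 5 0).1 (rec_of_integral _ G h)⟩

end Pool.Agent.N126.KB
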