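import Mathlib

/-!
Kummer coverings of projective varieties over number fields: definitions.
-/

set_option autoImplicit false

namespace Pool.Agent.N126.KN

open MvPolynomial

/-- The data which define a covering: a set `E` of forms in `n + 1` variables over `K`, forms
`F j` of degree `d j`, and positive numbers `e j`, `j = 1, …, r`. -/
structure Cov (K : Type) [Field K] (n r : ℕ) where
  E : Set (MvPolynomial (Fin (n + 1)) K)
  F : Fin r → MvPolynomial (Fin (n + 1)) K
  d : Fin r → ℕ
  e : Fin r → ℕ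
  hE : ∀ f ∈ E, ∃ k, f.IsHomogeneous k
  hF : ∀ j, (F j).IsHomogeneous (d j)
  he : ∀ j, 0 < e j

variable {K : Type} [Field K] {n r : ℕ} (X : Cov K n r) (m : ℕ)

/-- the weight of the coordinate `w j`; the coordinates `t i` have weight one -/
def Cov.wt (j : Fin r) : ℕ := m * X.d j / X.e j

/-- `(u, v)` are the coordinates of a point, over the extension `φ : K → L`, of the projective
variety `X` with the equations `f (t 0 ^ m, …, t n ^ m) = 0`, `f ∈ E`, and
`w j ^ e j = F j (t 0 ^ m, …, t n ^ m)` in the weighted projective space. -/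
def Cov.Pt {L : Type} [Field L] (φ : K →+* L) (u : Fin (n + 1) → L) (v : Fin r → L) : Prop :=
  u ≠ 0 ∧ (∀ f ∈ X.E, eval₂ φ (fun i => u i ^ m) f = 0) ∧
    ∀ j, v j ^ X.e j = eval₂ φ (fun i => u i ^ m) (X.F j)

/-- the same point of the weighted projective space -/
def Cov.Same {L : Type} [Field L] (u : Fin (n + 1) → L) (v : Fin r → L) (u' : Fin (n + 1) → L)
    (v' : Fin r → L) : Prop :=
  ∃ s : L, s ≠ 0 ∧ (∀ i, u' i = s * u i) ∧ ∀ j, v' j = s ^ X.wt m j * v j

/-- all members of `B` are weighted homogeneous; they define the closed subset `Z` of the weighted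
projective space -/
def Cov.Forms (B : Set (MvPolynomial (Fin (n + 1) ⊕ Fin r) K)) : Prop :=
  ∀ b ∈ B, ∃ D, IsWeightedHomogeneous (Sum.elim (fun _ => 1) (X.wt m)) b D

/-- the point with the coordinates `(u, v)` is in `Z` -/
def On {L : Type} [Field L] (φ : K →+* L) (B : Set (MvPolynomial (Fin (n + 1) ⊕ Fin r) K))
    (u : Fin (n + 1) → L) (v : Fin r → L) : Prop :=
  ∀ b ∈ B, eval₂ φ (Sum.elim u v) b = 0

/-- All nonconstant entire curves in `X_σ` lie in `Z_σ`. -/
def Cov.EntireIn (σ : K →+* ℂ) (B : Set (MvPolynomial (Fin (n + 1) ⊕ Fin r) K)) : Prop :=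
  ∀ (u : ℂ → Fin (n + 1) → ℂ) (v : ℂ → Fin r → ℂ), Differentiable ℂ u → Differentiable ℂ v →
    (∀ z, X.Pt m σ (u z) (v z)) → (∃ z z', ¬ X.Same m (u z) (v z) (u z') (v z')) →
      ∀ z, On σ B (u z) (v z)

/-- All nonconstant rational curves in `X_σ`, given by polynomials in one variable without common
zeros, lie in `Z_σ`. -/
def Cov.RationalIn (σ : K →+* ℂ) (B : Set (MvPolynomial (Fin (n + 1) ⊕ Fin r) K)) : Prop :=
  ∀ (p : Fin (n + 1) → Polynomial ℂ) (s : Fin r → Polynomial ℂ),
    (∀ z, X.Pt m σ (fun i => (p i).eval z) (fun j => (s j).eval z)) →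
    (∃ z z', ¬ X.Same m (fun i => (p i).eval z) (fun j => (s j).eval z)
      (fun i => (p i).eval z') (fun j => (s j).eval z')) →
      ∀ z, On σ B (fun i => (p i).eval z) (fun j => (s j).eval z)

/-- The set of the `L`-rational points with the coordinates `(u a, v a)`, `a` in some index set,
which are outside of `Z`, is finite. -/
def Cov.FinOutside {L : Type} [Field L] (φ : K →+* L)
    (B : Set (MvPolynomial (Fin (n + 1) ⊕ Fin r) K))
    (S : Set ((Fin (n + 1) → L) × (Fin r → L))) : Prop :=
  ∃ T : Finset ((Fin (n + 1) → L) × (Fin r → L)), ∀ q ∈ S, ¬ On φ B q.1 q.2 →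
    ∃ q' ∈ T, X.Same m q'.1 q'.2 q.1 q.2

/-- For all finite extensions `L` of `K`, only finitely many points of `X(L)` are outside of
`Z`. -/
def Cov.Finiteness (B : Set (MvPolynomial (Fin (n + 1) ⊕ Fin r) K)) : Prop :=
  ∀ (L : Type) [Field L] [NumberField L] [Algebra K L],
    X.FinOutside m (algebraMap K L) B {q | X.Pt m (algebraMap K L) q.1 q.2}

/-- For all finite extensions `L` of `K` and all polynomials `p i`, `s j` over `L`: if, for
`k = 0, 1, 2, …`, the points with the coordinates `(p (k), s (k))` are in `X(L)` whenever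
`p (k) ≠ 0`, then only finitely many of them are outside of `Z`. -/
def Cov.PolynomialFinite (B : Set (MvPolynomial (Fin (n + 1) ⊕ Fin r) K)) : Prop :=
  ∀ (L : Type) [Field L] [NumberField L] [Algebra K L] (p : Fin (n + 1) → Polynomial L)
    (s : Fin r → Polynomial L),
    (∀ k : ℕ, (fun i => (p i).eval (k : L)) ≠ 0 →
      X.Pt m (algebraMap K L) (fun i => (p i).eval (k : L)) (fun j => (s j).eval (k : L))) →
    X.FinOutside m (algebraMap K L) B {q | ∃ k : ℕ, (fun i => (p i).eval (k : L)) ≠ 0 ∧
      q = (fun i => (p i).eval (k : L), fun j => (s j).eval (k : L))}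

end Pool.Agent.N126.KN
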