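import Pool.Agent.TH143.HE.RSpec

/-!
Specialisation of polynomial curves on affine varieties.
-/

set_option autoImplicit false

namespace Pool.Agent.N126.SP

open MvPolynomial

variable {V : Type}

theorem eval₂_map'' {R A A' : Type} [CommRing R] [CommRing A] [CommRing A'] (φ : R →+* A)
    (g : A →+* A') (p : V → Polynomial A) (G : MvPolynomial V R) :
    (eval₂ (Polynomial.C.comp φ) p G).map g =
      eval₂ (Polynomial.C.comp (g.comp φ)) (fun j => (p j).map g) G := by
  rw [← Polynomial.coe_mapRingHom, eval₂_comp_left]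
  congr 1
  · ext r
    simp

theorem eval₂_eval'' {R A : Type} [CommRing R] [CommRing A] (φ : R →+* A) (p : V → Polynomial A)
    (G : MvPolynomial V R) (u : A) :
    (eval₂ (Polynomial.C.comp φ) p G).eval u = eval₂ φ (fun j => (p j).eval u) G := by
  rw [← Polynomial.coe_evalRingHom, eval₂_comp_left]
  congr 1
  ext r
  simp

/-- **Specialization.** -/
theorem spec [Fintype V] {k E : Type} [Field k] [Field E] [Algebra k E] {κ : Type}
    {H : κ → MvPolynomial V k} {p : V → Polynomial E}
    (h1 : ∀ a, eval₂ (Polynomial.C.comp (algebraMap k E)) p (H a) = 0)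
    {G' : MvPolynomial V k} (hne : eval₂ (Polynomial.C.comp (algebraMap k E)) p G' ≠ 0)
    {j j' : V} {i i' : ℕ} (hc : (p j).coeff i * (p j').coeff i' ≠ (p j').coeff i * (p j).coeff i') :
    ∃ (L : Type) (_ : Field L) (_ : Algebra k L) (_ : FiniteDimensional k L)
      (p' : V → Polynomial L), (∀ a, eval₂ (Polynomial.C.comp (algebraMap k L)) p' (H a) = 0) ∧
        eval₂ (Polynomial.C.comp (algebraMap k L)) p' G' ≠ 0 ∧
        (p' j).coeff i * (p' j').coeff i' ≠ (p' j').coeff i * (p' j).coeff i' := by
  classical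
  set cc : E := (p j).coeff i * (p j').coeff i' - (p j').coeff i * (p j).coeff i' with hcc
  have hcc0 : cc ≠ 0 := sub_ne_zero.2 hc
  let s : Finset E := (Finset.univ.biUnion fun j => (p j).coeffs) ∪
    {cc⁻¹, (eval₂ (Polynomial.C.comp (algebraMap k E)) p G').leadingCoeff⁻¹}
  let A := Algebra.adjoin k (s : Set E)
  have hs : ∀ x ∈ s, x ∈ A := fun x hx => Algebra.subset_adjoin hx
  have hA : Algebra.FiniteType k A :=
    ⟨(Subalgebra.fg_top A).2 ⟨s, rfl⟩⟩
  obtain ⟨m, hm⟩ := Ideal.exists_maximal A
  let _ : Field (A ⧸ m) := Ideal.Quotient.field m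
  have hft : Algebra.FiniteType k (A ⧸ m) :=
    Algebra.FiniteType.of_surjective (Ideal.Quotient.mkₐ k m) Ideal.Quotient.mk_surjective
  have hfin : Module.Finite k (A ⧸ m) := finite_of_finite_type_of_isJacobsonRing k (A ⧸ m)
  let θ : A →ₐ[k] A ⧸ m := Ideal.Quotient.mkₐ k m
  -- lifts
  have hlift : ∀ j, ∃ q : Polynomial A, q.map (algebraMap A E) = p j := by
    intro j
    have h2 : p j ∈ Polynomial.lifts (algebraMap A E) := by
      rw [Polynomial.lifts_iff_coeff_lifts]
      intro t
      by_cases ht : (p j).coeff t = 0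
      · exact ⟨0, by rw [ht, map_zero]⟩
      · refine ⟨⟨(p j).coeff t, hs _ ?_⟩, rfl⟩
        exact Finset.mem_union_left _ (Finset.mem_biUnion.2
          ⟨j, Finset.mem_univ _, Polynomial.coeff_mem_coeffs ht⟩)
    exact (Polynomial.mem_lifts _).1 h2
  choose P hP using hlift
  have hinj : Function.Injective (algebraMap A E) := Subtype.val_injective
  have hcur : ∀ G, (eval₂ (Polynomial.C.comp (algebraMap k A)) P G).map
      (algebraMap A E) = eval₂ (Polynomial.C.comp (algebraMap k E)) p G := by
    intro G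
    rw [eval₂_map'']
    congr 1
    funext j
    exact hP j
  have hcur' : ∀ G, (eval₂ (Polynomial.C.comp (algebraMap k A)) P G).map
      (θ : A →+* A ⧸ m) = eval₂ (Polynomial.C.comp (algebraMap k (A ⧸ m)))
        (fun j => (P j).map (θ : A →+* A ⧸ m)) G := by
    intro G
    rw [eval₂_map'']
    congr 1
  have hunit : ∀ x : A, ((x : E))⁻¹ ∈ s → (x : E) ≠ 0 → θ x ≠ 0 := by
    intro x hx hx0 h0
    have h2 : x * ⟨_, hs _ hx⟩ = 1 := Subtype.ext (mul_inv_cancel₀ hx0)
    have h3 := congrArg θ h2
    rw [map_mul, h0, zero_mul, map_one] at h3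
    exact zero_ne_one h3
  have hPc : ∀ j i, (((P j).coeff i : A) : E) = (p j).coeff i := by
    intro j i
    rw [← hP j, Polynomial.coeff_map]
    rfl
  refine ⟨A ⧸ m, inferInstance, inferInstance, hfin, fun j => (P j).map (θ : A →+* A ⧸ m),
    fun a => ?_, ?_, ?_⟩
  · have h2 : eval₂ (Polynomial.C.comp (algebraMap k A)) P (H a) = 0 := by
      apply Polynomial.map_injective _ hinj
      rw [hcur, h1 a, Polynomial.map_zero]
    rw [← hcur', h2, Polynomial.map_zero]
  · rw [← hcur']
    intro h0
    set q := eval₂ (Polynomial.C.comp (algebraMap k A)) P G' with hq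
    have h2 : (q.leadingCoeff : E) =
        (eval₂ (Polynomial.C.comp (algebraMap k E)) p G').leadingCoeff := by
      rw [← hcur, Polynomial.leadingCoeff_map_of_injective hinj]
      rfl
    refine hunit q.leadingCoeff ?_ ?_ ?_
    · rw [h2]
      simp [s]
    · rw [h2]
      exact Polynomial.leadingCoeff_ne_zero.2 hne
    · have h3 := congrArg (fun f => Polynomial.coeff f q.natDegree) h0
      simp only [Polynomial.coeff_map, Polynomial.coeff_zero] at h3
      exact h3
  · simp only [Polynomial.coeff_map]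
    intro h0
    have h2 : (((P j).coeff i * (P j').coeff i' - (P j').coeff i * (P j).coeff i' : A) : E) =
        cc := by
      rw [hcc, ← hPc, ← hPc, ← hPc, ← hPc]
      rfl
    refine hunit ((P j).coeff i * (P j').coeff i' - (P j').coeff i * (P j).coeff i') ?_ ?_ ?_
    · rw [h2]
      simp [s]
    · rw [h2]
      exact hcc0
    · rw [map_sub, map_mul, map_mul, sub_eq_zero]
      exact h0

end Pool.Agent.N126.SP
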