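import Pool.Agent.N126.KDefs
import Pool.Agent.N126.SP
import Pool.Agent.Y192.KC.All1

/-!
Kummer coverings of projective varieties over number fields: entire curves, rational curves and
rational points.
-/

set_option autoImplicit false

namespace Pool.Agent.N126.KN

open MvPolynomial Pool.Agent.N126.SP

variable {K : Type} [Field K] {n r : ℕ} (X : Cov K n r) {m : ℕ}

/-- the complex variety -/
noncomputable def Cov.toProj (σ : K →+* ℂ) : Pool.Agent.Y192.KC.Proj n r where
  E := map σ '' X.E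
  F := fun j => map σ (X.F j)
  d := X.d
  e := X.e
  hE := by
    rintro _ ⟨f, hf, rfl⟩
    obtain ⟨k, hk⟩ := X.hE f hf
    exact ⟨k, hk.map σ⟩
  hF := fun j => (X.hF j).map σ
  he := X.he

theorem pt_iff (σ : K →+* ℂ) (u : Fin (n + 1) → ℂ) (v : Fin r → ℂ) :
    (X.toProj σ).Pt m u v ↔ X.Pt m σ u v := by
  unfold Pool.Agent.Y192.KC.Proj.Pt Cov.Pt
  refine and_congr_right fun _ => and_congr ?_ ?_
  · constructor
    · intro h f hf
      have h1 := h _ ⟨f, hf, rfl⟩
      rwa [eval_map] at h1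
    · rintro h _ ⟨f, hf, rfl⟩
      rw [eval_map]
      exact h f hf
  · refine forall_congr' fun j => ?_
    change v j ^ X.e j = eval _ (map σ (X.F j)) ↔ _
    rw [eval_map]

theorem same_iff (σ : K →+* ℂ) (u : Fin (n + 1) → ℂ) (v : Fin r → ℂ) (u' : Fin (n + 1) → ℂ)
    (v' : Fin r → ℂ) : (X.toProj σ).Same m u v u' v' ↔ X.Same m u v u' v' := Iff.rfl

/-- weighted homogeneous polynomials on rescaled vectors -/
theorem wh_smul {L : Type} [CommRing L] (φ : K →+* L) {b : MvPolynomial (Fin (n + 1) ⊕ Fin r) K}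
    {D : ℕ} (hb : IsWeightedHomogeneous (Sum.elim (fun _ => 1) (X.wt m)) b D) (a : L)
    (u : Fin (n + 1) → L) (v : Fin r → L) :
    eval₂ φ (Sum.elim (fun i => a * u i) (fun j => a ^ X.wt m j * v j)) b =
      a ^ D * eval₂ φ (Sum.elim u v) b := by
  rw [eval₂_eq, eval₂_eq, Finset.mul_sum]
  refine Finset.sum_congr rfl fun q hq => ?_
  have h1 : ∑ j ∈ q.support, q j * (Sum.elim (fun _ => 1) (X.wt m) : Fin (n + 1) ⊕ Fin r → ℕ) j =
      D := by
    have := hb (mem_support_iff.1 hq)
    rw [← this, Finsupp.weight_apply]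
    simp [Finsupp.sum]
  have h2 : ∀ j, (Sum.elim (fun i => a * u i) (fun j => a ^ X.wt m j * v j) :
      Fin (n + 1) ⊕ Fin r → L) j = a ^ (Sum.elim (fun _ => 1) (X.wt m) :
        Fin (n + 1) ⊕ Fin r → ℕ) j * Sum.elim u v j := by
    rintro (i | j)
    · simp
    · simp
  have h3 : ∏ j ∈ q.support, (Sum.elim (fun i => a * u i) (fun j => a ^ X.wt m j * v j) :
      Fin (n + 1) ⊕ Fin r → L) j ^ q j = a ^ D * ∏ j ∈ q.support, Sum.elim u v j ^ q j := by
    rw [← h1, ← Finset.prod_pow_eq_pow_sum, ← Finset.prod_mul_distrib]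
    refine Finset.prod_congr rfl fun j _ => ?_
    rw [h2, mul_pow, ← pow_mul, mul_comm (q j)]
  rw [h3]
  ring

theorem on_same {L : Type} [Field L] (φ : K →+* L)
    {B : Set (MvPolynomial (Fin (n + 1) ⊕ Fin r) K)} (hB : X.Forms m B)
    {u : Fin (n + 1) → L} {v : Fin r → L} {u' : Fin (n + 1) → L} {v' : Fin r → L}
    (h : X.Same m u v u' v') (ho : On φ B u v) : On φ B u' v' := by
  obtain ⟨a, -, h1, h2⟩ := h
  intro b hb
  obtain ⟨D, hD⟩ := hB b hb
  rw [funext h1, funext h2, wh_smul X φ hD, ho b hb, mul_zero]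

theorem Same.symm {L : Type} [Field L] {u : Fin (n + 1) → L} {v : Fin r → L}
    {u' : Fin (n + 1) → L} {v' : Fin r → L} (h : X.Same m u v u' v') : X.Same m u' v' u v := by
  obtain ⟨a, ha, h1, h2⟩ := h
  refine ⟨a⁻¹, inv_ne_zero ha, fun i => ?_, fun j => ?_⟩
  · rw [h1, inv_mul_cancel_left₀ ha]
  · rw [h2, inv_pow, inv_mul_cancel_left₀ (pow_ne_zero _ ha)]

theorem Same.trans {L : Type} [Field L] {u : Fin (n + 1) → L} {v : Fin r → L}
    {u' : Fin (n + 1) → L} {v' : Fin r → L} {u'' : Fin (n + 1) → L} {v'' : Fin r → L}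
    (h : X.Same m u v u' v') (h' : X.Same m u' v' u'' v'') : X.Same m u v u'' v'' := by
  obtain ⟨a, ha, h1, h2⟩ := h
  obtain ⟨a', ha', h1', h2'⟩ := h'
  refine ⟨a' * a, mul_ne_zero ha' ha, fun i => ?_, fun j => ?_⟩
  · rw [h1', h1]
    ring
  · rw [h2', h2, mul_pow]
    ring

/-- the equality of points descends -/
theorem same_of_map {L M : Type} [Field L] [Field M] (τ : L →+* M) {u : Fin (n + 1) → L}
    {v : Fin r → L} {u' : Fin (n + 1) → L} {v' : Fin r → L} (hu : u ≠ 0)
    (h : X.Same m (fun i => τ (u i)) (fun j => τ (v j)) (fun i => τ (u' i)) (fun j => τ (v' j))) :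
    X.Same m u v u' v' := by
  obtain ⟨a, ha, h1, h2⟩ := h
  obtain ⟨l, hl⟩ := Function.ne_iff.1 hu
  have hl' : u l ≠ 0 := hl
  have hτ : τ (u l) ≠ 0 := (map_ne_zero τ).2 hl'
  have hal : a = τ (u' l / u l) := by
    rw [map_div₀, eq_div_iff hτ]
    exact (h1 l).symm
  refine ⟨u' l / u l, fun h0 => ha (by rw [hal, h0, map_zero]), fun i => τ.injective ?_,
    fun j => τ.injective ?_⟩
  · rw [map_mul, ← hal]
    exact h1 i
  · rw [map_mul, map_pow, ← hal]
    exact h2 j

theorem wt_mul (he : ∀ j, X.e j ∣ m) (j : Fin r) : X.wt m j * X.e j = m * X.d j := by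
  unfold Cov.wt
  exact Nat.div_mul_cancel ((he j).mul_right _)

/-- division by the common zeros -/
theorem reduce (he : ∀ j, X.e j ∣ m) (σ : K →+* ℂ) {p : Fin (n + 1) → Polynomial ℂ}
    {s : Fin r → Polynomial ℂ} (hp : p ≠ 0)
    (hE : ∀ f ∈ X.E, eval₂ (Polynomial.C.comp σ) (fun i => p i ^ m) f = 0)
    (hF : ∀ j, s j ^ X.e j = eval₂ (Polynomial.C.comp σ) (fun i => p i ^ m) (X.F j)) :
    ∃ (g : Polynomial ℂ) (p' : Fin (n + 1) → Polynomial ℂ) (s' : Fin r → Polynomial ℂ), g ≠ 0 ∧
      (∀ i, p i = g * p' i) ∧ (∀ j, s j = g ^ X.wt m j * s' j) ∧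
      ∀ z, X.Pt m σ (fun i => (p' i).eval z) (fun j => (s' j).eval z) := by
  classical
  obtain ⟨g, hg⟩ := (IsPrincipalIdealRing.principal (Ideal.span (Set.range p))).principal
  have hg' : Ideal.span (Set.range p) = Ideal.span {g} := hg
  have hdvd : ∀ i, g ∣ p i := fun i => by
    rw [← Ideal.mem_span_singleton, ← hg']
    exact Ideal.subset_span ⟨i, rfl⟩
  choose p' hp' using hdvd
  have hg0 : g ≠ 0 := by
    rintro rfl
    apply hp
    funext i
    rw [hp' i, zero_mul]
    rfl
  have hgm : g ∈ Ideal.span (Set.range p) := by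
    rw [hg']
    exact Ideal.subset_span rfl
  obtain ⟨c, hc⟩ := Ideal.mem_span_range_iff_exists_fun.1 hgm
  have hone : ∑ i, c i * p' i = 1 := by
    apply mul_left_cancel₀ hg0
    rw [mul_one, Finset.mul_sum]
    conv_rhs => rw [← hc]
    refine Finset.sum_congr rfl fun i _ => ?_
    rw [hp' i]
    ring
  have hgen : ∀ (f : MvPolynomial (Fin (n + 1)) K) (k : ℕ), f.IsHomogeneous k →
      eval₂ (Polynomial.C.comp σ) (fun i => p i ^ m) f =
        (g ^ m) ^ k * eval₂ (Polynomial.C.comp σ) (fun i => p' i ^ m) f := by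
    intro f k hk
    rw [eval₂_eq, eval₂_eq, Finset.mul_sum]
    refine Finset.sum_congr rfl fun q hq => ?_
    have h1 : ∑ j ∈ q.support, q j = k := by
      have := hk (mem_support_iff.1 hq)
      rw [← this, Finsupp.weight_apply]
      simp [Finsupp.sum]
    have h2 : ∏ i ∈ q.support, (p i ^ m) ^ q i =
        (g ^ m) ^ k * ∏ i ∈ q.support, (p' i ^ m) ^ q i := by
      rw [← h1, ← Finset.prod_pow_eq_pow_sum, ← Finset.prod_mul_distrib]
      refine Finset.prod_congr rfl fun i _ => ?_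
      rw [hp' i, mul_pow, mul_pow]
    rw [h2]
    ring
  have hsd : ∀ j, g ^ X.wt m j ∣ s j := by
    intro j
    rw [← IsIntegrallyClosed.pow_dvd_pow_iff (n := X.e j) (X.he j).ne', hF j,
      hgen _ _ (X.hF j), ← pow_mul, wt_mul X he j, ← pow_mul]
    exact Dvd.intro _ rfl
  choose s' hs' using hsd
  refine ⟨g, p', s', hg0, hp', hs', fun z => ⟨?_, ?_, ?_⟩⟩
  · intro h0
    have h1 := congrArg (Polynomial.eval z) hone
    rw [Polynomial.eval_finsetSum, Polynomial.eval_one] at h1
    rw [Finset.sum_eq_zero] at h1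
    · exact zero_ne_one h1
    · intro i _
      rw [Polynomial.eval_mul]
      have h2 : (p' i).eval z = 0 := congrFun h0 i
      rw [h2, mul_zero]
  · intro f hf
    obtain ⟨k, hk⟩ := X.hE f hf
    have h1 := hE f hf
    rw [hgen f k hk] at h1
    have h2 := (mul_eq_zero.1 h1).resolve_left (pow_ne_zero _ (pow_ne_zero _ hg0))
    have h3 := congrArg (Polynomial.eval z) h2
    rw [eval₂_eval'', Polynomial.eval_zero] at h3
    simpa using h3
  · intro j
    have h1 := hF j
    rw [hgen _ _ (X.hF j), hs' j, mul_pow, ← pow_mul, wt_mul X he j, ← pow_mul] at h1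
    have h2 := mul_left_cancel₀ (pow_ne_zero _ hg0) h1
    have h3 := congrArg (Polynomial.eval z) h2
    rw [eval₂_eval'', Polynomial.eval_pow] at h3
    simpa using h3

/-- entire curves and rational curves -/
theorem entire_of_rational (σ : K →+* ℂ) : ∃ m0 : ℕ, ∀ m, m0 ≤ m → (∀ j, X.e j ∣ m) →
    ∀ B : Set (MvPolynomial (Fin (n + 1) ⊕ Fin r) K), X.Forms m B → X.RationalIn m σ B →
      X.EntireIn m σ B := by
  obtain ⟨m0, h0⟩ := Pool.Agent.Y192.KC.ratl_all n r (X.toProj σ)
  refine ⟨m0, fun m hm he B hB hr u v hu hv hX hnc => ?_⟩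
  have hE : (X.toProj σ).Entire m u v := ⟨hu, hv, fun z => (pt_iff X σ _ _).2 (hX z), hnc⟩
  have hcount := h0 m hm he u v hE
  set S := {z | ¬ ∃ (p : Fin (n + 1) → Polynomial ℂ) (s : Fin r → Polynomial ℂ),
    (X.toProj σ).Rational m p s ∧ ∃ y, (X.toProj σ).Same m (fun i => (p i).eval y)
      (fun j => (s j).eval y) (u z) (v z)} with hS
  have hdense : Dense Sᶜ := hcount.dense_compl ℂ
  have hgood : ∀ z ∈ Sᶜ, On σ B (u z) (v z) := by
    intro z hz
    rw [hS, Set.mem_compl_iff, Set.mem_ofPred_eq, not_not] at hz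
    obtain ⟨p, s, hps, y, hy⟩ := hz
    exact on_same X σ hB hy (hr p s (fun z => (pt_iff X σ _ _).1 (hps.mem z)) hps.nonconst y)
  intro z b hb
  have hcont : Continuous fun z => eval₂ σ (Sum.elim (u z) (v z)) b := by
    have h1 : (fun z => eval₂ σ (Sum.elim (u z) (v z)) b) =
        fun z => eval (Sum.elim (u z) (v z)) (map σ b) := by
      funext z
      rw [eval_map]
    rw [h1]
    refine (MvPolynomial.continuous_eval (map σ b)).comp (continuous_pi ?_)
    rintro (i | j)
    · exact (continuous_apply i).comp hu.continuous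
    · exact (continuous_apply j).comp hv.continuous
  have h2 : Set.EqOn (fun z => eval₂ σ (Sum.elim (u z) (v z)) b) (fun _ => 0) (closure Sᶜ) :=
    Set.EqOn.closure (fun z hz => hgood z hz b hb) hcont continuous_const
  exact h2 (hdense.closure_eq ▸ Set.mem_univ z)

theorem rational_of_entire (σ : K →+* ℂ) {B : Set (MvPolynomial (Fin (n + 1) ⊕ Fin r) K)}
    (h : X.EntireIn m σ B) : X.RationalIn m σ B := by
  intro p s hX hnc
  exact h (fun z i => (p i).eval z) (fun z j => (s j).eval z)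
    (differentiable_pi.2 fun i => (p i).differentiable)
    (differentiable_pi.2 fun j => (s j).differentiable) hX hnc

theorem nat_roots {L : Type} [Field L] [CharZero L] {q : Polynomial L} (hq : q ≠ 0) :
    {k : ℕ | q.eval (k : L) = 0}.Finite :=
  (Polynomial.finite_setOfPred_isRoot hq).preimage (Nat.cast_injective.injOn)

theorem poly_zero_of_nat {L : Type} [Field L] [CharZero L] {q : Polynomial L} {S : Set ℕ}
    (hS : S.Infinite) (h : ∀ k ∈ S, q.eval (k : L) = 0) : q = 0 := by
  by_contra hq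
  exact hS ((nat_roots hq).subset h)

/-- the equations hold identically -/
theorem identically {L : Type} [Field L] [CharZero L] (φ : K →+* L)
    {p : Fin (n + 1) → Polynomial L} {s : Fin r → Polynomial L} {S : Set ℕ} (hS : S.Infinite)
    (hX : ∀ k ∈ S, X.Pt m φ (fun i => (p i).eval (k : L)) (fun j => (s j).eval (k : L))) :
    (∀ f ∈ X.E, eval₂ (Polynomial.C.comp φ) (fun i => p i ^ m) f = 0) ∧
      ∀ j, s j ^ X.e j = eval₂ (Polynomial.C.comp φ) (fun i => p i ^ m) (X.F j) := by
  constructor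
  · intro f hf
    apply poly_zero_of_nat hS
    intro k hk
    rw [eval₂_eval'']
    simpa using (hX k hk).2.1 f hf
  · intro j
    rw [← sub_eq_zero]
    apply poly_zero_of_nat hS
    intro k hk
    rw [Polynomial.eval_sub, eval₂_eval'', Polynomial.eval_pow, sub_eq_zero]
    simpa using (hX k hk).2.2 j

theorem eval_map_nat {L M : Type} [Field L] [Field M] (τ : L →+* M) (q : Polynomial L) (k : ℕ) :
    (q.map τ).eval (k : M) = τ (q.eval (k : L)) := by
  rw [← Polynomial.eval_map_apply, map_natCast]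

theorem polynomial_of_rational [NumberField K] (he : ∀ j, X.e j ∣ m) (σ : K →+* ℂ)
    {B : Set (MvPolynomial (Fin (n + 1) ⊕ Fin r) K)} (hB : X.Forms m B)
    (h : X.RationalIn m σ B) : X.PolynomialFinite m B := by
  classical
  intro L _ _ _ p s hX
  by_cases hp : p = 0
  · refine ⟨∅, ?_⟩
    rintro _ ⟨k, hk, -⟩ -
    exfalso
    apply hk
    funext i
    rw [hp]
    simp
  let _ : Algebra K ℂ := σ.toAlgebra
  have halg : Algebra.IsAlgebraic K L := Algebra.IsAlgebraic.tower_top (K := ℚ) K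
  let τ : L →ₐ[K] ℂ := IsAlgClosed.lift
  have hτ : (τ : L →+* ℂ).comp (algebraMap K L) = σ := by
    ext a
    exact τ.commutes _
  obtain ⟨i0, hi0⟩ := Function.ne_iff.1 hp
  have hi0' : p i0 ≠ 0 := hi0
  have hinf : {k : ℕ | (fun i => (p i).eval (k : L)) ≠ 0}.Infinite := by
    intro hfin
    have h1 := hfin.union (nat_roots hi0')
    refine Set.infinite_univ (h1.subset fun k _ => ?_)
    by_cases h2 : (p i0).eval (k : L) = 0
    · exact Or.inr h2
    · exact Or.inl fun h3 => h2 (congrFun h3 i0)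
  obtain ⟨hE, hF⟩ := identically X (algebraMap K L) hinf fun k hk => hX k hk
  let P : Fin (n + 1) → Polynomial ℂ := fun i => (p i).map (τ : L →+* ℂ)
  let S : Fin r → Polynomial ℂ := fun j => (s j).map (τ : L →+* ℂ)
  have hPm : ∀ f : MvPolynomial (Fin (n + 1)) K, eval₂ (Polynomial.C.comp σ) (fun i => P i ^ m) f =
      (eval₂ (Polynomial.C.comp (algebraMap K L)) (fun i => p i ^ m) f).map (τ : L →+* ℂ) := by
    intro f
    rw [eval₂_map'', hτ]
    congr 1
    funext i
    simp [P]
  have hP0 : P ≠ 0 := by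
    intro h0
    apply hi0'
    have h1 : (p i0).map (τ : L →+* ℂ) = 0 := congrFun h0 i0
    exact (Polynomial.map_eq_zero _).1 h1
  obtain ⟨g, p', s', hg, hp', hs', hX'⟩ := reduce X he σ (p := P) (s := S) hP0
    (fun f hf => by rw [hPm, hE f hf, Polynomial.map_zero])
    (fun j => by rw [hPm, ← hF j]; simp [S])
  -- the points of the reduced curve
  have hsame : ∀ k : ℕ, (fun i => (p i).eval (k : L)) ≠ 0 →
      X.Same m (fun i => (p' i).eval (k : ℂ)) (fun j => (s' j).eval (k : ℂ))
        (fun i => τ ((p i).eval (k : L))) (fun j => τ ((s j).eval (k : L))) := by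
    intro k hk
    refine ⟨g.eval (k : ℂ), ?_, fun i => ?_, fun j => ?_⟩
    · intro h0
      apply hk
      funext i
      apply τ.injective
      have h1 := congrArg (Polynomial.eval (k : ℂ)) (hp' i)
      rw [Polynomial.eval_mul, h0, zero_mul] at h1
      have h2 : (P i).eval (k : ℂ) = τ ((p i).eval (k : L)) := eval_map_nat (τ : L →+* ℂ) (p i) k
      rw [h2] at h1
      exact h1.trans (map_zero τ).symm
    · have h1 := congrArg (Polynomial.eval (k : ℂ)) (hp' i)
      rw [Polynomial.eval_mul] at h1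
      have h2 : (P i).eval (k : ℂ) = τ ((p i).eval (k : L)) := eval_map_nat (τ : L →+* ℂ) (p i) k
      exact h2.symm.trans h1
    · have h1 := congrArg (Polynomial.eval (k : ℂ)) (hs' j)
      rw [Polynomial.eval_mul, Polynomial.eval_pow] at h1
      have h2 : (S j).eval (k : ℂ) = τ ((s j).eval (k : L)) := eval_map_nat (τ : L →+* ℂ) (s j) k
      exact h2.symm.trans h1
  by_cases hnc : ∃ z z', ¬ X.Same m (fun i => (p' i).eval z) (fun j => (s' j).eval z)
      (fun i => (p' i).eval z') (fun j => (s' j).eval z')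
  · have hZ := h p' s' hX' hnc
    refine ⟨∅, ?_⟩
    rintro _ ⟨k, hk, rfl⟩ hno
    exfalso
    apply hno
    intro b hb
    have h1 := on_same X σ hB (hsame k hk) (hZ k) b hb
    apply τ.injective
    rw [map_zero, ← h1]
    have h2 := eval₂_comp_left (τ : L →+* ℂ) (algebraMap K L)
      (Sum.elim (fun i => (p i).eval (k : L)) (fun j => (s j).eval (k : L))) b
    rw [hτ] at h2
    change (τ : L →+* ℂ) _ = _
    rw [h2]
    congr 1
    funext x
    rcases x with x | x <;> rfl
  · push Not at hnc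
    obtain ⟨k0, hk0⟩ := hinf.nonempty
    refine ⟨{(fun i => (p i).eval (k0 : L), fun j => (s j).eval (k0 : L))}, ?_⟩
    rintro _ ⟨k, hk, rfl⟩ -
    refine ⟨_, Finset.mem_singleton_self _, ?_⟩
    apply same_of_map X (τ : L →+* ℂ) hk0
    exact Same.trans X (Same.symm X (hsame k0 hk0)) (Same.trans X (hnc k0 k) (hsame k hk))

/-- a rational curve over which the coordinates `t` are constant is constant -/
theorem minor_of_nonconst (σ : K →+* ℂ) {p : Fin (n + 1) → Polynomial ℂ}
    {s : Fin r → Polynomial ℂ}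
    (hX : ∀ z, X.Pt m σ (fun i => (p i).eval z) (fun j => (s j).eval z))
    (hnc : ∃ z z', ¬ X.Same m (fun i => (p i).eval z) (fun j => (s j).eval z)
      (fun i => (p i).eval z') (fun j => (s j).eval z')) :
    ∃ j k i i', (p j).coeff i * (p k).coeff i' ≠ (p k).coeff i * (p j).coeff i' := by
  rw [Pool.Agent.TH143.HE.nc_iff]
  by_contra hcon
  push Not at hcon
  obtain ⟨l, hl⟩ := Function.ne_iff.1 (hX 0).1
  have hl' : (p l).eval 0 ≠ 0 := hl
  have h1 : ∀ i, p i * Polynomial.C ((p l).eval 0) = p l * Polynomial.C ((p i).eval 0) := by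
    intro i
    apply Polynomial.funext
    intro z
    simp only [Polynomial.eval_mul, Polynomial.eval_C]
    exact hcon i l z 0
  have h2 : ∀ z, (p l).eval z ≠ 0 := by
    intro z h0
    apply (hX z).1
    funext i
    have h3 := congrArg (Polynomial.eval z) (h1 i)
    simp only [Polynomial.eval_mul, Polynomial.eval_C] at h3
    rw [h0, zero_mul] at h3
    exact (mul_eq_zero.1 h3).resolve_right hl'
  have hconst : ∀ (q : Polynomial ℂ), (∀ z, q.eval z ≠ 0) → ∀ z, q.eval z = q.eval 0 := by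
    intro q hq z
    have h3 : q.degree = 0 ∨ q.degree ≤ 0 := by
      by_contra h4
      push Not at h4
      obtain ⟨y, hy⟩ := IsAlgClosed.exists_root q (ne_of_gt h4.2)
      exact hq y hy
    have h4 : q.degree ≤ 0 := by
      rcases h3 with h3 | h3
      · exact h3.le
      · exact h3
    rw [Polynomial.eq_C_of_degree_le_zero h4]
    simp
  have h3 : ∀ i z, (p i).eval z = (p i).eval 0 := by
    intro i z
    have h4 := congrArg (Polynomial.eval z) (h1 i)
    simp only [Polynomial.eval_mul, Polynomial.eval_C] at h4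
    rw [hconst (p l) h2 z] at h4
    have h5 : (p l).eval 0 * (p i).eval z = (p l).eval 0 * (p i).eval 0 := by
      linear_combination h4
    exact mul_left_cancel₀ hl' h5
  have h4 : ∀ j z, (s j).eval z = (s j).eval 0 := by
    intro j z
    have h5 : ∀ z, (s j).eval z ^ X.e j = (s j).eval 0 ^ X.e j := by
      intro z
      rw [(hX z).2.2 j, (hX 0).2.2 j]
      congr 1
      funext i
      exact congrArg (· ^ m) (h3 i z)
    have h6 : s j ^ X.e j = Polynomial.C ((s j).eval 0 ^ X.e j) := by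
      apply Polynomial.funext
      intro z
      rw [Polynomial.eval_pow, Polynomial.eval_C]
      exact h5 z
    have h7 : (s j).natDegree = 0 := by
      have h8 := congrArg Polynomial.natDegree h6
      rw [Polynomial.natDegree_pow, Polynomial.natDegree_C] at h8
      exact (mul_eq_zero.1 h8).resolve_left (X.he j).ne'
    rw [Polynomial.eq_C_of_natDegree_eq_zero h7]
    simp
  obtain ⟨z, z', hne⟩ := hnc
  apply hne
  refine ⟨1, one_ne_zero, fun i => ?_, fun j => ?_⟩
  · change (p i).eval z' = 1 * (p i).eval z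
    rw [h3 i z, h3 i z', one_mul]
  · change (s j).eval z' = 1 ^ X.wt m j * (s j).eval z
    rw [h4 j z, h4 j z', one_pow, one_mul]

theorem rational_of_polynomial [NumberField K] (σ : K →+* ℂ)
    {B : Set (MvPolynomial (Fin (n + 1) ⊕ Fin r) K)} (h : X.PolynomialFinite m B) :
    X.RationalIn m σ B := by
  classical
  intro p s hX hnc z0 b hb
  by_contra hne
  obtain ⟨j1, j2, c1, c2, hc⟩ := minor_of_nonconst X σ hX hnc
  let _ : Algebra K ℂ := σ.toAlgebra
  let q : Fin (n + 1) ⊕ Fin r → Polynomial ℂ := Sum.elim p s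
  let pw : Fin (n + 1) → MvPolynomial (Fin (n + 1) ⊕ Fin r) K :=
    fun i => MvPolynomial.X (Sum.inl i) ^ m
  let H : X.E ⊕ Fin r → MvPolynomial (Fin (n + 1) ⊕ Fin r) K := Sum.elim
    (fun f => bind₁ pw (f : MvPolynomial (Fin (n + 1)) K))
    (fun j => MvPolynomial.X (Sum.inr j) ^ X.e j - bind₁ pw (X.F j))
  have hbind : ∀ (M : Type) [Field M] (φ : K →+* M) (q : Fin (n + 1) ⊕ Fin r → Polynomial M)
      (f : MvPolynomial (Fin (n + 1)) K), eval₂ (Polynomial.C.comp φ) q (bind₁ pw f) =
        eval₂ (Polynomial.C.comp φ) (fun i => q (Sum.inl i) ^ m) f := by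
    intro M _ φ q f
    have h1 := eval₂Hom_bind₁ (Polynomial.C.comp φ) q pw f
    simp only [coe_eval₂Hom] at h1
    rw [h1]
    congr 1
    funext i
    simp [pw]
  have hH1 : ∀ (M : Type) [Field M] (φ : K →+* M) (q : Fin (n + 1) ⊕ Fin r → Polynomial M)
      (f : X.E), eval₂ (Polynomial.C.comp φ) q (H (Sum.inl f)) =
        eval₂ (Polynomial.C.comp φ) (fun i => q (Sum.inl i) ^ m) f.1 := by
    intro M _ φ q f
    exact hbind M φ q f.1
  have hH2 : ∀ (M : Type) [Field M] (φ : K →+* M) (q : Fin (n + 1) ⊕ Fin r → Polynomial M)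
      (j : Fin r), eval₂ (Polynomial.C.comp φ) q (H (Sum.inr j)) =
        q (Sum.inr j) ^ X.e j - eval₂ (Polynomial.C.comp φ) (fun i => q (Sum.inl i) ^ m)
          (X.F j) := by
    intro M _ φ q j
    rw [← hbind M φ q]
    change eval₂ (Polynomial.C.comp φ) q (MvPolynomial.X (Sum.inr j) ^ X.e j -
      bind₁ pw (X.F j)) = _
    rw [eval₂_sub, eval₂_pow, eval₂_X]
  have h1 : ∀ a, eval₂ (Polynomial.C.comp (algebraMap K ℂ)) q (H a) = 0 := by
    rintro (f | j)
    · rw [hH1]
      apply Polynomial.funext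
      intro z
      rw [eval₂_eval'', Polynomial.eval_zero]
      have h2 := (hX z).2.1 f.1 f.2
      rw [← h2]
      congr 1
      funext i
      simp [q]
    · rw [hH2, sub_eq_zero]
      apply Polynomial.funext
      intro z
      rw [eval₂_eval'', Polynomial.eval_pow]
      have h2 := (hX z).2.2 j
      change ((s j).eval z) ^ X.e j = _
      rw [h2]
      congr 1
      funext i
      simp [q]
  have h2 : eval₂ (Polynomial.C.comp (algebraMap K ℂ)) q b ≠ 0 := by
    intro h0
    apply hne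
    have h3 := congrArg (Polynomial.eval z0) h0
    rw [eval₂_eval'', Polynomial.eval_zero] at h3
    rw [← h3]
    congr 1
    funext x
    rcases x with x | x <;> rfl
  obtain ⟨L, _, _, _, q', hq1, hq2, hq3⟩ := SP.spec h1 h2 (j := Sum.inl j1) (j' := Sum.inl j2)
    (i := c1) (i' := c2) hc
  have hchar : CharZero L := charZero_of_injective_algebraMap (algebraMap K L).injective
  have hfin : FiniteDimensional ℚ L := FiniteDimensional.trans ℚ K L
  have hnf : NumberField L := ⟨⟩
  obtain ⟨T, hT⟩ := h L (fun i => q' (Sum.inl i)) (fun j => q' (Sum.inr j)) fun k hk =>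
    ⟨hk, fun f hf => by
      have h3 := congrArg (Polynomial.eval (k : L)) (hq1 (Sum.inl ⟨f, hf⟩))
      rw [hH1, eval₂_eval'', Polynomial.eval_zero] at h3
      simpa using h3, fun j => by
      have h3 := congrArg (Polynomial.eval (k : L)) (hq1 (Sum.inr j))
      rw [hH2, Polynomial.eval_sub, eval₂_eval'', Polynomial.eval_zero, sub_eq_zero,
        Polynomial.eval_pow] at h3
      simpa using h3⟩
  -- all but finitely many points are outside of `Z`
  obtain ⟨l0, hl0⟩ : ∃ l, q' (Sum.inl l) ≠ 0 := by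
    by_contra hcon
    push Not at hcon
    apply hq3
    rw [hcon, hcon]
  have hbad : ({k : ℕ | (q' (Sum.inl l0)).eval (k : L) = 0} ∪
      {k : ℕ | (eval₂ (Polynomial.C.comp (algebraMap K L)) q' b).eval (k : L) = 0}).Finite :=
    (nat_roots hl0).union (nat_roots hq2)
  have hgood : ∀ k : ℕ, k ∉ ({k : ℕ | (q' (Sum.inl l0)).eval (k : L) = 0} ∪
      {k : ℕ | (eval₂ (Polynomial.C.comp (algebraMap K L)) q' b).eval (k : L) = 0}) →
      ∃ t ∈ T, Cov.Same X m t.1 t.2 (fun i => (q' (Sum.inl i)).eval (k : L))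
        (fun j => (q' (Sum.inr j)).eval (k : L)) := by
    intro k hk
    simp only [Set.mem_union, Set.mem_ofPred_eq, not_or] at hk
    refine hT (fun i => (q' (Sum.inl i)).eval (k : L), fun j => (q' (Sum.inr j)).eval (k : L))
      ⟨k, fun h0 => hk.1 (congrFun h0 l0), rfl⟩ fun hon => hk.2 ?_
    rw [eval₂_eval'']
    rw [← hon b hb]
    congr 1
    funext x
    rcases x with x | x <;> rfl
  obtain ⟨t, ht⟩ : ∃ t : (Fin (n + 1) → L) × (Fin r → L),
      {k : ℕ | Cov.Same X m t.1 t.2 (fun i => (q' (Sum.inl i)).eval (k : L))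
        (fun j => (q' (Sum.inr j)).eval (k : L)) ∧ (q' (Sum.inl l0)).eval (k : L) ≠ 0}.Infinite := by
    by_contra hcon
    push Not at hcon
    have h3 := hbad.union (T.finite_toSet.biUnion fun t _ => hcon t)
    refine Set.infinite_univ (h3.subset fun k _ => ?_)
    by_cases hk : k ∈ ({k : ℕ | (q' (Sum.inl l0)).eval (k : L) = 0} ∪
      {k : ℕ | (eval₂ (Polynomial.C.comp (algebraMap K L)) q' b).eval (k : L) = 0})
    · exact Or.inl hk
    · obtain ⟨t, ht, hs⟩ := hgood k hk
      refine Or.inr (Set.mem_biUnion (x := t) ht ⟨hs, fun h0 => hk (Or.inl h0)⟩)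
  have hprop : ∀ i i', q' (Sum.inl i) * Polynomial.C (t.1 i') =
      q' (Sum.inl i') * Polynomial.C (t.1 i) := by
    intro i i'
    rw [← sub_eq_zero]
    apply poly_zero_of_nat ht
    rintro k ⟨⟨a, -, h3, -⟩, -⟩
    have e1 : (q' (Sum.inl i)).eval (k : L) = a * t.1 i := h3 i
    have e2 : (q' (Sum.inl i')).eval (k : L) = a * t.1 i' := h3 i'
    simp only [Polynomial.eval_sub, Polynomial.eval_mul, Polynomial.eval_C]
    rw [e1, e2]
    ring
  obtain ⟨k, ⟨a, ha, h3, -⟩, hk⟩ := ht.nonempty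
  have htl : t.1 l0 ≠ 0 := by
    intro h0
    apply hk
    have e1 : (q' (Sum.inl l0)).eval (k : L) = a * t.1 l0 := h3 l0
    rw [e1, h0, mul_zero]
  have hco : ∀ i c, (q' (Sum.inl i)).coeff c * t.1 l0 = (q' (Sum.inl l0)).coeff c * t.1 i := by
    intro i c
    have h4 := congrArg (fun f => Polynomial.coeff f c) (hprop i l0)
    simpa [Polynomial.coeff_mul_C] using h4
  apply hq3
  have h5 : (t.1 l0 * t.1 l0) * ((q' (Sum.inl j1)).coeff c1 * (q' (Sum.inl j2)).coeff c2) =
      (t.1 l0 * t.1 l0) * ((q' (Sum.inl j2)).coeff c1 * (q' (Sum.inl j1)).coeff c2) := by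
    linear_combination ((q' (Sum.inl j2)).coeff c2 * t.1 l0) * hco j1 c1 +
      ((q' (Sum.inl l0)).coeff c1 * t.1 j1) * hco j2 c2 -
      ((q' (Sum.inl j1)).coeff c2 * t.1 l0) * hco j2 c1 -
      ((q' (Sum.inl l0)).coeff c1 * t.1 j2) * hco j1 c2
  exact mul_left_cancel₀ (mul_ne_zero htl htl) h5

theorem polynomial_of_finiteness {B : Set (MvPolynomial (Fin (n + 1) ⊕ Fin r) K)}
    (h : X.Finiteness m B) : X.PolynomialFinite m B := by
  intro L _ _ _ p s hX
  obtain ⟨T, hT⟩ := h L
  refine ⟨T, ?_⟩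
  rintro _ ⟨k, hk, rfl⟩ hno
  exact hT _ (hX k hk) hno

/-- **The theorem for the Kummer coverings.** -/
theorem kummer_lang [NumberField K] : ∃ m0 : ℕ, ∀ m, m0 ≤ m → (∀ j, X.e j ∣ m) →
    ∀ B : Set (MvPolynomial (Fin (n + 1) ⊕ Fin r) K), X.Forms m B →
      (∀ σ : K →+* ℂ, [X.EntireIn m σ B, X.RationalIn m σ B, X.PolynomialFinite m B].TFAE) ∧
      (X.Finiteness m B → ∀ σ : K →+* ℂ, X.EntireIn m σ B) := by
  classical
  choose M hM using fun σ : K →+* ℂ => entire_of_rational X σ
  refine ⟨Finset.univ.sup M, fun m hm he B hB => ?_⟩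
  have h0 : ∀ σ : K →+* ℂ,
      [X.EntireIn m σ B, X.RationalIn m σ B, X.PolynomialFinite m B].TFAE := by
    intro σ
    tfae_have 1 → 2 := rational_of_entire X σ
    tfae_have 2 → 3 := polynomial_of_rational X he σ hB
    tfae_have 3 → 2 := rational_of_polynomial X σ
    tfae_have 2 → 1 := hM σ m ((Finset.le_sup (Finset.mem_univ σ)).trans hm) he B hB
    tfae_finish
  exact ⟨h0, fun h σ => ((h0 σ).out 0 2).2 (polynomial_of_finiteness X h)⟩

end Pool.Agent.N126.KN
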