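import Pool.Agent.N126.LW
import Pool.Agent.R869.SPtd
import Pool.Agent.R869.UAll

/-!
Lang's conjecture over number fields for hypersurfaces with almost all monomials.
-/

set_option autoImplicit false

namespace Pool.Agent.N126.LA

open MvPolynomial Pool.Agent.Y719.SU Pool.Agent.N126.LB Pool.Agent.N126.LG Pool.Agent.N126.LW
open Pool.Agent.R869.Wd Pool.Agent.W602.GT
open Pool.Agent.H159R3.GGLLog (EntireCurve)

variable {K : Type} [Field K] {n : ℕ}

/-- The ideal generated by `F` and by the coordinates `x_l`, `l ∉ J`: the part `X_J` of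
`X = {F = 0}` on which the coordinates outside `J` vanish. -/
noncomputable def part (F : MvPolynomial (Fin (n + 1)) K) (J : Finset (Fin (n + 1))) :
    Ideal (MvPolynomial (Fin (n + 1)) K) :=
  Ideal.span (Set.range (Sum.elim (fun _ : Unit => F) fun l : {l // l ∉ J} => X l.1))

/-- The ideal generated by the product of the coordinates `x_j`, `j ∈ J`. -/
noncomputable def hyper (K : Type) [Field K] (J : Finset (Fin (n + 1))) :
    Ideal (MvPolynomial (Fin (n + 1)) K) :=
  Ideal.span (Set.range fun _ : Unit => ∏ j ∈ J, X j)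

theorem fam_hom {F : MvPolynomial (Fin (n + 1)) K} (hF : ∃ d, F.IsHomogeneous d)
    (J : Finset (Fin (n + 1))) : ∀ e, ∃ d, ((Sum.elim (fun _ : Unit => F)
      fun l : {l // l ∉ J} => X l.1 : Unit ⊕ {l // l ∉ J} → MvPolynomial (Fin (n + 1)) K)
        e).IsHomogeneous d := by
  rintro (e | l)
  · exact hF
  · exact ⟨1, isHomogeneous_X _ _⟩

theorem prod_hom (J : Finset (Fin (n + 1))) :
    ∃ d, (∏ j ∈ J, X j : MvPolynomial (Fin (n + 1)) K).IsHomogeneous d :=
  ⟨∑ _j ∈ J, 1, IsHomogeneous.prod J _ _ fun _ _ => isHomogeneous_X _ _⟩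

theorem onI_part {A : Type} [CommRing A] (φ : K →+* A) {F : MvPolynomial (Fin (n + 1)) K}
    (hF : ∃ d, F.IsHomogeneous d) (J : Finset (Fin (n + 1))) (x : Fin (n + 1) → A) :
    OnI φ (part F J) x ↔ eval₂ φ x F = 0 ∧ ∀ l, l ∉ J → x l = 0 := by
  refine (onI_idl φ (fam_hom hF J) x).trans ?_
  constructor
  · intro h
    refine ⟨h (Sum.inl ()), fun l hl => ?_⟩
    have h1 := h (Sum.inr ⟨l, hl⟩)
    simpa using h1
  · rintro ⟨h1, h2⟩ (e | l)
    · exact h1
    · simpa using h2 l.1 l.2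

theorem onI_hyper {A : Type} [CommRing A] (φ : K →+* A) (J : Finset (Fin (n + 1)))
    (x : Fin (n + 1) → A) : OnI φ (hyper K J) x ↔ ∏ j ∈ J, x j = 0 := by
  refine (onI_idl φ (fun _ => prod_hom J) x).trans ?_
  have h1 : eval₂ φ x (∏ j ∈ J, X j : MvPolynomial (Fin (n + 1)) K) = ∏ j ∈ J, x j := by
    rw [eval₂_prod]
    exact Finset.prod_congr rfl fun j _ => eval₂_X _ _ _
  rw [← h1]
  exact ⟨fun h => h (), fun h _ => h⟩

variable {s : ℕ} {I : Fin s → Finset (Fin (n + 1))} {d : ℕ} {a : Fin s → (Fin (n + 1) →₀ ℕ)}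

theorem loose_map (σ : K →+* ℂ) (F : MvPolynomial (Fin (n + 1)) K) (J : Finset (Fin (n + 1))) :
    Loose (map σ F) J ↔ Loose F J :=
  loose_congr (support_map_of_injective _ σ.injective) J

theorem supp_map (σ : K →+* ℂ) {F : MvPolynomial (Fin (n + 1)) K}
    (hF : F.support ⊆ withPowers d a) : (map σ F).support ⊆ withPowers d a := by
  rw [support_map_of_injective _ σ.injective]
  exact hF

theorem form_of (h : TypI I d a) {F : MvPolynomial (Fin (n + 1)) K}
    (hF : F.support ⊆ withPowers d a) : ∃ d, F.IsHomogeneous d := by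
  obtain ⟨s', N, hg⟩ := h.good
  exact hg.form hF

theorem hyperbolic_of_not_loose [NumberField K] (h : TypI I d a)
    {F : MvPolynomial (Fin (n + 1)) K} (hF : F.support ⊆ withPowers d a) (σ : K →+* ℂ)
    {J : Finset (Fin (n + 1))} (hJ : ¬ Loose F J) : Hyperbolic σ (part F J) (hyper K J) := by
  intro f hf hf0 hfI hnc z
  by_contra hne
  have hform := form_of h hF
  rw [onI_hyper] at hne
  apply hJ
  rw [← loose_map σ]
  have h30 : (∃ f : ℂ → Fin (n + 1) → ℂ, EntireCurve ∅ (fun _ : Fin 1 => map σ F) f ∧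
    ∀ j, (∃ z, f z j ≠ 0) ↔ j ∈ J) ↔ Loose (map σ F) J := (h.crit (supp_map σ hF) J).out 3 0
  refine h30.1 ⟨f, ⟨hf, fun z => ⟨hf0 z, fun j hj =>
    absurd hj (Set.notMem_empty j), fun e => ?_⟩, hnc⟩, fun j => ⟨?_, fun hj => ⟨z, ?_⟩⟩⟩
  · rw [eval_map]
    exact ((onI_part σ hform J _).1 (hfI z)).1
  · rintro ⟨z', hz'⟩
    by_contra hj
    exact hz' (((onI_part σ hform J _).1 (hfI z')).2 j hj)
  · exact fun h0 => hne (Finset.prod_eq_zero hj h0)

theorem not_loose_of_geometric [NumberField K] (h : TypI I d a)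
    {F : MvPolynomial (Fin (n + 1)) K} (hF : F.support ⊆ withPowers d a) (σ : K →+* ℂ)
    {J : Finset (Fin (n + 1))} (hg : GeometricFinite (part F J) (hyper K J)) : ¬ Loose F J := by
  intro hJ
  rw [← loose_map σ] at hJ
  obtain ⟨x, b, hx, ⟨j, hj, j', hj', hjj⟩, hO⟩ := ((h.crit (supp_map σ hF) J).out 0 1).1 hJ
  refine not_geometric σ (fam_hom (form_of h hF) J) (I' := hyper K J) (x := x) (b := b)
    (fun t ht e => ?_) ((hx j).2 hj) ((hx j').2 hj') hjj
    (G := ∏ j ∈ J, X j) (Ideal.subset_span ⟨(), rfl⟩) (prod_hom J) ?_ hg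
  · rcases e with e | l
    · have h1 := hO t ht 0
      rwa [eval_map] at h1
    · have h1 : x l.1 = 0 := by
        by_contra h2
        exact l.2 ((hx _).1 h2)
      simp [h1]
  · rw [eval₂_prod]
    refine Finset.prod_ne_zero_iff.2 fun l hl => ?_
    rw [eval₂_X]
    exact (hx l).2 hl

/-- **The strata.** -/
theorem stratum [NumberField K] (h : TypI I d a) {F : MvPolynomial (Fin (n + 1)) K}
    (hF : F.support ⊆ withPowers d a) (σ : K →+* ℂ) (J : Finset (Fin (n + 1))) :
    [¬ Loose F J, Hyperbolic σ (part F J) (hyper K J), NoRat σ (part F J) (hyper K J),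
      HtBound (part F J) (hyper K J), FinBound (part F J) (hyper K J),
      GeometricFinite (part F J) (hyper K J)].TFAE ∧
    (Finiteness (part F J) (hyper K J) → ¬ Loose F J) := by
  obtain ⟨hm, h1, h2⟩ := main σ (part F J) (hyper K J)
  have h0 : [¬ Loose F J, Hyperbolic σ (part F J) (hyper K J), NoRat σ (part F J) (hyper K J),
      HtBound (part F J) (hyper K J), FinBound (part F J) (hyper K J),
      GeometricFinite (part F J) (hyper K J)].TFAE := by
    tfae_have 1 → 2 := hyperbolic_of_not_loose h hF σ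
    tfae_have 2 → 4 := h1
    tfae_have 3 ↔ 4 := hm.out 0 3
    tfae_have 3 ↔ 5 := hm.out 0 4
    tfae_have 3 → 6 := fun h => geometric_of_noRat ((hm.out 0 2).1 h)
    tfae_have 6 → 1 := not_loose_of_geometric h hF σ
    tfae_finish
  exact ⟨h0, fun h' => (h0.out 0 3).2 (h2 h')⟩

theorem whole [NumberField K] (h : TypI I d a) {F : MvPolynomial (Fin (n + 1)) K}
    (hF : F.support ⊆ withPowers d a) (σ : K →+* ℂ) :
    [∀ J, ¬ Loose F J, Hyperbolic σ (Ideal.span {F}) ⊤, NoRat σ (Ideal.span {F}) ⊤,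
      HtBound (Ideal.span {F}) ⊤, FinBound (Ideal.span {F}) ⊤,
      GeometricFinite (Ideal.span {F}) ⊤].TFAE ∧
    (Finiteness (Ideal.span {F}) ⊤ → Hyperbolic σ (Ideal.span {F}) ⊤) := by
  obtain ⟨s', N, hg⟩ := h.good
  have hform := form_of h hF
  have hC : Sys ∅ (fun e : Unit => map σ F) s' N := hg.sys (fun _ => supp_map σ hF) ∅
  obtain ⟨hm, h2⟩ := wide_lang σ (F := fun _ : Unit => F) (fun _ => hform) hC
    (⊤ : Ideal (MvPolynomial (Fin (n + 1)) K))
  have hi : idl (fun _ : Unit => F) = Ideal.span {F} := by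
    unfold idl
    rw [Set.range_const]
  rw [hi] at hm h2
  refine ⟨?_, h2⟩
  tfae_have 1 → 2 := by
    intro h0 f hf hf0 hfI hnc
    exfalso
    classical
    apply h0 (Finset.univ.filter fun j => ∃ z, f z j ≠ 0)
    rw [← loose_map σ]
    have h30 : (∃ f' : ℂ → Fin (n + 1) → ℂ, EntireCurve ∅ (fun _ : Fin 1 => map σ F) f' ∧
      ∀ j, (∃ z, f' z j ≠ 0) ↔ j ∈ Finset.univ.filter fun j => ∃ z, f z j ≠ 0) ↔
        Loose (map σ F) (Finset.univ.filter fun j => ∃ z, f z j ≠ 0) :=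
      (h.crit (supp_map σ hF) _).out 3 0
    refine h30.1 ⟨f, ⟨hf, fun z => ⟨hf0 z, fun j hj =>
      absurd hj (Set.notMem_empty j), fun e => ?_⟩, hnc⟩, fun j => by simp⟩
    rw [eval_map]
    exact hfI z F (Ideal.subset_span rfl) hform
  tfae_have 2 → 1 := by
    intro h0 J
    refine ((stratum h hF σ J).1.out 1 0).1 ?_
    intro f hf hf0 hfI hnc z
    exfalso
    have h3 := h0 f hf hf0 (fun z => by
      rw [← hi]
      refine (onI_idl σ (fun _ => hform) _).2 fun _ => ((onI_part σ hform J _).1 (hfI z)).1) hnc z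
      1 Submodule.mem_top ⟨0, isHomogeneous_one _ _⟩
    rw [eval₂_one] at h3
    exact one_ne_zero h3
  tfae_have 2 ↔ 3 := hm.out 0 1
  tfae_have 2 ↔ 4 := hm.out 0 3
  tfae_have 2 ↔ 5 := hm.out 0 4
  tfae_have 2 ↔ 6 := hm.out 0 5
  tfae_finish

end Pool.Agent.N126.LA
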