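import Pool.Agent.Y719.SU.Main
import Pool.Agent.H159R3.GGL.LogSpecial

/-!
Lang's conjecture over number fields from the equality of the special sets of the entire curves and
of the morphisms from the multiplicative group.
-/

set_option autoImplicit false

namespace Pool.Agent.N126.LB

open MvPolynomial Pool.Agent.Y719.SU Pool.Agent.H159R3.Exp
open Pool.Agent.H159R3.GGLLog (SpH SpT EntireCurve TorusCurve)
open Pool.Agent.TH143.HE (RCur nc_iff)

variable {K : Type} [Field K] {n : ℕ} {ι : Type}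

/-- The homogeneous ideal generated by the forms `F e`. -/
noncomputable def idl (F : ι → MvPolynomial (Fin (n + 1)) K) : Ideal (MvPolynomial (Fin (n + 1)) K) :=
  Ideal.span (Set.range F)

theorem onI_idl {A : Type} [CommRing A] (φ : K →+* A) {F : ι → MvPolynomial (Fin (n + 1)) K}
    (hF : ∀ e, ∃ d, (F e).IsHomogeneous d) (x : Fin (n + 1) → A) :
    OnI φ (idl F) x ↔ ∀ e, eval₂ φ x (F e) = 0 := by
  constructor
  · intro h e
    exact h (F e) (Ideal.subset_span ⟨e, rfl⟩) (hF e)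
  · intro h G hG _
    have h1 : idl F ≤ RingHom.ker (eval₂Hom φ x) := by
      unfold idl
      rw [Ideal.span_le]
      rintro _ ⟨e, rfl⟩
      exact h e
    exact h1 hG

theorem eval₂_smul {A : Type} [CommRing A] (φ : K →+* A) {G : MvPolynomial (Fin (n + 1)) K} {d : ℕ}
    (hG : G.IsHomogeneous d) (a : A) (x : Fin (n + 1) → A) :
    eval₂ φ (fun j => x j * a) G = a ^ d * eval₂ φ x G := by
  rw [eval₂_eq, eval₂_eq, Finset.mul_sum]
  refine Finset.sum_congr rfl fun m hm => ?_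
  have h1 : ∑ j ∈ m.support, m j = d := by
    have := hG (mem_support_iff.1 hm)
    rw [← this, Finsupp.weight_apply]
    simp [Finsupp.sum]
  simp only [mul_pow, Finset.prod_mul_distrib]
  rw [Finset.prod_pow_eq_pow_sum, h1]
  ring

/-- a Laurent curve in `X` which is not in `Z` gives a rational curve -/
theorem rcur_of_torus (σ : K →+* ℂ) {F : ι → MvPolynomial (Fin (n + 1)) K}
    (hF : ∀ e, ∃ d, (F e).IsHomogeneous d) {I' : Ideal (MvPolynomial (Fin (n + 1)) K)}
    {v : ℂ → Fin (n + 1) → ℂ} (hv : TorusCurve ∅ (fun e => map σ (F e)) v)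
    {G : MvPolynomial (Fin (n + 1)) K} (hG : G ∈ I') (hGf : ∃ d, G.IsHomogeneous d) {t : ℂ}
    (ht : t ≠ 0) (hne : eval₂ σ (v t) G ≠ 0) : ∃ p, RCur σ (idl F) I' p := by
  obtain ⟨hL, hX, s, u, hs, hu, hnc⟩ := hv
  choose M Q hQ using hL
  let p : Fin (n + 1) → Polynomial ℂ := fun j =>
    Q j * Polynomial.X ^ (∑ i ∈ Finset.univ.erase j, M i)
  have hp : ∀ a : ℂ, a ≠ 0 → ∀ j, (p j).eval a = v a j * a ^ (∑ i, M i) := by
    intro a ha j
    have h1 : ∑ i, M i = M j + ∑ i ∈ Finset.univ.erase j, M i :=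
      (Finset.add_sum_erase _ _ (Finset.mem_univ j)).symm
    simp only [p, Polynomial.eval_mul, Polynomial.eval_pow, Polynomial.eval_X]
    rw [← hQ j a ha, h1, pow_add]
    ring
  have hev : ∀ a : ℂ, a ≠ 0 → ∀ (H : MvPolynomial (Fin (n + 1)) K) (d : ℕ), H.IsHomogeneous d →
      (eval₂ (Polynomial.C.comp σ) p H).eval a = (a ^ (∑ i, M i)) ^ d * eval₂ σ (v a) H := by
    intro a ha H d hH
    rw [Pool.Agent.TH143.HE.eval₂_eval, funext (hp a ha), eval₂_smul σ hH]
  refine ⟨p, fun H hH hHf => ?_, ⟨G, hG, hGf, fun h0 => ?_⟩, ?_⟩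
  · obtain ⟨d, hd⟩ := hHf
    have h1 : ∀ a : ℂ, a ≠ 0 → (eval₂ (Polynomial.C.comp σ) p H).eval a = 0 := by
      intro a ha
      rw [hev a ha H d hd]
      have h2 : OnI σ (idl F) (v a) := by
        rw [onI_idl σ hF]
        intro e
        have h3 := (hX a ha).2.2 e
        rwa [eval_map] at h3
      rw [h2 H hH ⟨d, hd⟩, mul_zero]
    by_contra hne0
    have h2 := Polynomial.finite_setOfPred_isRoot hne0
    have h3 : ({0}ᶜ : Set ℂ) ⊆ {x | (eval₂ (Polynomial.C.comp σ) p H).IsRoot x} := fun a ha =>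
      h1 a ha
    exact (Set.finite_singleton (0 : ℂ)).infinite_compl (h2.subset h3)
  · obtain ⟨d, hd⟩ := hGf
    have h1 := hev t ht G d hd
    rw [h0, Polynomial.eval_zero] at h1
    rcases mul_eq_zero.1 h1.symm with h2 | h2
    · exact pow_ne_zero _ (pow_ne_zero _ ht) h2
    · exact hne h2
  · rw [nc_iff]
    by_contra hcon
    push Not at hcon
    have hu0 : v u ≠ 0 := (hX u hu).1
    obtain ⟨k, hk⟩ := Function.ne_iff.1 hu0
    apply hnc (v s k / v u k)
    funext j
    have h1 := hcon j k s u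
    rw [hp s hs, hp u hu, hp s hs, hp u hu] at h1
    have h2 : v s j * v u k = v s k * v u j := by
      have hs' := pow_ne_zero (∑ i, M i) hs
      have hu' := pow_ne_zero (∑ i, M i) hu
      have h3 : (s ^ (∑ i, M i) * u ^ (∑ i, M i)) * (v s j * v u k) =
          (s ^ (∑ i, M i) * u ^ (∑ i, M i)) * (v s k * v u j) := by linear_combination h1
      exact mul_left_cancel₀ (mul_ne_zero hs' hu') h3
    have hk' : v u k ≠ 0 := hk
    rw [Pi.smul_apply, smul_eq_mul]
    field_simp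
    exact h2

/-- the general theorem -/
theorem hyperbolic_of_noRat [NumberField K] (σ : K →+* ℂ) {F : ι → MvPolynomial (Fin (n + 1)) K}
    (hF : ∀ e, ∃ d, (F e).IsHomogeneous d)
    (h : SpH ∅ (fun e => map σ (F e)) ⊆ SpT ∅ (fun e => map σ (F e)))
    {I' : Ideal (MvPolynomial (Fin (n + 1)) K)} (hr : NoRat σ (idl F) I') :
    Hyperbolic σ (idl F) I' := by
  intro f hf hf0 hfI hnc z G hG hGf
  have hE : EntireCurve ∅ (fun e => map σ (F e)) f := ⟨hf, fun z => ⟨hf0 z, fun j hj =>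
    absurd hj (Set.notMem_empty j), fun e => by
      rw [eval_map]
      exact (onI_idl σ hF _).1 (hfI z) e⟩, hnc⟩
  have hx : f z ∈ SpH ∅ (fun e => map σ (F e)) := ⟨hE.2.1 z, fun G' _ hG' => hG' f hE z⟩
  obtain ⟨d, hd⟩ := hGf
  have h2 := (h hx).2 (map σ G) ⟨d, hd.map σ⟩ fun v hv t ht => by
    rw [eval_map]
    by_contra hne
    obtain ⟨p, hp⟩ := rcur_of_torus σ hF hv hG ⟨d, hd⟩ ht hne
    exact hr p hp
  rwa [eval_map] at h2

theorem lang [NumberField K] (σ : K →+* ℂ) {F : ι → MvPolynomial (Fin (n + 1)) K}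
    (hF : ∀ e, ∃ d, (F e).IsHomogeneous d)
    (h : SpH ∅ (fun e => map σ (F e)) ⊆ SpT ∅ (fun e => map σ (F e)))
    (I' : Ideal (MvPolynomial (Fin (n + 1)) K)) :
    [Hyperbolic σ (idl F) I', NoRat σ (idl F) I', NoRatNF (idl F) I', HtBound (idl F) I',
      FinBound (idl F) I'].TFAE ∧ (Finiteness (idl F) I' → Hyperbolic σ (idl F) I') := by
  obtain ⟨hm, h1, h2⟩ := main σ (idl F) I'
  have h0 : [Hyperbolic σ (idl F) I', NoRat σ (idl F) I', NoRatNF (idl F) I',
      HtBound (idl F) I', FinBound (idl F) I'].TFAE := by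
    tfae_have 1 → 4 := h1
    tfae_have 2 → 1 := hyperbolic_of_noRat σ hF h
    tfae_have 2 ↔ 3 := hm.out 0 2
    tfae_have 2 ↔ 4 := hm.out 0 3
    tfae_have 2 ↔ 5 := hm.out 0 4
    tfae_finish
  exact ⟨h0, fun h' => (h0.out 0 3).2 (h2 h')⟩

end Pool.Agent.N126.LB
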