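import Pool.Agent.N126.LB
import Pool.Agent.H159R3.Lang.Basic

/-!
Points `(x_j 2 ^ (m b_j))` on projective varieties over number fields.
-/

set_option autoImplicit false

namespace Pool.Agent.N126.LG

open MvPolynomial Pool.Agent.Y719.SU Pool.Agent.N126.LB
open Pool.Agent.TH143.HE (RCur nc_iff eval₂_eval)
open Pool.Agent.H159R3.Lang (tpt gen map_gen eval_gen)

variable {K : Type} [Field K] {n : ℕ} {ι : Type}

/-- The points with the homogeneous coordinates `x_j 2 ^ (m b_j)`. -/
def geo {L : Type} [Field L] (x : Fin (n + 1) → L) (b : Fin (n + 1) → ℕ) (m : ℕ) :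
    Fin (n + 1) → L := fun j => x j * (2 ^ m) ^ b j

/-- For all finite extensions `L` of `K` and all points `x`, with coordinates in `L`, and weights
`b`: if all points `(x_j 2 ^ (m b_j))`, `m = 0, 1, 2, …`, are on `X`, then only finitely many
of these points are outside of `Z`. Here `X` and `Z` are given by the forms in `I` and in `I'`. -/
def GeometricFinite (I I' : Ideal (MvPolynomial (Fin (n + 1)) K)) : Prop :=
  ∀ (L : Type) [Field L] [NumberField L] [Algebra K L] (x : Fin (n + 1) → L)
    (b : Fin (n + 1) → ℕ) (hx : ∀ m, geo x b m ≠ 0),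
    (∀ m, Projectivization.mk L _ (hx m) ∈ Pts L I) →
      (Set.range (fun m => Projectivization.mk L _ (hx m)) \ Pts L I').Finite

theorem geometric_of_noRat [NumberField K] {I I' : Ideal (MvPolynomial (Fin (n + 1)) K)}
    (h : NoRatNF I I') : GeometricFinite I I' := by
  intro L _ _ _ x b hx hI
  by_contra hinf
  let p : Fin (n + 1) → Polynomial L := fun j => Polynomial.C (x j) * Polynomial.X ^ b j
  have hp : ∀ (t : L) (j : Fin (n + 1)), (p j).eval t = x j * t ^ b j := by
    intro t j
    simp [p]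
  have hev : ∀ (m : ℕ) (H : MvPolynomial (Fin (n + 1)) K),
      (eval₂ (Polynomial.C.comp (algebraMap K L)) p H).eval ((2 : L) ^ m) =
        eval₂ (algebraMap K L) (geo x b m) H := by
    intro m H
    rw [eval₂_eval]
    congr 1
    funext j
    rw [hp]
    rfl
  apply h L p
  refine ⟨fun H hH hHf => ?_, ?_, ?_⟩
  · by_contra hne
    have h1 := roots_fin hne
    have h2 : {m : ℕ | (eval₂ (Polynomial.C.comp (algebraMap K L)) p H).eval ((2 : L) ^ m) = 0} =
        Set.univ := by
      rw [Set.eq_univ_iff_forall]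
      intro m
      change _ = _
      rw [hev]
      exact (mem_pts (hx m)).1 (hI m) H hH hHf
    rw [h2] at h1
    exact Set.infinite_univ h1
  · obtain ⟨P, ⟨m, rfl⟩, hP⟩ := (show (Set.range (fun m => Projectivization.mk L _ (hx m)) \
      Pts L I').Infinite from hinf).nonempty
    have h1 : ¬ OnI (algebraMap K L) I' (geo x b m) := fun h2 => hP ((mem_pts (hx m)).2 h2)
    unfold OnI at h1
    push Not at h1
    obtain ⟨G, hG, hGf, hne⟩ := h1
    refine ⟨G, hG, hGf, fun h0 => hne ?_⟩
    rw [← hev, h0, Polynomial.eval_zero]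
  · rw [nc_iff]
    by_contra hcon
    push Not at hcon
    apply hinf
    refine (Set.finite_singleton (Projectivization.mk L _ (hx 0))).subset ?_
    rintro _ ⟨⟨m, rfl⟩, -⟩
    rw [Set.mem_singleton_iff]
    simp only
    rw [Projectivization.mk_eq_mk_iff']
    obtain ⟨k, hk⟩ := Function.ne_iff.1 (hx 0)
    have hk' : geo x b 0 k ≠ 0 := hk
    refine ⟨geo x b m k / geo x b 0 k, ?_⟩
    funext j
    have h1 := hcon j k (2 ^ m) (2 ^ 0)
    simp only [hp] at h1
    have h2 : geo x b m j * geo x b 0 k = geo x b m k * geo x b 0 j := h1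
    rw [Pi.smul_apply, smul_eq_mul]
    field_simp
    linear_combination -h2

/-- Specialisation of orbits of one-parameter groups. -/
theorem orbit_spec [CharZero K] (σ : K →+* ℂ) {F : ι → MvPolynomial (Fin (n + 1)) K}
    {x : Fin (n + 1) → ℂ} {b : Fin (n + 1) → ℕ}
    (h : ∀ i (t : ℂ), eval₂ σ (fun j => x j * t ^ b j) (F i) = 0)
    {G : MvPolynomial (Fin (n + 1)) K} (hG : eval₂ σ x G ≠ 0) :
    ∃ (L : Type) (_ : Field L) (_ : Algebra K L) (_ : FiniteDimensional K L)
      (x' : Fin (n + 1) → L), (∀ i (t : L), eval₂ (algebraMap K L) (fun j => x' j * t ^ b j)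
        (F i) = 0) ∧ eval₂ (algebraMap K L) x' G ≠ 0 := by
  let _ : Algebra K ℂ := σ.toAlgebra
  have h1 : ∃ y : Fin (n + 1) → ℂ,
      (∀ iv : ι × ℕ, aeval y ((gen b (F iv.1)).coeff iv.2) = 0) ∧ aeval y G ≠ 0 := by
    refine ⟨x, fun iv => ?_, hG⟩
    have h2 : aeval (fun j => Polynomial.C (x j) * Polynomial.X ^ b j :
        Fin (n + 1) → Polynomial ℂ) (F iv.1) = 0 := by
      apply Polynomial.funext
      intro t
      rw [eval_gen, Polynomial.eval_zero]
      exact h iv.1 t
    rw [← map_gen] at h2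
    have h3 := congrArg (fun p => Polynomial.coeff p iv.2) h2
    simpa [Polynomial.coeff_map] using h3
  obtain ⟨y, hy, hy2⟩ := H952R2.Sextic.transfer (kb := AlgebraicClosure K)
    (fun iv : ι × ℕ => (gen b (F iv.1)).coeff iv.2) G h1
  have hy' : ∀ i (t : AlgebraicClosure K), aeval (tpt y b t) (F i) = 0 := by
    intro i t
    rw [← eval_gen, ← map_gen]
    have : (gen b (F i)).map (aeval y :
        MvPolynomial (Fin (n + 1)) K →ₐ[K] AlgebraicClosure K).toRingHom = 0 := by
      ext v
      rw [Polynomial.coeff_map, Polynomial.coeff_zero]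
      exact hy (i, v)
    rw [this, Polynomial.eval_zero]
  let L := IntermediateField.adjoin K (Set.range y)
  have hfin : FiniteDimensional K L := by
    apply IntermediateField.finiteDimensional_adjoin
    intro x _
    exact Algebra.IsIntegral.isIntegral x
  let yL : Fin (n + 1) → L := fun j => ⟨y j, IntermediateField.subset_adjoin K _ ⟨j, rfl⟩⟩
  refine ⟨L, inferInstance, inferInstance, hfin, yL, fun i t => ?_, fun h0 => hy2 ?_⟩
  · have h1 := hy' i (algebraMap L (AlgebraicClosure K) t)
    apply (algebraMap L (AlgebraicClosure K)).injective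
    rw [map_zero, ← h1]
    change algebraMap L (AlgebraicClosure K) (aeval (fun j => yL j * t ^ b j) (F i)) = _
    rw [← aeval_algebraMap_apply]
    congr 2
  · have h1 : algebraMap L (AlgebraicClosure K) (aeval yL G) = 0 := by
      change aeval yL G = 0 at h0
      rw [h0, map_zero]
    rw [← aeval_algebraMap_apply] at h1
    exact h1

/-- If `X_σ` contains an orbit of a diagonal one-parameter group which is not in `Z_σ`, then some
sequence `(x_j 2 ^ (m b_j))` of points of `X(L)` has infinitely many points outside of `Z`. -/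
theorem not_geometric [NumberField K] (σ : K →+* ℂ) {F : ι → MvPolynomial (Fin (n + 1)) K}
    (hF : ∀ e, ∃ d, (F e).IsHomogeneous d) {I' : Ideal (MvPolynomial (Fin (n + 1)) K)}
    {x : Fin (n + 1) → ℂ} {b : Fin (n + 1) → ℤ}
    (h : ∀ t : ℂ, t ≠ 0 → ∀ e, eval₂ σ (fun j => t ^ b j * x j) (F e) = 0)
    {i i' : Fin (n + 1)} (hi : x i ≠ 0) (hi' : x i' ≠ 0) (hb : b i ≠ b i')
    {G : MvPolynomial (Fin (n + 1)) K} (hG : G ∈ I') (hGf : ∃ d, G.IsHomogeneous d)
    (hGx : eval₂ σ x G ≠ 0) : ¬ GeometricFinite (idl F) I' := by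
  classical
  intro hgeo
  let C : ℤ := ∑ j, |b j|
  have hC : ∀ j, 0 ≤ b j + C := by
    intro j
    have h1 : |b j| ≤ C := Finset.single_le_sum (f := fun j => |b j|)
      (fun j _ => abs_nonneg _) (Finset.mem_univ j)
    have h2 := neg_abs_le (b j)
    omega
  let b' : Fin (n + 1) → ℕ := fun j => (b j + C).toNat
  have hb' : ∀ j, ((b' j : ℕ) : ℤ) = b j + C := fun j => Int.toNat_of_nonneg (hC j)
  have h1 : ∀ e (t : ℂ), eval₂ σ (fun j => x j * t ^ b' j) (F e) = 0 := by
    intro e
    obtain ⟨d, hd⟩ := hF e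
    have h2 : ∀ t : ℂ, t ≠ 0 → eval₂ σ (fun j => x j * t ^ b' j) (F e) = 0 := by
      intro t ht
      have h3 : (fun j => x j * t ^ b' j) = fun j => (t ^ b j * x j) * t ^ C := by
        funext j
        rw [← zpow_natCast, hb', zpow_add₀ ht]
        ring
      rw [h3, LB.eval₂_smul σ hd, h t ht e, mul_zero]
    let q : Polynomial ℂ := eval₂ (Polynomial.C.comp σ)
      (fun j => Polynomial.C (x j) * Polynomial.X ^ b' j) (F e)
    have hq : ∀ t, q.eval t = eval₂ σ (fun j => x j * t ^ b' j) (F e) := by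
      intro t
      rw [eval₂_eval]
      congr 1
      funext j
      simp
    have hq0 : q = 0 := by
      by_contra hne
      have h2' := Polynomial.finite_setOfPred_isRoot hne
      have h3 : ({0}ᶜ : Set ℂ) ⊆ {x | q.IsRoot x} := fun a ha => by
        change q.eval a = 0
        rw [hq]
        exact h2 a ha
      exact (Set.finite_singleton (0 : ℂ)).infinite_compl (h2'.subset h3)
    intro t
    rw [← hq, hq0, Polynomial.eval_zero]
  have hG2 : eval₂ σ x (G * (X i * X i')) ≠ 0 := by
    rw [eval₂_mul, eval₂_mul, eval₂_X, eval₂_X]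
    exact mul_ne_zero hGx (mul_ne_zero hi hi')
  obtain ⟨L, _, _, _, y, hy1, hy2⟩ := orbit_spec σ h1 hG2
  rw [eval₂_mul, eval₂_mul, eval₂_X, eval₂_X] at hy2
  have hyG : eval₂ (algebraMap K L) y G ≠ 0 := left_ne_zero_of_mul hy2
  have hyi : y i ≠ 0 := left_ne_zero_of_mul (right_ne_zero_of_mul hy2)
  have hyi' : y i' ≠ 0 := right_ne_zero_of_mul (right_ne_zero_of_mul hy2)
  have hchar : CharZero L := charZero_of_injective_algebraMap (algebraMap K L).injective
  have hfin : FiniteDimensional ℚ L := FiniteDimensional.trans ℚ K L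
  have hnf : NumberField L := ⟨⟩
  have hne : ∀ m, geo y b' m ≠ 0 := by
    intro m h0
    have h2 := congrFun h0 i
    have h3 : y i * (2 ^ m) ^ b' i = 0 := h2
    exact mul_ne_zero hyi (pow_ne_zero _ (pow_ne_zero _ two_ne_zero)) h3
  have h2 := hgeo L y b' hne fun m => by
    rw [mem_pts, onI_idl _ hF]
    intro e
    exact hy1 e (2 ^ m)
  -- the points are different
  have hinj : Function.Injective fun m => Projectivization.mk L _ (hne m) := by
    intro m m' hm
    simp only at hm
    rw [Projectivization.mk_eq_mk_iff'] at hm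
    obtain ⟨a, ha⟩ := hm
    have h3 := congrFun ha i
    have h4 := congrFun ha i'
    simp only [Pi.smul_apply, smul_eq_mul, geo] at h3 h4
    have h3' : a * ((2 : L) ^ m') ^ b' i = ((2 : L) ^ m) ^ b' i := by
      apply mul_left_cancel₀ hyi
      linear_combination h3
    have h4' : a * ((2 : L) ^ m') ^ b' i' = ((2 : L) ^ m) ^ b' i' := by
      apply mul_left_cancel₀ hyi'
      linear_combination h4
    have h5 : ((2 : L) ^ m') ^ b' i * ((2 : L) ^ m) ^ b' i' =
        ((2 : L) ^ m') ^ b' i' * ((2 : L) ^ m) ^ b' i := by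
      rw [← h3', ← h4']; ring
    rw [← pow_mul, ← pow_mul, ← pow_mul, ← pow_mul, ← pow_add, ← pow_add] at h5
    have h6 : m' * b' i + m * b' i' = m' * b' i' + m * b' i := two_pow_inj L h5
    have h7 : ((m' : ℤ) - m) * ((b' i : ℤ) - b' i') = 0 := by
      have : ((m' * b' i + m * b' i' : ℕ) : ℤ) = ((m' * b' i' + m * b' i : ℕ) : ℤ) := by rw [h6]
      push_cast at this
      linear_combination this
    rcases mul_eq_zero.mp h7 with h8 | h8
    · omega
    · exfalso
      rw [hb', hb'] at h8
      apply hb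
      omega
  -- only finitely many of them are in `Z`
  let q : Polynomial L := eval₂ (Polynomial.C.comp (algebraMap K L))
      (fun j => Polynomial.C (y j) * Polynomial.X ^ b' j) G
  have hq : ∀ t, q.eval t = eval₂ (algebraMap K L) (fun j => y j * t ^ b' j) G := by
    intro t
    rw [eval₂_eval]
    congr 1
    funext j
    simp
  have hq0 : q ≠ 0 := by
    intro h0
    apply hyG
    have h3 := hq 1
    rw [h0, Polynomial.eval_zero] at h3
    simpa using h3.symm
  have h3 := roots_fin hq0
  have h4 : {m : ℕ | Projectivization.mk L _ (hne m) ∈ Pts L I'}.Finite := by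
    refine h3.subset fun m hm => ?_
    have h5 := (mem_pts (hne m)).1 hm G hG hGf
    change q.eval ((2 : L) ^ m) = 0
    rw [hq]
    exact h5
  have h5 : {m : ℕ | Projectivization.mk L _ (hne m) ∉ Pts L I'}.Finite := by
    refine Set.Finite.of_finite_image (f := fun m => Projectivization.mk L _ (hne m))
      (h2.subset ?_) hinj.injOn
    rintro _ ⟨m, hm, rfl⟩
    exact ⟨⟨m, rfl⟩, hm⟩
  have h6 := h4.union h5
  have h7 : {m : ℕ | Projectivization.mk L _ (hne m) ∈ Pts L I'} ∪
      {m : ℕ | Projectivization.mk L _ (hne m) ∉ Pts L I'} = Set.univ := by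
    ext m
    simp [em]
  rw [h7] at h6
  exact Set.infinite_univ h6

end Pool.Agent.N126.LG
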