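import Pool.Agent.N126.LB
import Pool.Agent.H159R3.Lang.Line
import Pool.Agent.W602.GT.SpDefs

/-!
Lang's conjecture over number fields for the varieties whose entire curves lie in the Zariski
closure of the union of the lines.
-/

set_option autoImplicit false

namespace Pool.Agent.N126.LN

open MvPolynomial Pool.Agent.Y719.SU Pool.Agent.N126.LB
open Pool.Agent.TH143.HE (RCur nc_iff eval₂_eval)
open Pool.Agent.H159R3.Lang (OnLine extend_two transfer_line li_of_minor)
open Pool.Agent.H159R3.GGLLog (SpH SpT EntireCurve TorusCurve)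
open Pool.Agent.W602.GT (SpLine Line val IsForm)

variable {K : Type} [Field K] {n : ℕ} {ι : Type}

/-- All lines in `X` over the finite extensions `L` of `K` lie in `Z`: if `p` and `q` are linearly
independent and all points `s p + t q` are on `X`, then they are on `Z`. -/
def LinesIn (I I' : Ideal (MvPolynomial (Fin (n + 1)) K)) : Prop :=
  ∀ (L : Type) [Field L] [NumberField L] [Algebra K L] (p q : Fin (n + 1) → L),
    LinearIndependent L ![p, q] → (∀ s t : L, OnI (algebraMap K L) I (s • p + t • q)) →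
      ∀ s t : L, s • p + t • q ≠ 0 → OnI (algebraMap K L) I' (s • p + t • q)

theorem minor_of_li {L : Type} [Field L] {p q : Fin (n + 1) → L} (h : LinearIndependent L ![p, q]) :
    ∃ j k, p j * q k - p k * q j ≠ 0 := by
  by_contra hcon
  push Not at hcon
  rw [LinearIndependent.pair_iff] at h
  have hq : q ≠ 0 := by
    intro h0
    have := (h 0 1 (by rw [h0]; simp)).2
    exact one_ne_zero this
  obtain ⟨k, hk⟩ := Function.ne_iff.1 hq
  have h1 := h (q k) (-p k) (by
    funext j
    simp only [Pi.add_apply, Pi.smul_apply, smul_eq_mul, Pi.zero_apply]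
    linear_combination hcon j k)
  exact hk h1.1

theorem lines_of_noRat [NumberField K] {I I' : Ideal (MvPolynomial (Fin (n + 1)) K)}
    (h : NoRatNF I I') : LinesIn I I' := by
  intro L _ _ _ p q hli hI s0 t0 hst G hG hGf
  by_contra hne
  have hK : Infinite L := inferInstance
  obtain ⟨j0, k0, hjk⟩ := minor_of_li hli
  -- a second parametrisation through the given point
  have hcase : ∃ u v : Fin (n + 1) → L, (u j0 * v k0 - u k0 * v j0 ≠ 0) ∧
      (∀ t : L, OnI (algebraMap K L) I (fun j => u j + t * v j)) ∧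
      eval₂ (algebraMap K L) u G ≠ 0 := by
    by_cases hs : s0 = 0
    · have ht : t0 ≠ 0 := by
        rintro rfl
        apply hst
        rw [hs]
        simp
      refine ⟨t0 • q, p, ?_, fun t => ?_, ?_⟩
      · simp only [Pi.smul_apply, smul_eq_mul]
        intro h0
        have h1 : t0 * (p j0 * q k0 - p k0 * q j0) = 0 := by linear_combination -h0
        exact (mul_ne_zero ht hjk) h1
      · have h1 := hI t t0
        convert h1 using 1
        funext j
        simp only [Pi.add_apply, Pi.smul_apply, smul_eq_mul]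
        ring
      · rw [hs] at hne
        simpa using hne
    · refine ⟨s0 • p + t0 • q, q, ?_, fun t => ?_, hne⟩
      · simp only [Pi.smul_apply, Pi.add_apply, smul_eq_mul]
        intro h0
        have h1 : s0 * (p j0 * q k0 - p k0 * q j0) = 0 := by linear_combination h0
        exact (mul_ne_zero hs hjk) h1
      · have h1 := hI s0 (t0 + t)
        convert h1 using 1
        funext j
        simp only [Pi.add_apply, Pi.smul_apply, smul_eq_mul]
        ring
  obtain ⟨u, v, h1, h2, h3⟩ := hcase
  apply h L (fun j => Polynomial.C (u j) + Polynomial.X * Polynomial.C (v j))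
  have hline : ∀ t : L, (fun j => (Polynomial.C (u j) + Polynomial.X * Polynomial.C (v j)).eval t) =
      fun j => u j + t * v j := by
    intro t
    funext j
    simp only [Polynomial.eval_add, Polynomial.eval_mul, Polynomial.eval_C, Polynomial.eval_X]
  refine ⟨fun H hH hHf => ?_, ⟨G, hG, hGf, fun h0 => h3 ?_⟩, ?_⟩
  · apply Polynomial.funext
    intro t
    rw [eval₂_eval, Polynomial.eval_zero, hline]
    exact h2 t H hH hHf
  · have h4 := congrArg (Polynomial.eval 0) h0
    rw [eval₂_eval, Polynomial.eval_zero, hline] at h4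
    have h5 : (fun j => u j + 0 * v j) = u := by
      funext j
      ring
    rw [h5] at h4
    exact h4
  · rw [nc_iff]
    refine ⟨j0, k0, 0, 1, fun h0 => h1 ?_⟩
    simp at h0
    linear_combination h0

/-- Specialisation of lines. -/
theorem line_spec [CharZero K] (σ : K →+* ℂ) {F : ι → MvPolynomial (Fin (n + 1)) K}
    {a b : Fin (n + 1) → ℂ} (h : ∀ i (s t : ℂ), eval₂ σ (s • a + t • b) (F i) = 0)
    {j k : Fin (n + 1)} (hjk : a j * b k - a k * b j ≠ 0) {G : MvPolynomial (Fin (n + 1)) K}
    {c c' : ℂ} (hG : eval₂ σ (c • a + c' • b) G ≠ 0) :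
    ∃ (L : Type) (_ : Field L) (_ : Algebra K L) (_ : FiniteDimensional K L)
      (p q : Fin (n + 1) → L), p j * q k - p k * q j ≠ 0 ∧ OnLine F p q ∧
        ∃ s t : K, aeval (algebraMap K L s • p + algebraMap K L t • q) G ≠ 0 := by
  let _ : Algebra K ℂ := σ.toAlgebra
  obtain ⟨s0, t0, h0⟩ : ∃ s t : K, aeval (algebraMap K ℂ s • a + algebraMap K ℂ t • b) G ≠ 0 := by
    by_contra hcon
    push Not at hcon
    exact hG (extend_two a b G hcon c c')
  let P : ι × K × K → MvPolynomial (Fin (n + 1) ⊕ Fin (n + 1)) K := fun x =>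
    aeval (fun j => C x.2.1 * X (Sum.inl j) + C x.2.2 * X (Sum.inr j)) (F x.1)
  let Q : MvPolynomial (Fin (n + 1) ⊕ Fin (n + 1)) K :=
    aeval (fun j => C s0 * X (Sum.inl j) + C t0 * X (Sum.inr j)) G
  have hP : ∀ (L : Type) [Field L] [Algebra K L] (y : Fin (n + 1) ⊕ Fin (n + 1) → L)
      (H : MvPolynomial (Fin (n + 1)) K) (s t : K),
      aeval y (aeval (fun j => C s * X (Sum.inl j) + C t * X (Sum.inr j) :
        Fin (n + 1) → MvPolynomial (Fin (n + 1) ⊕ Fin (n + 1)) K) H) =
      aeval (algebraMap K L s • (fun j => y (Sum.inl j))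
        + algebraMap K L t • (fun j => y (Sum.inr j))) H := by
    intro L _ _ y H s t
    rw [comp_aeval_apply]
    congr 2
    funext j
    simp [Algebra.smul_def]
  obtain ⟨y, hy, hy2⟩ := H952R2.Sextic.transfer (kb := AlgebraicClosure K) P
    ((X (Sum.inl j) * X (Sum.inr k) - X (Sum.inl k) * X (Sum.inr j)) * Q)
    ⟨Sum.elim a b, fun x => by
      simp only [P]
      rw [hP ℂ]
      exact h x.1 _ _, by
      rw [map_mul]
      refine mul_ne_zero (by simpa using hjk) ?_
      simp only [Q]
      rw [hP ℂ]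
      exact h0⟩
  rw [map_mul] at hy2
  have hy3 := left_ne_zero_of_mul hy2
  have hy4 := right_ne_zero_of_mul hy2
  simp only [Q] at hy4
  rw [hP] at hy4
  let L := IntermediateField.adjoin K (Set.range y)
  have hfin : FiniteDimensional K L := by
    apply IntermediateField.finiteDimensional_adjoin
    intro x _
    exact Algebra.IsIntegral.isIntegral x
  let yL : Fin (n + 1) ⊕ Fin (n + 1) → L :=
    fun j => ⟨y j, IntermediateField.subset_adjoin K _ ⟨j, rfl⟩⟩
  have hinj := (algebraMap L (AlgebraicClosure K)).injective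
  refine ⟨L, inferInstance, inferInstance, hfin, fun j => yL (Sum.inl j),
    fun j => yL (Sum.inr j), fun h0 => hy3 ?_, ?_, s0, t0, fun h0 => hy4 ?_⟩
  · have h1 := congrArg (algebraMap L (AlgebraicClosure K)) h0
    simpa using h1
  · intro i s t
    apply extend_two
    intro s t
    apply hinj
    rw [map_zero, ← aeval_algebraMap_apply]
    have h1 := hy (i, s, t)
    simp only [P] at h1
    rw [hP] at h1
    rw [← h1]
    congr 2
  · have h1 := congrArg (algebraMap L (AlgebraicClosure K)) h0
    rw [map_zero, ← aeval_algebraMap_apply] at h1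
    rw [← h1]
    congr 2

theorem val_eq {E : Type} [Field E] (x : Fin (n + 1) → E) (G : MvPolynomial (Fin (n + 1)) E) :
    val x G = eval x G := by
  unfold val
  rw [aeval_def]
  rfl

/-- lines instead of rational curves -/
theorem hyperbolic_of_lines [NumberField K] (σ : K →+* ℂ)
    {F : ι → MvPolynomial (Fin (n + 1)) K} (hF : ∀ e, ∃ d, (F e).IsHomogeneous d)
    (hsp : SpH ∅ (fun e => map σ (F e)) ⊆ SpLine (fun e => map σ (F e)))
    {I' : Ideal (MvPolynomial (Fin (n + 1)) K)} (h : LinesIn (idl F) I') :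
    Hyperbolic σ (idl F) I' := by
  intro f hf hf0 hfI hnc z G hG hGf
  have hE : EntireCurve ∅ (fun e => map σ (F e)) f := ⟨hf, fun z => ⟨hf0 z, fun j hj =>
    absurd hj (Set.notMem_empty j), fun e => by
      rw [eval_map]
      exact (onI_idl σ hF _).1 (hfI z) e⟩, hnc⟩
  have hx : f z ∈ SpH ∅ (fun e => map σ (F e)) := ⟨hE.2.1 z, fun G' _ hG' => hG' f hE z⟩
  obtain ⟨d, hd⟩ := hGf
  have h2 := (hsp hx).2 (map σ G) ⟨d, hd.map σ⟩ fun a b hab c c' => by
    rw [val_eq, eval_map]
    by_contra hne
    obtain ⟨j, k, hjk⟩ := minor_of_li hab.1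
    have h3 : ∀ i (s t : ℂ), eval₂ σ (s • a + t • b) (F i) = 0 := by
      intro i s t
      have h4 := hab.2 s t i
      rwa [val_eq, eval_map] at h4
    obtain ⟨L, _, _, _, p, q, h5, h6, s, t, h7⟩ := line_spec σ h3 hjk hne
    have hchar : CharZero L := charZero_of_injective_algebraMap (algebraMap K L).injective
    have hfin : FiniteDimensional ℚ L := FiniteDimensional.trans ℚ K L
    have hnf : NumberField L := ⟨⟩
    have hl := h L p q (li_of_minor p q j k h5) fun s t => (onI_idl _ hF _).2 fun e => h6 e s t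
    by_cases h8 : algebraMap K L s • p + algebraMap K L t • q = 0
    · rw [h8] at h7
      have h9 : (0 : Fin (n + 1) → L) = (0 : L) • p := by simp
      rw [h9, Pool.Agent.H159R3.Lang.aeval_smul_homog hd] at h7
      have h10 : (1 : L) • p + (0 : L) • q = p := by simp
      have hp : p ≠ 0 := by
        rintro rfl
        simp at h5
      have h11 := hl 1 0 (by rwa [h10]) G hG ⟨d, hd⟩
      rw [h10] at h11
      exact right_ne_zero_of_mul h7 h11
    · exact h7 (hl _ _ h8 G hG ⟨d, hd⟩)
  rwa [val_eq, eval_map] at h2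

theorem lang_lines [NumberField K] (σ : K →+* ℂ) {F : ι → MvPolynomial (Fin (n + 1)) K}
    (hF : ∀ e, ∃ d, (F e).IsHomogeneous d)
    (hsp : SpH ∅ (fun e => map σ (F e)) ⊆ SpLine (fun e => map σ (F e)))
    (I' : Ideal (MvPolynomial (Fin (n + 1)) K)) :
    [Hyperbolic σ (idl F) I', NoRat σ (idl F) I', HtBound (idl F) I', FinBound (idl F) I',
      LinesIn (idl F) I'].TFAE ∧ (Finiteness (idl F) I' → Hyperbolic σ (idl F) I') := by
  obtain ⟨hm, h1, h2⟩ := main σ (idl F) I'
  have h0 : [Hyperbolic σ (idl F) I', NoRat σ (idl F) I', HtBound (idl F) I',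
      FinBound (idl F) I', LinesIn (idl F) I'].TFAE := by
    tfae_have 1 → 3 := h1
    tfae_have 2 ↔ 3 := hm.out 0 3
    tfae_have 2 ↔ 4 := hm.out 0 4
    tfae_have 2 → 5 := fun h => lines_of_noRat ((hm.out 0 2).1 h)
    tfae_have 5 → 1 := hyperbolic_of_lines σ hF hsp
    tfae_finish
  exact ⟨h0, fun h' => (h0.out 0 2).2 (h2 h')⟩

end Pool.Agent.N126.LN
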