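import Pool.Agent.N126.LN
import Pool.Agent.Y190.SN.Pt

/-!
Lang's conjecture over number fields for the varieties of the vectors whose `m`-th powers are the
values of a polynomial.
-/

set_option autoImplicit false

namespace Pool.Agent.N126.LP

open MvPolynomial Pool.Agent.Y719.SU Pool.Agent.N126.LB Pool.Agent.N126.LN
open Pool.Agent.H159R3.GGLLog (SpH)
open Pool.Agent.W602.GT (SpLine Cone val)
open Pool.Agent.Y190.BV (PowVal)

variable {K : Type} [Field K] {N : ℕ} {ι : Type}

/-- `x ≠ 0`, and there is a polynomial `H` over `E` of degree at most `n` with `x i ^ m = H (a i)` for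
all `i`. -/
def ValueVector {E : Type} [Field E] [Algebra K E] (a : Fin (N + 1) → K) (n m : ℕ)
    (x : Fin (N + 1) → E) : Prop :=
  ∃ H : Polynomial E, H.natDegree ≤ n ∧ ∀ i, x i ^ m = H.eval (algebraMap K E (a i))

/-- The points of `X = {F = 0}` over all extensions of `K` are the vectors whose `m`-th powers are the
values of a polynomial of degree at most `n` at the `a i`. -/
def IsPowVal (a : Fin (N + 1) → K) (n m : ℕ) (F : ι → MvPolynomial (Fin (N + 1)) K) : Prop :=
  ∀ (E : Type) [Field E] [Algebra K E] (x : Fin (N + 1) → E), x ≠ 0 →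
    ((∀ e, aeval x (F e) = 0) ↔ ValueVector a n m x)

/-- `X = {F = 0}` is contained in the variety of these vectors. -/
def InPowVal (a : Fin (N + 1) → K) (n m : ℕ) (F : ι → MvPolynomial (Fin (N + 1)) K) : Prop :=
  ∀ (E : Type) [Field E] [Algebra K E] (x : Fin (N + 1) → E), x ≠ 0 →
    (∀ e, aeval x (F e) = 0) → ValueVector a n m x

theorem cone_sub (σ : K →+* ℂ) {a : Fin (N + 1) → K} {n m : ℕ}
    {F : ι → MvPolynomial (Fin (N + 1)) K} (h : InPowVal a n m F) :
    Cone (fun e => map σ (F e)) ⊆ PowVal (fun i => σ (a i)) n m := by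
  let _ : Algebra K ℂ := σ.toAlgebra
  rintro x ⟨hx0, hx⟩
  refine ⟨hx0, h ℂ x hx0 fun e => ?_⟩
  have h1 := hx e
  rwa [val_eq, eval_map] at h1

theorem cone_eq (σ : K →+* ℂ) {a : Fin (N + 1) → K} {n m : ℕ}
    {F : ι → MvPolynomial (Fin (N + 1)) K} (h : IsPowVal a n m F) :
    Cone (fun e => map σ (F e)) = PowVal (fun i => σ (a i)) n m := by
  apply Set.Subset.antisymm
  · exact cone_sub σ fun E _ _ x hx0 hx => (h E x hx0).1 hx
  · let _ : Algebra K ℂ := σ.toAlgebra
    rintro x ⟨hx0, hx⟩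
    refine ⟨hx0, fun e => ?_⟩
    rw [val_eq, eval_map]
    exact (h ℂ x hx0).2 hx e

theorem powVal_lang [NumberField K] {n m : ℕ} (hm : 2 ≤ m) (hN : 4 * n ≤ N)
    {a : Fin (N + 1) → K} (ha : Function.Injective a) {F : ι → MvPolynomial (Fin (N + 1)) K}
    (hF : ∀ e, ∃ d, (F e).IsHomogeneous d)
    (hX : IsPowVal a n m F ∨ (n < 2 * m ∧ InPowVal a n m F))
    (I' : Ideal (MvPolynomial (Fin (N + 1)) K)) (σ : K →+* ℂ) :
    [Hyperbolic σ (idl F) I', NoRat σ (idl F) I', HtBound (idl F) I', FinBound (idl F) I',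
      LinesIn (idl F) I'].TFAE ∧ (Finiteness (idl F) I' → Hyperbolic σ (idl F) I') := by
  have hX' : Cone (fun e => map σ (F e)) = PowVal (fun i => σ (a i)) n m ∨
      (n < 2 * m ∧ Cone (fun e => map σ (F e)) ⊆ PowVal (fun i => σ (a i)) n m) := by
    rcases hX with h | ⟨h1, h2⟩
    · exact Or.inl (cone_eq σ h)
    · exact Or.inr ⟨h1, cone_sub σ h2⟩
  have h1 := (Pool.Agent.Y190.SP.special_X (n := n) (m := m) hm (by omega)
    (a := fun i => σ (a i)) (fun i j hij => ha (σ.injective hij))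
    (F := fun e => map σ (F e)) (fun e => by
      obtain ⟨d, hd⟩ := hF e
      exact ⟨d, hd.map σ⟩) hX').1
  exact lang_lines σ hF h1.le I'

end Pool.Agent.N126.LP
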