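import Pool.Agent.N126.LT
import Pool.Agent.N126.LP
import Pool.Agent.N133.Pt
import Pool.Agent.Y190.PH.Tf

/-!
The strong conjecture of Lang for the components of projective varieties over number fields on which
the entire curves and the lines have the same closure.
-/

set_option autoImplicit false

namespace Pool.Agent.N126.LQ

open MvPolynomial Pool.Agent.Y719.SU Pool.Agent.N126.LB Pool.Agent.N126.LN Pool.Agent.N126.LP
open Pool.Agent.N126.LS Pool.Agent.N126.LT
open Pool.Agent.H159R3.GGLLog (SpH EntireCurve)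
open Pool.Agent.W602.GT (SpLine Cone VarPts IsForm IsComponent SubVar GeneralType KodGe Psef Ruled
  coords Line)
open Pool.Agent.W602.GT (val)

variable {K : Type} [Field K] {n : ℕ} {ι : Type}

/-- the forms that vanish at `y` -/
noncomputable abbrev vanC {M : Type} [Field M] [Algebra ℂ M] (y : Fin (n + 1) → M) :=
  Pool.Agent.Y190.AH.van (k := ℂ) y

theorem cone_van {M : Type} [Field M] [Algebra ℂ M] {y : Fin (n + 1) → M}
    {x : Fin (n + 1) → ℂ} : x ∈ Cone (vanC y) ↔ x ∈ VarPts ℂ y :=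
  ⟨fun h => ⟨h.1, fun G hG hy => h.2 ⟨G, hG, hy⟩⟩, fun h => ⟨h.1, fun e => h.2 e.1 e.2.1 e.2.2⟩⟩

theorem curvesIn_of_spH {M : Type} [Field M] [Algebra ℂ M] {y : Fin (n + 1) → M}
    {x : Fin (n + 1) → ℂ} (hx : x ∈ VarPts ℂ y) (hxs : x ∉ SpH ∅ (vanC y)) : CurvesIn y := by
  have hpts : x ∈ Pool.Agent.H159R3.GGLLog.Pts ∅ (vanC y) :=
    ⟨hx.1, fun j hj => absurd hj (Set.notMem_empty j), fun e => by
      have h1 := hx.2 e.1 e.2.1 e.2.2
      rwa [val_eq] at h1⟩
  have h1 : ∃ G : MvPolynomial (Fin (n + 1)) ℂ, (∃ d, G.IsHomogeneous d) ∧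
      (∀ f, EntireCurve ∅ (vanC y) f → ∀ z, eval (f z) G = 0) ∧ eval x G ≠ 0 := by
    by_contra hcon
    push Not at hcon
    exact hxs ⟨hpts, fun G hG h => hcon G hG h⟩
  obtain ⟨G, hG, hcur, hne⟩ := h1
  refine ⟨G, hG, fun h0 => hne ?_, fun q hq hnc z => ?_⟩
  · have h2 := hx.2 G hG h0
    rwa [val_eq] at h2
  · refine hcur (fun z j => (q j).eval z) ⟨differentiable_pi.2 fun j => (q j).differentiable,
      fun z => ⟨(hq z).1, fun j hj => absurd hj (Set.notMem_empty j), fun e => ?_⟩, hnc⟩ z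
    have h2 := (hq z).2 e.1 e.2.1 e.2.2
    rwa [val_eq] at h2

/-- a line in `X_σ` which is not in `Z_σ` -/
theorem not_linesIn [NumberField K] (σ : K →+* ℂ)
    {F : ι → MvPolynomial (Fin (n + 1)) K} (hF : ∀ e, ∃ d, (F e).IsHomogeneous d)
    {I' : Ideal (MvPolynomial (Fin (n + 1)) K)} {a b : Fin (n + 1) → ℂ}
    (hab : Line (fun e => map σ (F e)) a b) {G : MvPolynomial (Fin (n + 1)) K} (hG : G ∈ I')
    (hGf : ∃ d, G.IsHomogeneous d) {c c' : ℂ} (hne : val (c • a + c' • b) (map σ G) ≠ 0) :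
    ¬ LinesIn (idl F) I' := by
  intro h
  obtain ⟨d, hd⟩ := hGf
  rw [val_eq, eval_map] at hne
  obtain ⟨j, k, hjk⟩ := minor_of_li hab.1
  have h3 : ∀ i (s t : ℂ), eval₂ σ (s • a + t • b) (F i) = 0 := by
    intro i s t
    have h4 := hab.2 s t i
    rwa [val_eq, eval_map] at h4
  obtain ⟨L, _, _, _, p, q, h5, h6, s, t, h7⟩ := line_spec σ h3 hjk hne
  have hchar : CharZero L := charZero_of_injective_algebraMap (algebraMap K L).injective
  have hfin : FiniteDimensional ℚ L := FiniteDimensional.trans ℚ K L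
  have hnf : NumberField L := ⟨⟩
  have hl := h L p q (Pool.Agent.H159R3.Lang.li_of_minor p q j k h5) fun s t => (onI_idl _ hF _).2 fun e => h6 e s t
  by_cases h8 : algebraMap K L s • p + algebraMap K L t • q = 0
  · rw [h8] at h7
    have h9 : (0 : Fin (n + 1) → L) = (0 : L) • p := by simp
    rw [h9, Pool.Agent.H159R3.Lang.aeval_smul_homog hd] at h7
    have h10 : (1 : L) • p + (0 : L) • q = p := by simp
    have hp : p ≠ 0 := by
      rintro rfl
      simp at h5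
    have h11 := hl 1 0 (by rwa [h10]) G hG ⟨d, hd⟩
    rw [h10] at h11
    exact right_ne_zero_of_mul h7 h11
  · exact h7 (hl _ _ h8 G hG ⟨d, hd⟩)

theorem in_exc_of_lines [NumberField K] (σ : K →+* ℂ)
    {F : ι → MvPolynomial (Fin (n + 1)) K} (hF : ∀ e, ∃ d, (F e).IsHomogeneous d)
    {M : Type} [Field M] [Algebra ℂ M] {y : Fin (n + 1) → M} (hy0 : y ≠ 0)
    (hmem : ∀ e, val y (map σ (F e)) = 0) (hsp : SpLine (vanC y) = Cone (vanC y))
    {G : MvPolynomial (Fin (n + 1)) K} (hG : G ∈ exc (idl F)) (hGf : ∃ d, G.IsHomogeneous d) :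
    val y (map σ G) = 0 := by
  by_contra hne
  obtain ⟨d, hd⟩ := hGf
  obtain ⟨p, hp, hpG⟩ := Pool.Agent.N133.Pt.exists_varPt (k := ℂ) hy0 ⟨d, hd.map σ⟩ hne
  have hp1 : p ∈ SpLine (vanC y) := by
    rw [hsp]
    exact cone_van.2 hp
  obtain ⟨a, b, hab, c, c', hc⟩ : ∃ a b, Line (vanC y) a b ∧ ∃ c c' : ℂ,
      val (c • a + c' • b) (map σ G) ≠ 0 := by
    by_contra hcon
    push Not at hcon
    exact hpG (hp1.2 _ ⟨d, hd.map σ⟩ hcon)
  refine not_linesIn σ hF (a := a) (b := b) ⟨hab.1, fun s t e => ?_⟩ hG ⟨d, hd⟩ hc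
    (lines_of_noRat (noRatNF_exc _))
  obtain ⟨d', hd'⟩ := hF e
  exact hab.2 s t ⟨map σ (F e), ⟨d', hd'.map σ⟩, hmem e⟩

theorem simple_of_lt {M : Type} [Field M] {H : Polynomial M} {m N' : ℕ} (hH0 : H ≠ 0)
    (hH : H.natDegree ≤ N') (hm : N' < 2 * m) (q : Polynomial M) (hq : q ^ m ∣ H) :
    q.natDegree ≤ 1 := by
  have h1 := Polynomial.natDegree_le_of_dvd hq hH0
  rw [Polynomial.natDegree_pow] at h1
  by_contra h2
  push Not at h2
  have h3 : m * 2 ≤ m * q.natDegree := Nat.mul_le_mul_left m h2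
  omega

/-- **Components of the subvarieties of the varieties of power values.** -/
theorem powVal_comp [NumberField K] {N n m : ℕ} (hm : 2 ≤ m) (hnm : n < 2 * m)
    (hN : 4 * n + (n + 1) ^ 2 < 2 * (N + 1)) {a : Fin (N + 1) → K} (ha : Function.Injective a)
    {F : ι → MvPolynomial (Fin (N + 1)) K} (hF : ∀ e, ∃ d, (F e).IsHomogeneous d)
    (hX : InPowVal a n m F) (σ : K →+* ℂ) {M : Type} [Field M] [Algebra ℂ M] {w : ℕ}
    {y : Fin (N + 1) → M} (hy : SubVar (fun e => map σ (F e)) M w y)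
    (hcomp : IsComponent (fun e => map σ (F e)) y) :
    [GeneralType ℂ M w, ∃ G ∈ exc (idl F), IsForm G ∧ val y (map σ G) ≠ 0, ¬ Ruled ℂ M,
      Psef ℂ M w (fun _ => False), KodGe ℂ M w (fun _ => False) 0,
      SpLine (vanC y) ≠ Cone (vanC y)].TFAE := by
  have hn : n ≤ N := by nlinarith
  have haσ : Function.Injective fun i => σ (a i) := fun i j hij => ha (σ.injective hij)
  -- the polynomial of `y`
  obtain ⟨H, hH, hyH⟩ : ∃ H : Polynomial M, H.natDegree ≤ n ∧
      ∀ i, y i ^ m = H.eval (algebraMap ℂ M (σ (a i))) := by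
    let _ : Algebra K M := ((algebraMap ℂ M).comp σ).toAlgebra
    refine hX M y hy.ne fun e => ?_
    have h1 := hy.mem e
    unfold val at h1
    rw [aeval_def, eval₂_map] at h1
    exact h1
  have hH0 : H ≠ 0 := by
    rintro rfl
    apply hy.ne
    funext i
    have h1 := hyH i
    rw [Polynomial.eval_zero] at h1
    exact pow_eq_zero_iff (by omega) |>.1 h1
  obtain ⟨hsub, hgen, hs⟩ := Pool.Agent.Y190.PH.sub_data (U := ∅) (m := m) hn haσ hy.ne
    (fun j hj => absurd hj (Set.notMem_empty j)) hH hyH (simple_of_lt hH0 hH hnm)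
  have hcone : Pool.Agent.W602.GT.ConeU ∅ (vanC y) = Cone (vanC y) := by
    ext x
    exact ⟨fun h => ⟨h.1, h.2.2⟩, fun h => ⟨h.1, fun j hj => absurd hj (Set.notMem_empty j), h.2⟩⟩
  rw [hcone] at hsub hgen
  have hvF : ∀ e, IsForm (vanC y e) := fun e => e.2.1
  have hlang := Pool.Agent.Y190.SN.lang_simple hm hn hN haσ hvF hsub
    (⟨hy.ne, fun e => e.2.2, hy.gen, hy.dim⟩ : SubVar (vanC y) M w y) hs hgen
  tfae_have 3 ↔ 1 := (not_iff_comm.1 (hlang.out 2 6).symm).trans (by rfl) |>.symm.symm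
  tfae_have 4 ↔ 1 := by
    have h := hlang.out 1 6
    exact not_iff_not.1 h
  tfae_have 5 ↔ 1 := by
    have h := hlang.out 0 6
    exact not_iff_not.1 h
  tfae_have 6 ↔ 1 := by
    have h : SpLine (vanC y) = Cone (vanC y) ↔ ¬ GeneralType ℂ M w := hlang.out 3 6
    exact not_iff_comm.1 h.symm
  tfae_have 2 → 6 := by
    rintro ⟨G, hG, hGf, hne⟩ hsp
    exact hne (in_exc_of_lines σ hF hy.ne hy.mem hsp hG hGf)
  tfae_have 6 → 2 := by
    intro h
    have h4n : 4 * n < N + 1 := by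
      have h5 : 4 * n ≤ (n + 1) ^ 2 := by
        zify
        nlinarith [sq_nonneg ((n : ℤ) - 1)]
      linarith
    have hsp : SpH ∅ (vanC y) = SpLine (vanC y) :=
      (Pool.Agent.Y190.SP.special_X (n := n) (m := m) hm h4n
        haσ hvF (Or.inr ⟨hnm, hsub.trans (Pool.Agent.Y190.BV.cone_buchi haσ hn).subset⟩)).1
    have h1 : ∃ x ∈ Cone (vanC y), x ∉ SpLine (vanC y) := by
      by_contra hcon
      push Not at hcon
      exact h (Set.Subset.antisymm (fun x hx => hx.1) hcon)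
    obtain ⟨x, hx, hxs⟩ := h1
    rw [← hsp] at hxs
    exact not_contained hF hcomp (curvesIn_of_spH (cone_van.1 hx) hxs)
  tfae_finish

/-- The lines in the complex variety `V` with the generic point `y` are dense in `V`. -/
def CoveredByLines {M : Type} [Field M] [Algebra ℂ M] (y : Fin (n + 1) → M) : Prop :=
  ∀ G : MvPolynomial (Fin (n + 1)) ℂ, IsForm G → val y G ≠ 0 →
    ∃ p q : Fin (n + 1) → ℂ, LinearIndependent ℂ ![p, q] ∧
      (∀ (c c' : ℂ) (P : MvPolynomial (Fin (n + 1)) ℂ), IsForm P → val y P = 0 →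
        val (c • p + c' • q) P = 0) ∧ ∃ c c' : ℂ, val (c • p + c' • q) G ≠ 0

theorem covered_iff {M : Type} [Field M] [Algebra ℂ M] {y : Fin (n + 1) → M} (hy0 : y ≠ 0) :
    CoveredByLines y ↔ SpLine (vanC y) = Cone (vanC y) := by
  constructor
  · intro h
    refine Set.Subset.antisymm (fun x hx => hx.1) fun x hx => ⟨hx, fun G hG hL => ?_⟩
    by_contra hne
    obtain ⟨p, q, h1, h2, c, c', h3⟩ := h G hG fun h0 => hne ((cone_van.1 hx).2 G hG h0)
    exact h3 (hL p q ⟨h1, fun c c' e => h2 c c' e.1 e.2.1 e.2.2⟩ c c')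
  · intro h G hG hne
    obtain ⟨x, hx, hxG⟩ := Pool.Agent.N133.Pt.exists_varPt (k := ℂ) hy0 hG hne
    have hx1 : x ∈ SpLine (vanC y) := by
      rw [h]
      exact cone_van.2 hx
    by_contra hcon
    push Not at hcon
    refine hxG (hx1.2 G hG fun p q hpq c c' => ?_)
    exact hcon p q hpq.1 (fun c c' P hP hPy => hpq.2 c c' ⟨P, hP, hPy⟩) c c'

/-- **The strong conjecture for the subvarieties of the varieties of power values.** -/
theorem powVal_strong [NumberField K] {N n m : ℕ} (hm : 2 ≤ m) (hnm : n < 2 * m)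
    (hN : 4 * n + (n + 1) ^ 2 < 2 * (N + 1)) {a : Fin (N + 1) → K} (ha : Function.Injective a)
    {F : ι → MvPolynomial (Fin (N + 1)) K} (hF : ∀ e, ∃ d, (F e).IsHomogeneous d)
    (hX : InPowVal a n m F) :
    ∃ I₀ : Ideal (MvPolynomial (Fin (N + 1)) K), idl F ≤ I₀ ∧
      (∀ (σ : K →+* ℂ) (M : Type) [Field M] [Algebra ℂ M] (w : ℕ) (y : Fin (N + 1) → M),
        SubVar (fun e => map σ (F e)) M w y → IsComponent (fun e => map σ (F e)) y →
          [GeneralType ℂ M w, ∃ G ∈ I₀, IsForm G ∧ val y (map σ G) ≠ 0, ¬ Ruled ℂ M,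
            Psef ℂ M w (fun _ => False), KodGe ℂ M w (fun _ => False) 0,
            ¬ CoveredByLines y].TFAE) ∧
      (∀ (σ : K →+* ℂ) (I' : Ideal (MvPolynomial (Fin (N + 1)) K)), [Contained σ I₀ I',
        HtBound (idl F) I', FinBound (idl F) I', LinesIn (idl F) I',
        Hyperbolic σ (idl F) I', NoRat σ (idl F) I'].TFAE) ∧
      ∀ (σ : K →+* ℂ) (I' : Ideal (MvPolynomial (Fin (N + 1)) K)),
        Finiteness (idl F) I' → Contained σ I₀ I' := by
  have h4n : 4 * n ≤ N := by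
    have h5 : 4 * n ≤ (n + 1) ^ 2 := by
      zify
      nlinarith [sq_nonneg ((n : ℤ) - 1)]
    have h6 : 4 * n < N + 1 := by linarith
    omega
  have h0 : ∀ (σ : K →+* ℂ) (I' : Ideal (MvPolynomial (Fin (N + 1)) K)),
      [Contained σ (exc (idl F)) I',
        HtBound (idl F) I', FinBound (idl F) I', LinesIn (idl F) I',
        Hyperbolic σ (idl F) I', NoRat σ (idl F) I'].TFAE := by
    intro σ I'
    have h1 := (powVal_lang hm h4n ha hF (Or.inr ⟨hnm, hX⟩) I' σ).1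
    tfae_have 5 ↔ 6 := h1.out 0 1
    tfae_have 5 ↔ 2 := h1.out 0 2
    tfae_have 5 ↔ 3 := h1.out 0 3
    tfae_have 5 ↔ 4 := h1.out 0 4
    tfae_have 6 ↔ 1 := noRat_iff_contained σ _ I'
    tfae_finish
  refine ⟨exc (idl F), ?_, fun σ M _ _ w y hy hcomp => ?_, h0, fun σ I' h => ?_⟩
  · unfold idl
    rw [Ideal.span_le]
    rintro _ ⟨e, rfl⟩
    refine Ideal.subset_span ⟨hF e, fun L _ _ _ p hp => ?_⟩
    exact noRat_single hp (hp.zero (F e) (Ideal.subset_span ⟨e, rfl⟩) (hF e))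
  · have h1 := powVal_comp hm hnm hN ha hF hX σ hy hcomp
    have h2 := covered_iff (n := N) hy.ne
    tfae_have 1 ↔ 2 := h1.out 0 1
    tfae_have 1 ↔ 3 := h1.out 0 2
    tfae_have 1 ↔ 4 := h1.out 0 3
    tfae_have 1 ↔ 5 := h1.out 0 4
    tfae_have 1 ↔ 6 := (h1.out 0 5).trans (not_congr h2.symm)
    tfae_finish
  · have h1 := (powVal_lang hm h4n ha hF (Or.inr ⟨hnm, hX⟩) I' σ).2 h
    exact ((h0 σ I').out 4 0).1 h1

end Pool.Agent.N126.LQ
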