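import Pool.Agent.N126.LB

/-!
The smallest closed set over the number field `K` which contains all rational curves of a projective
variety; descent from the complex numbers to `K`.
-/

set_option autoImplicit false

namespace Pool.Agent.N126.LS

open MvPolynomial Pool.Agent.Y719.SU Pool.Agent.N126.LB
open Pool.Agent.TH143.HE (RCur nc_iff eval₂_eval eval₂_map')

variable {K : Type} [Field K] [NumberField K] {n : ℕ} {ι : Type}

/-- The ideal generated by the forms over `K` which vanish on all rational curves in `X`, over the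
finite extensions of `K`. -/
noncomputable def exc (I : Ideal (MvPolynomial (Fin (n + 1)) K)) :
    Ideal (MvPolynomial (Fin (n + 1)) K) :=
  Ideal.span {G | (∃ d, G.IsHomogeneous d) ∧ NoRatNF I (Ideal.span {G})}

omit [NumberField K] in
theorem noRat_single {A : Type} [Field A] {φ : K →+* A}
    {I : Ideal (MvPolynomial (Fin (n + 1)) K)} {G : MvPolynomial (Fin (n + 1)) K}
    {p : Fin (n + 1) → Polynomial A} (h : RCur φ I (Ideal.span {G}) p) :
    eval₂ (Polynomial.C.comp φ) p G ≠ 0 := by
  obtain ⟨-, ⟨G', hG', -, hne⟩, -⟩ := h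
  intro h0
  apply hne
  obtain ⟨c, rfl⟩ := Ideal.mem_span_singleton'.1 hG'
  rw [eval₂_mul, h0, mul_zero]

omit [NumberField K] in
theorem noRatNF_exc (I : Ideal (MvPolynomial (Fin (n + 1)) K)) : NoRatNF I (exc I) := by
  intro L _ _ _ p hp
  obtain ⟨h1, ⟨G, hG, hGf, hne⟩, hnc⟩ := hp
  apply hne
  have h2 : exc I ≤ RingHom.ker (eval₂Hom (Polynomial.C.comp (algebraMap K L)) p) := by
    unfold exc
    rw [Ideal.span_le]
    rintro H ⟨hHf, hH⟩
    by_contra h3
    exact hH L p ⟨h1, ⟨H, Ideal.mem_span_singleton_self H, hHf, h3⟩, hnc⟩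
  exact h2 hG

theorem mem_exc {I I' : Ideal (MvPolynomial (Fin (n + 1)) K)} (h : NoRatNF I I')
    {G : MvPolynomial (Fin (n + 1)) K} (hG : G ∈ I') (hGf : ∃ d, G.IsHomogeneous d) :
    G ∈ exc I := by
  refine Ideal.subset_span ⟨hGf, fun L _ _ _ p hp => h L p ?_⟩
  exact ⟨hp.1, ⟨G, hG, hGf, noRat_single hp⟩, hp.nc⟩

/-- `Z_0` is contained in `Z`, where `Z_0` and `Z` are given by the forms in `I₀` and in `I'`. -/
def Contained (σ : K →+* ℂ) (I₀ I' : Ideal (MvPolynomial (Fin (n + 1)) K)) : Prop :=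
  ∀ x : Fin (n + 1) → ℂ, x ≠ 0 → OnI σ I₀ x → OnI σ I' x

theorem noRat_iff_contained (σ : K →+* ℂ) (I I' : Ideal (MvPolynomial (Fin (n + 1)) K)) :
    NoRat σ I I' ↔ Contained σ (exc I) I' := by
  constructor
  · intro h x _ hx G hG hGf
    exact hx G (mem_exc (noRatNF_of σ h) hG hGf) hGf
  · rintro h p ⟨h1, ⟨G, hG, hGf, hne⟩, hnc⟩
    have h0 : NoRat σ I (exc I) := noRat_of_NF σ (noRatNF_exc I)
    -- a point of the curve outside of `Z`
    have hp0 : ∃ j, p j ≠ 0 := by
      by_contra hcon
      push Not at hcon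
      obtain ⟨j, k, i, i', h2⟩ := hnc
      apply h2
      rw [hcon j, hcon k]
    obtain ⟨j, hj⟩ := hp0
    have hprod : p j * eval₂ (Polynomial.C.comp σ) p G ≠ 0 := mul_ne_zero hj hne
    obtain ⟨z, hz⟩ : ∃ z, (p j * eval₂ (Polynomial.C.comp σ) p G).eval z ≠ 0 := by
      by_contra hcon
      push Not at hcon
      exact hprod (Polynomial.funext fun z => by rw [hcon z, Polynomial.eval_zero])
    rw [Polynomial.eval_mul, eval₂_eval] at hz
    refine right_ne_zero_of_mul hz (h (fun j => (p j).eval z) ?_ ?_ G hG hGf)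
    · intro hzero
      exact left_ne_zero_of_mul hz (congrFun hzero j)
    · intro H hH hHf
      rw [← eval₂_eval]
      have h3 : eval₂ (Polynomial.C.comp σ) p H = 0 := by
        by_contra h4
        exact h0 p ⟨h1, ⟨H, hH, hHf, h4⟩, hnc⟩
      rw [h3, Polynomial.eval_zero]

/-- the trace argument -/
theorem zero_of_embeddings {L : Type} [Field L] [NumberField L] [Algebra K L] (σ : K →+* ℂ)
    {r : ℕ} {c : Fin r → ℂ} (hc : ∀ a : Fin r → K, ∑ j, σ (a j) * c j = 0 → ∀ j, a j = 0)
    {z : Fin r → L} (h : ∀ τ : L →+* ℂ, τ.comp (algebraMap K L) = σ → ∑ j, c j * τ (z j) = 0)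
    (j : Fin r) : z j = 0 := by
  classical
  let _ : Algebra K ℂ := σ.toAlgebra
  have hfin : FiniteDimensional K L := FiniteDimensional.right ℚ K L
  by_contra hz
  have h1 : ∀ u : L, ∑ i, σ (Algebra.trace K L (u * z i)) * c i = 0 := by
    intro u
    have h2 : ∀ i, σ (Algebra.trace K L (u * z i)) = ∑ τ : L →ₐ[K] ℂ, τ (u * z i) := fun i =>
      trace_eq_sum_embeddings (K := K) (L := L) (E := ℂ) (x := u * z i)
    simp only [h2, Finset.sum_mul]
    rw [Finset.sum_comm]
    refine Finset.sum_eq_zero fun τ _ => ?_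
    have h3 := h (τ : L →+* ℂ) (by ext a; exact τ.commutes a)
    calc ∑ i, τ (u * z i) * c i = τ u * ∑ i, c i * τ (z i) := by
          rw [Finset.mul_sum]
          refine Finset.sum_congr rfl fun i _ => ?_
          rw [map_mul]
          ring
      _ = 0 := by
          have h4 : ∑ i, c i * τ (z i) = 0 := h3
          rw [h4, mul_zero]
  have h2 := hc _ (h1 (z j)⁻¹) j
  rw [inv_mul_cancel₀ hz, ← map_one (algebraMap K L), Algebra.trace_algebraMap] at h2
  have h3 : (Module.finrank K L : K) ≠ 0 := by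
    exact_mod_cast (Module.finrank_pos (R := K) (M := L)).ne'
  apply h3
  simpa using h2

/-- expansion of a form in a basis of the space generated by its coefficients -/
theorem expand (σ : K →+* ℂ) {P : MvPolynomial (Fin (n + 1)) ℂ} {d : ℕ} (hP : P.IsHomogeneous d) :
    ∃ (r : ℕ) (c : Fin r → ℂ) (G : Fin r → MvPolynomial (Fin (n + 1)) K),
      (∀ a : Fin r → K, ∑ j, σ (a j) * c j = 0 → ∀ j, a j = 0) ∧ (∀ j, (G j).IsHomogeneous d) ∧
      P = ∑ j, C (c j) * map σ (G j) := by
  classical
  let _ : Algebra K ℂ := σ.toAlgebra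
  let W : Submodule K ℂ := Submodule.span K (P.support.image fun m => P.coeff m)
  have hfin : FiniteDimensional K W := FiniteDimensional.span_finset K _
  let b := Module.finBasis K W
  have hmem : ∀ m, P.coeff m ∈ W := by
    intro m
    by_cases hm : m ∈ P.support
    · exact Submodule.subset_span (by simpa using ⟨m, mem_support_iff.1 hm, rfl⟩)
    · rw [notMem_support_iff.1 hm]
      exact W.zero_mem
  let G : Fin (Module.finrank K W) → MvPolynomial (Fin (n + 1)) K := fun j =>
    ∑ m ∈ P.support, monomial m (b.repr ⟨P.coeff m, hmem m⟩ j)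
  refine ⟨_, fun j => (b j : ℂ), G, fun a ha j => ?_, fun j => ?_, ?_⟩
  · have h1 : ∑ j, a j • b j = 0 := by
      apply Subtype.ext
      rw [Submodule.coe_sum, Submodule.coe_zero, ← ha]
      rfl
    exact Fintype.linearIndependent_iff.1 b.linearIndependent a h1 j
  · refine IsHomogeneous.sum _ _ _ fun m hm => ?_
    refine isHomogeneous_monomial _ ?_
    have := hP (mem_support_iff.1 hm)
    rw [← this, Finsupp.weight_apply]
    simp [Finsupp.sum, Finsupp.degree_apply]
  · have hG : ∀ j m, (G j).coeff m = if m ∈ P.support then b.repr ⟨P.coeff m, hmem m⟩ j else 0 := by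
      intro j m
      simp only [G, coeff_sum, coeff_monomial]
      rw [Finset.sum_ite_eq' P.support m]
    ext m
    rw [coeff_sum]
    simp only [coeff_C_mul, coeff_map, hG]
    by_cases hm : m ∈ P.support
    · simp only [if_pos hm]
      have h1 := b.sum_repr ⟨P.coeff m, hmem m⟩
      have h2 := congrArg (Subtype.val) h1
      rw [Submodule.coe_sum] at h2
      refine h2.symm.trans (Finset.sum_congr rfl fun j _ => ?_)
      rw [mul_comm]
      rfl
    · simp [hm, notMem_support_iff.1 hm]

/-- a nonconstant polynomial curve in `X_σ` -/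
structure PCur (σ : K →+* ℂ) (I : Ideal (MvPolynomial (Fin (n + 1)) K))
    (p : Fin (n + 1) → Polynomial ℂ) : Prop where
  mem : ∀ G ∈ I, (∃ d, G.IsHomogeneous d) → eval₂ (Polynomial.C.comp σ) p G = 0
  nc : ∃ j k i i', (p j).coeff i * (p k).coeff i' ≠ (p k).coeff i * (p j).coeff i'

/-- **Descent.** A form over the complex numbers which vanishes on all rational curves in `X_σ` is a
linear combination of such forms over `K`. -/
theorem descent (σ : K →+* ℂ) {I : Ideal (MvPolynomial (Fin (n + 1)) K)}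
    {P : MvPolynomial (Fin (n + 1)) ℂ} (hPh : ∃ d, P.IsHomogeneous d)
    (hP : ∀ p, PCur σ I p → ∀ z : ℂ, eval (fun j => (p j).eval z) P = 0)
    {M : Type} [Field M] [Algebra ℂ M] {y : Fin (n + 1) → M} (hy : aeval y P ≠ 0) :
    ∃ G ∈ exc I, (∃ d, G.IsHomogeneous d) ∧ aeval y (map σ G) ≠ 0 := by
  obtain ⟨d, hd⟩ := hPh
  obtain ⟨r, c, G, hc, hG, hPG⟩ := expand σ hd
  obtain ⟨j, hj⟩ : ∃ j, aeval y (map σ (G j)) ≠ 0 := by
    by_contra hcon
    push Not at hcon
    apply hy
    rw [hPG, map_sum]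
    refine Finset.sum_eq_zero fun j _ => ?_
    rw [map_mul, hcon j, mul_zero]
  refine ⟨G j, Ideal.subset_span ⟨⟨d, hG j⟩, ?_⟩, ⟨d, hG j⟩, hj⟩
  intro L _ _ _ p hp
  apply noRat_single hp
  have hinf : Function.Injective (fun k : ℕ => (k : L)) := Nat.cast_injective
  have hzero : ∀ k : ℕ, (eval₂ (Polynomial.C.comp (algebraMap K L)) p (G j)).eval (k : L) = 0 := by
    intro k
    refine zero_of_embeddings (L := L) σ hc
      (z := fun i => (eval₂ (Polynomial.C.comp (algebraMap K L)) p (G i)).eval (k : L))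
      (fun τ hτ => ?_) j
    have h1 : PCur σ I (fun i => (p i).map τ) := by
      have h2 := hp.map τ
      rw [hτ] at h2
      exact ⟨h2.1, h2.nc⟩
    have h2 := hP _ h1 (k : ℂ)
    rw [hPG, map_sum] at h2
    rw [← h2]
    refine Finset.sum_congr rfl fun i _ => ?_
    rw [map_mul, eval_C, eval_map]
    congr 1
    rw [← eval₂_eval, ← hτ, ← eval₂_map', ← Polynomial.eval_map_apply, map_natCast]
  by_contra hne
  exact Set.infinite_range_of_injective hinf ((Polynomial.finite_setOfPred_isRoot hne).subset (by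
    rintro _ ⟨k, rfl⟩
    exact hzero k))

end Pool.Agent.N126.LS
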