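import Pool.Agent.N126.LG
import Pool.Agent.R869.WLang

/-!
Lang's conjecture over number fields for wide systems of forms.
-/

set_option autoImplicit false

namespace Pool.Agent.N126.LW

open MvPolynomial Pool.Agent.Y719.SU Pool.Agent.N126.LB Pool.Agent.N126.LG
open Pool.Agent.R869.Wd Pool.Agent.W602.GT
open Pool.Agent.H159R3.GGLLog (SpH SpT EntireCurve TorusCurve)

variable {K : Type} [Field K] {n : ℕ} {ι : Type}

/-- All closed subvarieties of positive dimension of `X_σ` which are not of general type lie in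
`Z_σ`. Here `X` is given by the forms `F e` and `Z` by the forms in `I'`; `M` is the function field
and `y` the generic point of the subvariety. -/
def GeneralTypeOutside (σ : K →+* ℂ) (F : ι → MvPolynomial (Fin (n + 1)) K)
    (I' : Ideal (MvPolynomial (Fin (n + 1)) K)) : Prop :=
  ∀ (M : Type) [Field M] [Algebra ℂ M] (w : ℕ) (y : Fin (n + 1) → M), 1 ≤ w →
    SubVar (fun e => map σ (F e)) M w y → ¬ GeneralType ℂ M w →
      ∀ G ∈ I', (∃ d, G.IsHomogeneous d) → val y (map σ G) = 0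

theorem wide_map (σ : K →+* ℂ) {U : Set (Fin (n + 1))} {F : ι → MvPolynomial (Fin (n + 1)) K}
    {N : ℕ} (h : Wide U F N) : Wide U (fun e => map σ (F e)) N := by
  intro I r e α β hU hr hαβ
  exact h I r e α β hU hr fun l => ⟨support_map_subset _ _ (hαβ l).1,
    support_map_subset _ _ (hαβ l).2.1, (hαβ l).2.2⟩

theorem sys_map (σ : K →+* ℂ) {U : Set (Fin (n + 1))} {F : ι → MvPolynomial (Fin (n + 1)) K}
    {s N : ℕ} (h : Sys U F s N) : Sys U (fun e => map σ (F e)) s N :=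
  ⟨fun e => by
    obtain ⟨d, hd⟩ := h.form e
    exact ⟨d, hd.map σ⟩, h.pos,
    fun e => (Finset.card_le_card (support_map_subset _ _)).trans (h.card e),
    wide_map σ h.wide, h.num⟩

theorem val_map {σ : K →+* ℂ} (x : Fin (n + 1) → ℂ) (G : MvPolynomial (Fin (n + 1)) K) :
    val x (map σ G) = eval₂ σ x G := by
  unfold val
  rw [aeval_def, eval₂_map]
  rfl

theorem exists_orbit {F : ι → MvPolynomial (Fin (n + 1)) ℂ} {s N : ℕ} (hC : Sys ∅ F s N)
    {f : ℂ → Fin (n + 1) → ℂ} (hf : EntireCurve ∅ F f) {G : MvPolynomial (Fin (n + 1)) ℂ}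
    (hG : IsForm G) {z : ℂ} (hne : val (f z) G ≠ 0) :
    ∃ x b, DiagCurve ∅ F x b ∧ val x G ≠ 0 := by
  by_contra hcon
  push Not at hcon
  have hx : f z ∈ SpH ∅ F := ⟨hf.2.1 z, fun G' _ hG' => hG' f hf z⟩
  rw [(special_hol hC).1] at hx
  exact hne (hx.2 G hG fun x' b hd => hcon x' b hd)

theorem entire_map (σ : K →+* ℂ) {F : ι → MvPolynomial (Fin (n + 1)) K}
    (hF : ∀ e, ∃ d, (F e).IsHomogeneous d) {f : ℂ → Fin (n + 1) → ℂ} (hf : Differentiable ℂ f)
    (hf0 : ∀ z, f z ≠ 0) (hfI : ∀ z, OnI σ (idl F) (f z)) (hnc : ∃ z w, ∀ c : ℂ, f z ≠ c • f w) :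
    EntireCurve ∅ (fun e => map σ (F e)) f :=
  ⟨hf, fun z => ⟨hf0 z, fun j hj => absurd hj (Set.notMem_empty j), fun e => by
    rw [eval_map]
    exact (onI_idl σ hF _).1 (hfI z) e⟩, hnc⟩

theorem not_geometric_of_orbit [NumberField K] (σ : K →+* ℂ)
    {F : ι → MvPolynomial (Fin (n + 1)) K} (hF : ∀ e, ∃ d, (F e).IsHomogeneous d)
    {I' : Ideal (MvPolynomial (Fin (n + 1)) K)} {G : MvPolynomial (Fin (n + 1)) K} (hG : G ∈ I')
    (hGf : ∃ d, G.IsHomogeneous d) {x : Fin (n + 1) → ℂ} {b : Fin (n + 1) → ℤ}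
    (hd : DiagCurve ∅ (fun e => map σ (F e)) x b) (hx : val x (map σ G) ≠ 0) :
    ¬ GeometricFinite (idl F) I' := by
  obtain ⟨hX, i, i', hi, hi', hb⟩ := hd
  refine not_geometric σ hF (x := x) (b := b) (fun t ht e => ?_) hi hi' hb hG hGf ?_
  · have h1 := (hX t ht).2.2 e
    rwa [val_map] at h1
  · rwa [val_map] at hx

theorem hyperbolic_of_geometric [NumberField K] (σ : K →+* ℂ)
    {F : ι → MvPolynomial (Fin (n + 1)) K} (hF : ∀ e, ∃ d, (F e).IsHomogeneous d) {s N : ℕ}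
    (hC : Sys ∅ (fun e => map σ (F e)) s N)
    {I' : Ideal (MvPolynomial (Fin (n + 1)) K)} (h : GeometricFinite (idl F) I') :
    Hyperbolic σ (idl F) I' := by
  intro f hf hf0 hfI hnc z G hG hGf
  by_contra hne
  obtain ⟨d, hd⟩ := hGf
  obtain ⟨x, b, hxb, hx⟩ := exists_orbit hC (entire_map σ hF hf hf0 hfI hnc)
    (G := map σ G) (z := z) ⟨d, hd.map σ⟩ (by rwa [val_map])
  exact not_geometric_of_orbit σ hF hG ⟨d, hd⟩ hxb hx h

theorem general_of_geometric [NumberField K] (σ : K →+* ℂ)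
    {F : ι → MvPolynomial (Fin (n + 1)) K} (hF : ∀ e, ∃ d, (F e).IsHomogeneous d) {s N : ℕ}
    (hC : Sys ∅ (fun e => map σ (F e)) s N)
    {I' : Ideal (MvPolynomial (Fin (n + 1)) K)} (h : GeometricFinite (idl F) I') :
    GeneralTypeOutside σ F I' := by
  intro M _ _ w y hw hy hgt G hG hGf
  by_contra hne
  obtain ⟨x, b, hxb, hx⟩ := closure_orbits hC hw (subVar_iff.2 hy)
    (fun h => hgt ((general_iff y).1 h)) hne
  exact not_geometric_of_orbit σ hF hG hGf hxb hx h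

theorem hyperbolic_of_general (σ : K →+* ℂ)
    {F : ι → MvPolynomial (Fin (n + 1)) K} (hF : ∀ e, ∃ d, (F e).IsHomogeneous d) {s N : ℕ}
    (hC : Sys ∅ (fun e => map σ (F e)) s N)
    {I' : Ideal (MvPolynomial (Fin (n + 1)) K)} (h : GeneralTypeOutside σ F I') :
    ∀ f : ℂ → Fin (n + 1) → ℂ, Differentiable ℂ f → (∀ z, f z ≠ 0) →
      (∀ z, OnI σ (idl F) (f z)) → (∃ z w, ∀ c : ℂ, f z ≠ c • f w) → ∀ z, OnI σ I' (f z) := by
  intro f hf hf0 hfI hnc z G hG hGf
  have hE := entire_map σ hF hf hf0 hfI hnc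
  have hx : f z ∈ SpH ∅ (fun e => map σ (F e)) := ⟨hE.2.1 z, fun G' _ hG' => hG' f hE z⟩
  rw [(special_hol hC).1, ← (special_orb hC).1] at hx
  obtain ⟨d, hd⟩ := hGf
  rw [← val_map]
  exact hx.2 (map σ G) ⟨d, hd.map σ⟩ fun M _ _ w y hw hy hgt => h M w y hw hy hgt G hG ⟨d, hd⟩

/-- **Lang's equivalence for wide systems.** -/
theorem wide_lang [NumberField K] (σ : K →+* ℂ) {F : ι → MvPolynomial (Fin (n + 1)) K}
    (hF : ∀ e, ∃ d, (F e).IsHomogeneous d) {s N : ℕ} (hC : Sys ∅ (fun e => map σ (F e)) s N)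
    (I' : Ideal (MvPolynomial (Fin (n + 1)) K)) :
    [Hyperbolic σ (idl F) I', NoRat σ (idl F) I', GeneralTypeOutside σ F I',
      HtBound (idl F) I', FinBound (idl F) I', GeometricFinite (idl F) I'].TFAE ∧
    (Finiteness (idl F) I' → Hyperbolic σ (idl F) I') := by
  obtain ⟨hm, h1, h2⟩ := main σ (idl F) I'
  have h0 : [Hyperbolic σ (idl F) I', NoRat σ (idl F) I', GeneralTypeOutside σ F I',
      HtBound (idl F) I', FinBound (idl F) I', GeometricFinite (idl F) I'].TFAE := by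
    tfae_have 1 → 4 := h1
    tfae_have 2 ↔ 4 := hm.out 0 3
    tfae_have 2 ↔ 5 := hm.out 0 4
    tfae_have 2 → 6 := fun h => geometric_of_noRat ((hm.out 0 2).1 h)
    tfae_have 6 → 1 := hyperbolic_of_geometric σ hF hC
    tfae_have 6 → 3 := general_of_geometric σ hF hC
    tfae_have 3 → 1 := hyperbolic_of_general σ hF hC
    tfae_finish
  exact ⟨h0, fun h' => (h0.out 0 3).2 (h2 h')⟩

end Pool.Agent.N126.LW
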