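import Pool.Agent.N126.LS
import Pool.Agent.N126.LW

/-!
The components of projective varieties over number fields and the smallest closed set which contains
the rational curves.
-/

set_option autoImplicit false

namespace Pool.Agent.N126.LT

open MvPolynomial Pool.Agent.Y719.SU Pool.Agent.N126.LB Pool.Agent.N126.LG Pool.Agent.N126.LW
open Pool.Agent.N126.LS
open Pool.Agent.R869.Wd Pool.Agent.W602.GT
open Pool.Agent.TH143.HE (nc_iff eval₂_eval eval₂_smul_homog)

variable {K : Type} [Field K] {n : ℕ} {ι : Type}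

/-- division by the common zeros -/
theorem reduce {p : Fin (n + 1) → Polynomial ℂ} (hp : p ≠ 0) :
    ∃ (g : Polynomial ℂ) (q : Fin (n + 1) → Polynomial ℂ), g ≠ 0 ∧ (p = fun j => g * q j) ∧
      ∀ z : ℂ, (fun j => (q j).eval z) ≠ 0 := by
  classical
  obtain ⟨j0, hj0⟩ := Function.ne_iff.1 hp
  have hj0' : p j0 ≠ 0 := hj0
  obtain ⟨g, hg⟩ := (IsPrincipalIdealRing.principal (Ideal.span (Set.range p))).principal
  have hg' : Ideal.span (Set.range p) = Ideal.span {g} := hg
  have hdvd : ∀ j, g ∣ p j := by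
    intro j
    rw [← Ideal.mem_span_singleton, ← hg']
    exact Ideal.subset_span ⟨j, rfl⟩
  choose q hq using hdvd
  have hg0 : g ≠ 0 := by
    intro h0
    apply hj0'
    rw [hq j0, h0, zero_mul]
  obtain ⟨c, hc⟩ : ∃ c : Fin (n + 1) → Polynomial ℂ, ∑ j, c j * p j = g := by
    have h2 : g ∈ Ideal.span (Set.range p) := by
      rw [hg']
      exact Ideal.mem_span_singleton_self g
    obtain ⟨c, hc⟩ := (Ideal.mem_span_range_iff_exists_fun).1 h2
    exact ⟨c, hc⟩
  have hone : ∑ j, c j * q j = 1 := by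
    apply mul_left_cancel₀ hg0
    rw [Finset.mul_sum, mul_one]
    conv_rhs => rw [← hc]
    refine Finset.sum_congr rfl fun j _ => ?_
    conv_rhs => rw [hq j]
    ring
  refine ⟨g, q, hg0, funext hq, fun z h0 => ?_⟩
  have h4 := congrArg (Polynomial.eval z) hone
  rw [Polynomial.eval_finsetSum, Polynomial.eval_one] at h4
  apply zero_ne_one (α := ℂ)
  rw [← h4]
  symm
  refine Finset.sum_eq_zero fun j _ => ?_
  rw [Polynomial.eval_mul]
  have h5 : (q j).eval z = 0 := congrFun h0 j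
  rw [h5, mul_zero]

/-- All nonconstant polynomial curves in `V` lie in a hypersurface which does not contain `V`. -/
def CurvesIn {M : Type} [Field M] [Algebra ℂ M] (y : Fin (n + 1) → M) : Prop :=
  ∃ G : MvPolynomial (Fin (n + 1)) ℂ, (∃ d, G.IsHomogeneous d) ∧ aeval y G ≠ 0 ∧
    ∀ q : Fin (n + 1) → Polynomial ℂ, (∀ z : ℂ, (fun j => (q j).eval z) ∈ VarPts ℂ y) →
      (∃ z w : ℂ, ∀ c : ℂ, (fun j => (q j).eval z) ≠ c • fun j => (q j).eval w) →
        ∀ z : ℂ, eval (fun j => (q j).eval z) G = 0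

theorem ev_poly (q : Fin (n + 1) → Polynomial ℂ) (G : MvPolynomial (Fin (n + 1)) ℂ) (z : ℂ) :
    (eval₂ Polynomial.C q G).eval z = eval (fun j => (q j).eval z) G := by
  have h := eval₂_eval (RingHom.id ℂ) q G z
  rw [RingHom.comp_id] at h
  exact h

theorem vanish {σ : K →+* ℂ} {F : ι → MvPolynomial (Fin (n + 1)) K}
    (hF : ∀ e, ∃ d, (F e).IsHomogeneous d) {M : Type} [Field M] [Algebra ℂ M]
    {y : Fin (n + 1) → M} (hcomp : IsComponent (fun e => map σ (F e)) y) (hB : CurvesIn y) :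
    ∃ P : MvPolynomial (Fin (n + 1)) ℂ, (∃ d, P.IsHomogeneous d) ∧ aeval y P ≠ 0 ∧
      ∀ p, PCur σ (idl F) p → ∀ z : ℂ, eval (fun j => (p j).eval z) P = 0 := by
  obtain ⟨H, ⟨dH, hH⟩, hHy, hcone⟩ := hcomp
  obtain ⟨G, ⟨dG, hG⟩, hGy, hcur⟩ := hB
  refine ⟨G * H, ⟨dG + dH, hG.mul hH⟩, ?_, fun p hp => ?_⟩
  · rw [map_mul]
    exact mul_ne_zero hGy hHy
  have hp0 : p ≠ 0 := by
    rintro rfl
    obtain ⟨j, k, i, i', h2⟩ := hp.nc
    exact h2 rfl
  obtain ⟨g, q, hg, hpq, hq0⟩ := reduce hp0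
  have hFq : ∀ e, eval₂ (Polynomial.C.comp σ) q (F e) = 0 := by
    intro e
    obtain ⟨d, hd⟩ := hF e
    have h1 := hp.mem (F e) (Ideal.subset_span ⟨e, rfl⟩) ⟨d, hd⟩
    rw [hpq, eval₂_smul_homog _ g q hd] at h1
    exact (mul_eq_zero.1 h1).resolve_left (pow_ne_zero _ hg)
  have hzero : eval₂ Polynomial.C q G * eval₂ Polynomial.C q H = 0 := by
    by_cases hHq : eval₂ Polynomial.C q H = 0
    · rw [hHq, mul_zero]
    have hV : ∀ z : ℂ, (fun j => (q j).eval z) ∈ VarPts ℂ y := by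
      intro z
      refine ⟨hq0 z, fun G' hG' hG'y => ?_⟩
      have h1 : eval₂ Polynomial.C q G' = 0 := by
        refine (mul_eq_zero.1 (?_ : eval₂ Polynomial.C q G' * eval₂ Polynomial.C q H = 0)
          ).resolve_right hHq
        apply Polynomial.funext
        intro u
        rw [Polynomial.eval_mul, Polynomial.eval_zero]
        by_cases hu : (eval₂ Polynomial.C q H).eval u = 0
        · rw [hu, mul_zero]
        · have h2 : (fun j => (q j).eval u) ∈ VarPts ℂ y := by
            refine hcone _ ⟨hq0 u, fun e => ?_⟩ ?_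
            · rw [LW.val_map, ← eval₂_eval, hFq e, Polynomial.eval_zero]
            · rw [ev_poly] at hu
              exact hu
          have h3 := h2.2 G' hG' hG'y
          rw [ev_poly]
          have h4 : eval (fun j => (q j).eval u) G' = 0 := h3
          rw [h4, zero_mul]
      have h2 := congrArg (Polynomial.eval z) h1
      rw [ev_poly, Polynomial.eval_zero] at h2
      exact h2
    have hnc : ∃ z w : ℂ, ∀ c : ℂ, (fun j => (q j).eval z) ≠ c • fun j => (q j).eval w := by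
      by_contra hcon
      push Not at hcon
      obtain ⟨j, k, u, v, h4⟩ := (nc_iff p).1 hp.nc
      apply h4
      obtain ⟨a, ha⟩ := hcon u v
      have h5 : ∀ j, (q j).eval u = a * (q j).eval v := fun j => congrFun ha j
      rw [hpq]
      simp only [Polynomial.eval_mul]
      rw [h5 j, h5 k]
      ring
    have h1 : eval₂ Polynomial.C q G = 0 := by
      apply Polynomial.funext
      intro z
      rw [ev_poly, Polynomial.eval_zero]
      exact hcur q hV hnc z
    rw [h1, zero_mul]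
  intro z
  have h1 : eval₂ Polynomial.C p (G * H) = 0 := by
    have h2 : eval₂ (Polynomial.C.comp (RingHom.id ℂ)) p (G * H) = 0 := by
      rw [hpq, eval₂_smul_homog _ g q (hG.mul hH), RingHom.comp_id, eval₂_mul, hzero, mul_zero]
    rwa [RingHom.comp_id] at h2
  rw [← ev_poly, h1, Polynomial.eval_zero]

/-- components on which all rational curves lie in a hypersurface are not contained in `Z_0` -/
theorem not_contained [NumberField K] {σ : K →+* ℂ} {F : ι → MvPolynomial (Fin (n + 1)) K}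
    (hF : ∀ e, ∃ d, (F e).IsHomogeneous d) {M : Type} [Field M] [Algebra ℂ M]
    {y : Fin (n + 1) → M} (hcomp : IsComponent (fun e => map σ (F e)) y) (hB : CurvesIn y) :
    ∃ G ∈ exc (idl F), (∃ d, G.IsHomogeneous d) ∧ aeval y (map σ G) ≠ 0 := by
  obtain ⟨P, h1, h2, h3⟩ := vanish hF hcomp hB
  exact descent σ h1 h3 h2

theorem curvesIn_of_brodyV {M : Type} [Field M] [Algebra ℂ M] {y : Fin (n + 1) → M}
    (h : BrodyV ∅ y) : CurvesIn y := by
  obtain ⟨G, h1, h2, h3⟩ := h
  refine ⟨G, h1, h2, fun q hq hnc => h3 (fun z j => (q j).eval z)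
    (differentiable_pi.2 fun j => (q j).differentiable) (fun z => ⟨hq z, fun j hj =>
      absurd hj (Set.notMem_empty j)⟩) hnc⟩

/-- **Components of wide varieties.** -/
theorem wide_comp [Finite ι] [NumberField K] (σ : K →+* ℂ)
    {F : ι → MvPolynomial (Fin (n + 1)) K} (hF : ∀ e, ∃ d, (F e).IsHomogeneous d) {s N : ℕ}
    (hC : Sys ∅ (fun e => map σ (F e)) s N) {M : Type} [Field M] [Algebra ℂ M] {w : ℕ}
    {y : Fin (n + 1) → M} (hw : 1 ≤ w) (hy : SubVar (fun e => map σ (F e)) M w y)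
    (hcomp : IsComponent (fun e => map σ (F e)) y) :
    [GeneralType ℂ M w, ∃ G ∈ exc (idl F), (∃ d, G.IsHomogeneous d) ∧ val y (map σ G) ≠ 0,
      ¬ Ruled ℂ M, Psef ℂ M w (fun _ => False),
      ∀ b : Fin (n + 1) → ℤ, Acts ∅ ℂ y b → ∀ i i', y i ≠ 0 → y i' ≠ 0 → b i = b i'].TFAE := by
  have h1 := general_or_ruled hC hw hy hcomp
  have h2 := four_comp hC hw (subVar_iff.2 hy) (componentU_of hcomp)
  tfae_have 1 ↔ 3 := h1.out 0 1
  tfae_have 1 ↔ 4 := h1.out 0 2
  tfae_have 1 ↔ 5 := h1.out 0 3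
  tfae_have 1 → 2 := by
    intro h
    have h3 : LogGeneralType ℂ M w (OffU ∅ y) ↔ BrodyV ∅ y := h2.out 0 2
    exact not_contained hF hcomp (curvesIn_of_brodyV (h3.1 ((general_iff y).2 h)))
  tfae_have 2 → 1 := by
    rintro ⟨G, hG, hGf, hne⟩
    by_contra hgt
    obtain ⟨x, b, hxb, hx⟩ := closure_orbits hC hw (subVar_iff.2 hy)
      (fun h => hgt ((general_iff y).1 h)) hne
    exact not_geometric_of_orbit σ hF hG hGf hxb hx (geometric_of_noRat (noRatNF_exc _))
  tfae_finish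

/-- **The strong conjecture for wide systems.** -/
theorem strong_wide [Finite ι] [NumberField K] {F : ι → MvPolynomial (Fin (n + 1)) K}
    (hF : ∀ e, ∃ d, (F e).IsHomogeneous d) {s N : ℕ} (hC : Sys ∅ F s N) :
    ∃ I₀ : Ideal (MvPolynomial (Fin (n + 1)) K), idl F ≤ I₀ ∧
      (∀ (σ : K →+* ℂ) (M : Type) [Field M] [Algebra ℂ M] (w : ℕ) (y : Fin (n + 1) → M), 1 ≤ w →
        SubVar (fun e => map σ (F e)) M w y → IsComponent (fun e => map σ (F e)) y →
          [GeneralType ℂ M w, ∃ G ∈ I₀, IsForm G ∧ val y (map σ G) ≠ 0, ¬ Ruled ℂ M,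
            Psef ℂ M w (fun _ => False),
            ∀ b : Fin (n + 1) → ℤ, Acts ∅ ℂ y b → ∀ i i', y i ≠ 0 → y i' ≠ 0 →
              b i = b i'].TFAE) ∧
      (∀ (σ : K →+* ℂ) (I' : Ideal (MvPolynomial (Fin (n + 1)) K)), [Contained σ I₀ I',
        HtBound (idl F) I', FinBound (idl F) I', GeometricFinite (idl F) I',
        Hyperbolic σ (idl F) I', NoRat σ (idl F) I', GeneralTypeOutside σ F I'].TFAE) ∧
      ∀ (σ : K →+* ℂ) (I' : Ideal (MvPolynomial (Fin (n + 1)) K)),
        Finiteness (idl F) I' → Contained σ I₀ I' := by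
  have h0 : ∀ (σ : K →+* ℂ) (I' : Ideal (MvPolynomial (Fin (n + 1)) K)),
      [Contained σ (exc (idl F)) I',
        HtBound (idl F) I', FinBound (idl F) I', GeometricFinite (idl F) I',
        Hyperbolic σ (idl F) I', NoRat σ (idl F) I', GeneralTypeOutside σ F I'].TFAE := by
    intro σ I'
    have h1 := (wide_lang σ hF (sys_map σ hC) I').1
    tfae_have 5 ↔ 6 := h1.out 0 1
    tfae_have 5 ↔ 7 := h1.out 0 2
    tfae_have 5 ↔ 2 := h1.out 0 3
    tfae_have 5 ↔ 3 := h1.out 0 4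
    tfae_have 5 ↔ 4 := h1.out 0 5
    tfae_have 6 ↔ 1 := noRat_iff_contained σ _ I'
    tfae_finish
  refine ⟨exc (idl F), ?_, fun σ M _ _ w y hw hy hcomp => wide_comp σ hF (sys_map σ hC) hw hy hcomp,
    h0, fun σ I' h => ?_⟩
  · unfold idl
    rw [Ideal.span_le]
    rintro _ ⟨e, rfl⟩
    refine Ideal.subset_span ⟨hF e, fun L _ _ _ p hp => ?_⟩
    exact noRat_single hp (hp.zero (F e) (Ideal.subset_span ⟨e, rfl⟩) (hF e))
  · have h1 := (wide_lang σ hF (sys_map σ hC) I').2 h
    exact ((h0 σ I').out 4 0).1 h1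

end Pool.Agent.N126.LT
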