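import Pool.Agent.N126.LQ
import Pool.Agent.TH710.ND.Lang
import Pool.Agent.TH710.NW.Mono3
import Pool.Agent.TH710.NW.Lgt

/-!
The strong conjecture of Lang for the varieties given by nested sums of high powers of linear forms
or of monomials.
-/

set_option autoImplicit false

namespace Pool.Agent.N126.ND

open MvPolynomial Pool.Agent.Y719.SU Pool.Agent.N126.LB Pool.Agent.N126.LS Pool.Agent.N126.LT
open Pool.Agent.TH710.ND
open Pool.Agent.W602.GT (VarPts IsForm IsComponent SubVar GeneralType KodGe Psef Ruled coords Line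
  GmCurve SpAlg SpGm Cone wc IsComponentU SubVarU)
open Pool.Agent.W602.GT (val)
open Pool.Agent.N126.LQ (vanC cone_van)
open Pool.Agent.TH143.HE (RCur nc_iff)

section maps

variable {k k' : Type} [Field k] [Field k'] {n : ℕ} {ι : Type}

theorem gate_map (σ : k →+* k') {Lf : MvPolynomial (Fin (n + 1)) k → Prop}
    {Lf' : MvPolynomial (Fin (n + 1)) k' → Prop} (h : ∀ p, Lf p → Lf' (map σ p))
    {L : List (ℕ × ℕ)} : ∀ {p : MvPolynomial (Fin (n + 1)) k}, GateL Lf L p →
      GateL Lf' L (map σ p) := by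
  induction L with
  | nil => exact fun {p} hp => h p hp
  | cons ke L ih =>
    rintro p ⟨c, g, hg, rfl⟩
    refine ⟨fun i => σ (c i), fun i => map σ (g i), fun i => ih (hg i), ?_⟩
    rw [map_sum]
    exact Finset.sum_congr rfl fun i _ => by rw [map_mul, map_C, map_pow]

theorem nested_map (σ : k →+* k') {Lf : MvPolynomial (Fin (n + 1)) k → Prop}
    {Lf' : MvPolynomial (Fin (n + 1)) k' → Prop} (hL : ∀ p, Lf p → Lf' (map σ p)) {s N h : ℕ}
    {F : MvPolynomial (Fin (n + 1)) k} (hF : NestedIn Lf s N h F) :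
    NestedIn Lf' s N h (map σ F) := by
  obtain ⟨r, e, L, c, g, h1, h2, h3, h4, h5, rfl⟩ := hF
  refine ⟨r, e, L, fun i => σ (c i), fun i => map σ (g i), h1, h2, h3, h4,
    fun i => gate_map σ hL (h5 i), ?_⟩
  rw [map_sum]
  exact Finset.sum_congr rfl fun i _ => by rw [map_mul, map_C, map_pow]

theorem towers_map (σ : k →+* k') {s N h : ℕ} {F : ι → MvPolynomial (Fin (n + 1)) k}
    (hF : HighTowers s N h F) : HighTowers s N h (fun e => map σ (F e)) := by
  rcases hF with hF | hF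
  · refine Or.inl fun e => nested_map (Lf := IsLin) (Lf' := IsLin) σ ?_ (hF e)
    rintro p ⟨a, rfl⟩
    refine ⟨fun j => σ (a j), ?_⟩
    rw [map_sum]
    exact Finset.sum_congr rfl fun i _ => by rw [map_mul, map_C, map_X]
  · refine Or.inr fun e => ⟨?_, nested_map (Lf := IsMono) (Lf' := IsMono) σ ?_ (hF e).2⟩
    · obtain ⟨d, hd⟩ := (hF e).1
      exact ⟨d, hd.map σ⟩
    · rintro p ⟨α, a, rfl⟩
      exact ⟨α, σ a, by rw [map_monomial]⟩

end maps

variable {K : Type} [Field K] {n : ℕ} {ι : Type}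

/-- a morphism from the multiplicative group to `X` which is not in `Z` is a rational curve -/
theorem rcur_of_gm (σ : K →+* ℂ) {F : ι → MvPolynomial (Fin (n + 1)) K}
    (hF : ∀ e, ∃ d, (F e).IsHomogeneous d) {I' : Ideal (MvPolynomial (Fin (n + 1)) K)}
    {P : Fin (n + 1) → Polynomial ℂ} (hP : GmCurve (fun e => map σ (F e)) P)
    {G : MvPolynomial (Fin (n + 1)) K} (hG : G ∈ I') (hGf : ∃ d, G.IsHomogeneous d) {t : ℂ}
    (hne : val (fun i => (P i).eval t) (map σ G) ≠ 0) : RCur σ (idl F) I' P := by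
  refine ⟨fun H hH hHf => ?_, ⟨G, hG, hGf, fun h0 => hne ?_⟩, ?_⟩
  · have h1 : ∀ a : ℂ, a ≠ 0 → (eval₂ (Polynomial.C.comp σ) P H).eval a = 0 := by
      intro a ha
      rw [Pool.Agent.TH143.HE.eval₂_eval]
      refine (onI_idl σ hF _).2 (fun e => ?_) H hH hHf
      have h3 := hP.mem a ha e
      rwa [LW.val_map] at h3
    by_contra hne0
    have h2 := Polynomial.finite_setOfPred_isRoot hne0
    have h3 : ({0}ᶜ : Set ℂ) ⊆ {x | (eval₂ (Polynomial.C.comp σ) P H).IsRoot x} := fun a ha =>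
      h1 a ha
    exact (Set.finite_singleton (0 : ℂ)).infinite_compl (h2.subset h3)
  · rw [LW.val_map, ← Pool.Agent.TH143.HE.eval₂_eval, h0, Polynomial.eval_zero]
  · rw [nc_iff]
    obtain ⟨a, b, -, -, hab⟩ := hP.nonconst
    obtain ⟨j, k, hjk⟩ := Pool.Agent.N126.LN.minor_of_li hab
    exact ⟨j, k, a, b, fun h => hjk (by linear_combination h)⟩

/-- a rational curve which is not in `Z` is a morphism from the multiplicative group -/
theorem gm_of_rcur (σ : K →+* ℂ) {F : ι → MvPolynomial (Fin (n + 1)) K}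
    (hF : ∀ e, ∃ d, (F e).IsHomogeneous d) {I' : Ideal (MvPolynomial (Fin (n + 1)) K)}
    {p : Fin (n + 1) → Polynomial ℂ} (hp : RCur σ (idl F) I' p) :
    ∃ P, GmCurve (fun e => map σ (F e)) P ∧ ∃ G ∈ I', (∃ d, G.IsHomogeneous d) ∧
      ∃ t : ℂ, t ≠ 0 ∧ val (fun i => (P i).eval t) (map σ G) ≠ 0 := by
  have hp0 : p ≠ 0 := by
    rintro rfl
    obtain ⟨j, k, i, i', h2⟩ := hp.nc
    exact h2 rfl
  obtain ⟨g, q, hg, hpq, hq0⟩ := reduce hp0
  obtain ⟨G, hG, hGf, hne⟩ := hp.ne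
  refine ⟨q, ⟨fun t _ => hq0 t, fun t _ e => ?_, ?_⟩, G, hG, hGf, ?_⟩
  · obtain ⟨d, hd⟩ := hF e
    have h1 := hp.zero (F e) (Ideal.subset_span ⟨e, rfl⟩) ⟨d, hd⟩
    rw [hpq, Pool.Agent.TH143.HE.eval₂_smul_homog _ g q hd] at h1
    have h2 := (mul_eq_zero.1 h1).resolve_left (pow_ne_zero _ hg)
    rw [LW.val_map, ← Pool.Agent.TH143.HE.eval₂_eval, h2, Polynomial.eval_zero]
  · obtain ⟨j, k, u, v, h4⟩ := (nc_iff p).1 hp.nc
    have h5 : q j * (Polynomial.C ((q k).eval v)) - q k * Polynomial.C ((q j).eval v) ≠ 0 := by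
      intro h0
      apply h4
      have h6 := congrArg (Polynomial.eval u) h0
      simp only [Polynomial.eval_sub, Polynomial.eval_mul, Polynomial.eval_C,
        Polynomial.eval_zero] at h6
      rw [hpq]
      simp only [Polynomial.eval_mul]
      linear_combination (g.eval u * g.eval v) * h6
    obtain ⟨t, ht⟩ : ∃ t : ℂ, (Polynomial.X * (q j * (Polynomial.C ((q k).eval v)) -
        q k * Polynomial.C ((q j).eval v))).eval t ≠ 0 := by
      by_contra hcon
      push Not at hcon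
      exact mul_ne_zero Polynomial.X_ne_zero h5
        (Polynomial.funext fun z => by rw [hcon z, Polynomial.eval_zero])
    rw [Polynomial.eval_mul, Polynomial.eval_X] at ht
    have ht0 := left_ne_zero_of_mul ht
    have ht1 := right_ne_zero_of_mul ht
    simp only [Polynomial.eval_sub, Polynomial.eval_mul, Polynomial.eval_C] at ht1
    have h6 : q j * (Polynomial.C ((q k).eval t)) - q k * Polynomial.C ((q j).eval t) ≠ 0 := by
      intro h0
      apply ht1
      have h6 := congrArg (Polynomial.eval v) h0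
      simp only [Polynomial.eval_sub, Polynomial.eval_mul, Polynomial.eval_C,
        Polynomial.eval_zero] at h6
      linear_combination -h6
    obtain ⟨s, hs⟩ : ∃ s : ℂ, (Polynomial.X * (q j * (Polynomial.C ((q k).eval t)) -
        q k * Polynomial.C ((q j).eval t))).eval s ≠ 0 := by
      by_contra hcon
      push Not at hcon
      exact mul_ne_zero Polynomial.X_ne_zero h6
        (Polynomial.funext fun z => by rw [hcon z, Polynomial.eval_zero])
    rw [Polynomial.eval_mul, Polynomial.eval_X] at hs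
    refine ⟨s, t, left_ne_zero_of_mul hs, ht0, ?_⟩
    have hs1 := right_ne_zero_of_mul hs
    simp only [Polynomial.eval_sub, Polynomial.eval_mul, Polynomial.eval_C] at hs1
    exact Pool.Agent.H159R3.Lang.li_of_minor _ _ j k hs1
  · obtain ⟨d, hd⟩ := hGf
    rw [hpq, Pool.Agent.TH143.HE.eval₂_smul_homog _ g q hd] at hne
    have h2 := right_ne_zero_of_mul hne
    obtain ⟨t, ht⟩ : ∃ t : ℂ, (Polynomial.X * eval₂ (Polynomial.C.comp σ) q G).eval t ≠ 0 := by
      by_contra hcon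
      push Not at hcon
      exact mul_ne_zero Polynomial.X_ne_zero h2
        (Polynomial.funext fun z => by rw [hcon z, Polynomial.eval_zero])
    rw [Polynomial.eval_mul, Polynomial.eval_X] at ht
    refine ⟨t, left_ne_zero_of_mul ht, ?_⟩
    rw [LW.val_map, ← Pool.Agent.TH143.HE.eval₂_eval]
    exact right_ne_zero_of_mul ht

/-- lines through the general points of a component -/
theorem line_comp {F : ι → MvPolynomial (Fin (n + 1)) ℂ} {M : Type} [Field M] [Algebra ℂ M]
    {y : Fin (n + 1) → M} {H : MvPolynomial (Fin (n + 1)) ℂ}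
    (hcone : ∀ x ∈ Cone F, val x H ≠ 0 → x ∈ VarPts ℂ y) {a b : Fin (n + 1) → ℂ}
    (hab : Line F a b) (ha : val a H ≠ 0) : Line (vanC y) a b := by
  refine ⟨hab.1, fun c c' P => ?_⟩
  have ha0 : a ≠ 0 := by
    intro h0
    have h1 := LinearIndependent.pair_iff.1 hab.1 1 0 (by rw [h0, smul_zero, zero_smul, add_zero])
    exact one_ne_zero h1.1
  obtain ⟨j, hj⟩ := Function.ne_iff.1 ha0
  have hj' : a j ≠ 0 := hj
  let q : Fin (n + 1) → Polynomial ℂ := fun i =>
    Polynomial.C (a i) + Polynomial.X * Polynomial.C ((c - 1) * a i + c' * b i)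
  have hq : ∀ z : ℂ, (fun i => (q i).eval z) = (1 + z * (c - 1)) • a + (z * c') • b := by
    intro z
    funext i
    simp only [q, Polynomial.eval_add, Polynomial.eval_mul, Polynomial.eval_C, Polynomial.eval_X,
      Pi.add_apply, Pi.smul_apply, smul_eq_mul]
    ring
  have h1 : eval₂ Polynomial.C q P.1 * (eval₂ Polynomial.C q H * q j) = 0 := by
    apply Polynomial.funext
    intro z
    rw [Polynomial.eval_mul, Polynomial.eval_mul, Polynomial.eval_zero, ev_poly, ev_poly]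
    by_cases h2 : eval (fun i => (q i).eval z) H * (q j).eval z = 0
    · rw [h2, mul_zero]
    · have hx : (fun i => (q i).eval z) ∈ VarPts ℂ y := by
        refine hcone _ ⟨fun h0 => right_ne_zero_of_mul h2 (congrFun h0 j), fun e => ?_⟩
          (left_ne_zero_of_mul h2)
        rw [hq]
        exact hab.2 _ _ e
      have h3 := hx.2 P.1 P.2.1 P.2.2
      have h4 : eval (fun i => (q i).eval z) P.1 = 0 := h3
      rw [h4, zero_mul]
  have h0 : (fun i => (q i).eval 0) = a := by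
    rw [hq]
    simp
  have h2 : eval₂ Polynomial.C q H * q j ≠ 0 := by
    refine mul_ne_zero (fun h => ha ?_) (fun h => hj' ?_)
    · have h4 := congrArg (Polynomial.eval 0) h
      rw [ev_poly, h0, Polynomial.eval_zero] at h4
      exact h4
    · have h4 := congrArg (Polynomial.eval 0) h
      rw [Polynomial.eval_zero] at h4
      exact (congrFun h0 j).symm.trans h4
  have h3 := congrArg (Polynomial.eval 1) ((mul_eq_zero.1 h1).resolve_right h2)
  rw [ev_poly, hq, Polynomial.eval_zero] at h3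
  have h4 : (1 + 1 * (c - 1)) • a + (1 * c') • b = c • a + c' • b := by
    congr 2 <;> ring
  rw [h4] at h3
  exact h3

theorem lineIn_iff {F : ι → MvPolynomial (Fin (n + 1)) ℂ} {a b : Fin (n + 1) → ℂ} :
    Pool.Agent.H159R3.War.LineIn F a b ↔ Line F a b :=
  ⟨fun h => ⟨h.1, fun c c' i => h.2 i c c'⟩, fun h => ⟨h.1, fun i s t => h.2 s t i⟩⟩

/-- **Components covered by entire curves, sums of powers of linear forms.** -/
theorem brody_lin {F : ι → MvPolynomial (Fin (n + 1)) ℂ} (hF : ∀ e, Pool.Agent.TH710.NW.Stab (F e))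
    {M : Type} [Field M] [Algebra ℂ M] {w : ℕ} {y : Fin (n + 1) → M} (hy : SubVar F M w y)
    (hcomp : IsComponent F y) (hgt : GeneralType ℂ M w) : Pool.Agent.R869.Wd.BrodyV ∅ y := by
  classical
  by_contra hC
  obtain ⟨H, hH, hHy, hcone⟩ := hcomp
  -- a dense set of points on lines
  have hdense : ∀ G : MvPolynomial (Fin (n + 1)) ℂ, IsForm G → val y G ≠ 0 →
      ∃ x ∈ VarPts ℂ y, val x G ≠ 0 ∧ ∃ v, Line (vanC y) x v := by
    intro G hG hGy
    by_contra hcon
    push Not at hcon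
    apply hC
    refine ⟨G * H, Pool.Agent.W602.GT.form_mul hG hH, by
      rw [Pool.Agent.W602.GT.val_mul]
      exact mul_ne_zero hGy hHy, fun f hf hfV hnc z => ?_⟩
    by_contra hne
    rw [map_mul] at hne
    have hE : Pool.Agent.H159R3.GGL.EntireCurve F f :=
      ⟨hf, fun z => ⟨(hfV z).1.1, fun e => (hfV z).1.2 (F e) (hF e).hom (hy.mem e)⟩, hnc⟩
    obtain ⟨u, hu⟩ := Pool.Agent.H159R3.War.other F hE z
    obtain ⟨v, -, -, hv, -⟩ := Pool.Agent.TH710.NW.log_line F hF
      (Empty.elim : Empty → MvPolynomial (Fin (n + 1)) ℂ) Empty.elim (fun j => j.elim) f hf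
      (fun z i => (hE.2.1 z).2 i) (fun z j => j.elim) z u hu
    exact hcon (f z) (hfV z).1 (left_ne_zero_of_mul hne) v
      (line_comp hcone (lineIn_iff.1 hv) (right_ne_zero_of_mul hne))
  -- all points
  have hall : ∀ x ∈ VarPts ℂ y, ∃ v, Line (vanC y) x v := by
    intro x hx
    by_contra hno
    push Not at hno
    obtain ⟨G, hG, hGx, hG0⟩ := Pool.Agent.W603.BPW.closed_pts (vanC y)
      (Empty.elim : Empty → MvPolynomial (Fin (n + 1)) ℂ) Empty.elim (fun e => e.2.1)
      (fun j => j.elim) (fun j => j.elim) x ⟨hx.1, fun e => hx.2 e.1 e.2.1 e.2.2, fun j => j.elim⟩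
      (fun q hq => hno q (lineIn_iff.1 hq.1))
    obtain ⟨x', hx', hGx', v, hv⟩ := hdense G hG fun h0 => hGx (hx.2 G hG h0)
    exact hGx' (hG0 x' ⟨v, 0, ∅, lineIn_iff.2 hv, fun j => j.elim⟩)
  obtain ⟨M', _, _, m, W, l, hm, hFam, r, hr⟩ := Pool.Agent.TH710.NW.exists_fam
    (F := vanC y) (Q := (Empty.elim : Empty → MvPolynomial (Fin (n + 1)) ℂ))
    (fun e => e.2.1) (fun j => j.elim) (K := M) (w := w) (y := y)
    ⟨hy.ne, fun e => e.2.2, fun j => j.elim, hy.gen, hy.dim⟩
    (fun G hG hG0 x hx => hx.2.1 ⟨G, hG, hG0⟩)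
    (fun x hx => by
      obtain ⟨v, hv⟩ := hall x ⟨hx.1, fun G hG hG0 => hx.2.1 ⟨G, hG, hG0⟩⟩
      obtain ⟨i, j, hij⟩ := Pool.Agent.N126.LN.minor_of_li hv.1
      refine ⟨v, fun j => j.elim, ⟨i, j, hij⟩, fun c e => ?_, fun c j => j.elim, fun j => j.elim⟩
      have h1 := hv.2 1 c e
      have h2 : (1 : ℂ) • x + c • v = fun t => x t + c * v t := by
        funext t
        simp
      rwa [h2] at h1)
  have hQ1 : (∏ j : Empty, (Empty.elim : Empty → MvPolynomial (Fin (n + 1)) ℂ) j) = 1 :=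
    Finset.prod_of_isEmpty _
  rw [hQ1] at hFam
  refine hr ((hFam.main hy.dim hm hy.ne hy.gen (isHomogeneous_one _ _)).2.2.1 ?_ r)
  exact Pool.Agent.R869.Wd.log_of_general hgt _

/-- components with a one-parameter group are not of general type -/
theorem not_gt_of_wc {F : ι → MvPolynomial (Fin (n + 1)) ℂ} {M : Type} [Field M] [Algebra ℂ M]
    {w : ℕ} {y : Fin (n + 1) → M} (hy : SubVar F M w y) (hcomp : IsComponent F y)
    {b : Fin (n + 1) → ℤ} {i i' : Fin (n + 1)} (hi : y i ≠ 0) (hi' : y i' ≠ 0) (hb : b i ≠ b i')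
    (hwc : ∀ e v, val y (wc b v (F e)) = 0) : ¬ GeneralType ℂ M w := by
  intro hgt
  have hyU : SubVarU ∅ F M w y :=
    ⟨hy.ne, fun j hj => absurd hj (Set.notMem_empty j), hy.mem, hy.gen, hy.dim⟩
  have hcompU : IsComponentU ∅ F y := by
    obtain ⟨H, hH, hHy, hcone⟩ := hcomp
    exact ⟨H, hH, hHy, fun x hx hxH => hcone x (Pool.Agent.W602.GT.mem_cone_empty hx) hxH⟩
  obtain ⟨δ, σ, -, -, hσ0, hσ, htop, -⟩ := Pool.Agent.W602.GT.exists_delta hy.gen b hi hi' hb
    (fun G hG h0 v => Pool.Agent.W602.GT.ideal_hom hyU hcompU hwc G hG h0 v)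
  refine Pool.Agent.W602.GT.not_psef_of hy.dim (Pool.Agent.W602.GT.consts δ) ?_ htop
    (Pool.Agent.W602.GT.psef_of_kodGe (Pool.Agent.W602.GT.kod_of_general hgt))
  intro halg
  have h1 : Algebra.IsAlgebraic (Pool.Agent.W602.GT.consts δ) M := by
    have h2 : Algebra.IsAlgebraic (Pool.Agent.W602.GT.consts δ) (IntermediateField.adjoin (Pool.Agent.W602.GT.consts δ) {σ}) :=
      IntermediateField.isAlgebraic_adjoin_simple halg.isIntegral
    constructor
    intro z
    have h3 := h2.isAlgebraic (⟨z, by rw [htop]; exact IntermediateField.mem_top⟩ :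
      (IntermediateField.adjoin (Pool.Agent.W602.GT.consts δ) {σ}))
    exact h3.algebraMap (A := M)
  have h2 : Algebra.IsAlgebraic (IntermediateField.adjoin ℂ (Pool.Agent.W602.GT.consts δ : Set M)) M := by
    rw [IntermediateField.adjoin_self]
    exact h1
  have h3 := Pool.Agent.W602.GT.der_eq_zero δ _ h2 (fun s hs => hs)
  rw [h3] at hσ
  exact hσ0 hσ.symm

/-- **Components covered by entire curves, sums of powers of monomials.** -/
theorem brody_mono [Finite ι] {F : ι → MvPolynomial (Fin (n + 1)) ℂ} (hF : ∀ e, IsForm (F e))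
    (hT : ∀ e, Pool.Agent.TH710.NW.TowerM (F e)) {M : Type} [Field M] [Algebra ℂ M] {w : ℕ}
    {y : Fin (n + 1) → M} (hy : SubVar F M w y)
    (hcomp : IsComponent F y) (hgt : GeneralType ℂ M w) : Pool.Agent.R869.Wd.BrodyV ∅ y := by
  classical
  by_contra hC
  have := Fintype.ofFinite ι
  let S : ι → Finset (Finset (Fin (n + 1) →₀ ℕ)) := fun i =>
    (F i).support.powerset.filter fun A => val y (Pool.Agent.H159R3.GGL.sub (F i) A) ≠ 0
  let E : MvPolynomial (Fin (n + 1)) ℂ := ∏ i, ∏ A ∈ S i, Pool.Agent.H159R3.GGL.sub (F i) A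
  have hE : IsForm E := by
    choose d hd using hF
    refine ⟨∑ i, ∑ A ∈ S i, d i, IsHomogeneous.prod _ _ _ fun i _ =>
      IsHomogeneous.prod _ _ _ fun A hA => ?_⟩
    exact Pool.Agent.TH710.NW.sub_hom (hd i)
      (Finset.mem_powerset.1 (Finset.mem_filter.1 hA).1)
  have hEy : val y E ≠ 0 := by
    unfold Pool.Agent.W602.GT.val
    rw [map_prod]
    refine Finset.prod_ne_zero_iff.2 fun i _ => ?_
    rw [map_prod]
    exact Finset.prod_ne_zero_iff.2 fun A hA => (Finset.mem_filter.1 hA).2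
  obtain ⟨f, hf, hfV, hnc, z, hz⟩ : ∃ f : ℂ → Fin (n + 1) → ℂ, Differentiable ℂ f ∧
      (∀ z, f z ∈ Pool.Agent.W602.GT.PtsU ∅ ℂ y) ∧ (∃ z w, ∀ c : ℂ, f z ≠ c • f w) ∧
      ∃ z, eval (f z) E ≠ 0 := by
    by_contra hcon
    push Not at hcon
    refine hC ⟨E, hE, hEy, fun f h1 h2 h3 z => ?_⟩
    exact hcon f h1 h2 h3 z
  have hEc : Pool.Agent.H159R3.GGL.EntireCurve F f :=
    ⟨hf, fun z => ⟨(hfV z).1.1, fun e => (hfV z).1.2 (F e) (hF e) (hy.mem e)⟩, hnc⟩
  obtain ⟨z0, b, j, k, hj, hk, hbjk, hG, hs⟩ := Pool.Agent.TH710.NW.curveM F hT f hEc E z hz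
  have hX : ∀ l, f z0 l ≠ 0 → y l ≠ 0 := by
    intro l hl h0
    apply hl
    have h1 := (hfV z0).1.2 (X l) ⟨1, isHomogeneous_X _ _⟩ (by
      unfold Pool.Agent.W602.GT.val
      rw [aeval_X]
      exact h0)
    unfold Pool.Agent.W602.GT.val at h1
    rwa [aeval_X] at h1
  refine not_gt_of_wc hy hcomp (hX j hj) (hX k hk) hbjk (fun e v => ?_) hgt
  by_contra hne
  have h1 : eval (f z0) (Pool.Agent.H159R3.GGL.sub (F e)
      ((F e).support.filter (fun α => ∑ j, (α j : ℤ) * b j = v))) = 0 := by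
    rw [Pool.Agent.H159R3.GGL.eval_sub']
    exact Pool.Agent.TH710.NW.graded_zero (F e) (f z0) b (hs e) v
  have h2 : (F e).support.filter (fun α => ∑ j, (α j : ℤ) * b j = v) ∈ S e :=
    Finset.mem_filter.2 ⟨Finset.mem_powerset.2 (Finset.filter_subset _ _), hne⟩
  apply hG
  rw [map_prod]
  refine Finset.prod_eq_zero (Finset.mem_univ e) ?_
  rw [map_prod]
  exact Finset.prod_eq_zero h2 h1

theorem brody_towers [Finite ι] {F : ι → MvPolynomial (Fin (n + 1)) ℂ} {s N h : ℕ}
    (hF : HighTowers s N h F) (hN : (n + 1) * ((h + 1) * (2 * s + 1) ^ 5) ≤ N)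
    {M : Type} [Field M] [Algebra ℂ M] {w : ℕ} {y : Fin (n + 1) → M} (hy : SubVar F M w y)
    (hcomp : IsComponent F y) (hgt : GeneralType ℂ M w) : Pool.Agent.R869.Wd.BrodyV ∅ y := by
  obtain ⟨-, hN2, hN1⟩ := bnd_le hN
  rcases hF with h | h
  · exact brody_lin (fun e => (tower_of hN2 hN1 (h e)).stab) hy hcomp hgt
  · exact brody_mono (fun e => (h e).1) (fun e => towerM_of hN2 hN1 (h e).2) hy hcomp hgt

/-- the images of the multiplicative group are dense in the union of the entire curves -/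
theorem gm_of_entire {F : ι → MvPolynomial (Fin (n + 1)) ℂ} {s N h : ℕ} (hF : HighTowers s N h F)
    (hN : (n + 1) * ((h + 1) * (2 * s + 1) ^ 5) ≤ N) {f : ℂ → Fin (n + 1) → ℂ}
    (hf : Pool.Agent.H159R3.GGL.EntireCurve F f) {G : MvPolynomial (Fin (n + 1)) ℂ} {z : ℂ}
    (hne : val (f z) G ≠ 0) :
    ∃ P, GmCurve F P ∧ ∃ t : ℂ, t ≠ 0 ∧ val (fun i => (P i).eval t) G ≠ 0 := by
  obtain ⟨-, hN2, hN1⟩ := bnd_le hN
  rcases hF with h | h
  · by_contra hcon
    push Not at hcon
    obtain ⟨u, hu⟩ := Pool.Agent.H159R3.War.other F hf z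
    obtain ⟨v, -, -, hv, -⟩ := Pool.Agent.TH710.NW.log_line F
      (fun i => (tower_of hN2 hN1 (h i)).stab) (Empty.elim : Empty → MvPolynomial (Fin (n + 1)) ℂ)
      Empty.elim (fun j => j.elim) f hf.1 (fun z i => (hf.2.1 z).2 i) (fun z j => j.elim) z u hu
    have h1 := Pool.Agent.W602.GT.line_key hcon
      (Pool.Agent.W602.GT.line_move (lineIn_iff.1 hv) 1 (-1) 0 1 (by norm_num))
    have e : (1 : ℂ) • f z + (-1 : ℂ) • v + ((0 : ℂ) • f z + (1 : ℂ) • v) = f z := by
      funext i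
      simp
    rw [e] at h1
    exact hne h1
  · obtain ⟨z0, b, j, l, hj, hl, hbjl, hG, hs⟩ := Pool.Agent.TH710.NW.curveM F
      (fun i => towerM_of hN2 hN1 (h i).2) f hf G z hne
    have hd : Pool.Agent.W602.GT.DiagCurve ∅ F (f z0) b := by
      refine ⟨fun t ht => ⟨?_, fun j hj => absurd hj (Set.notMem_empty j), fun e => ?_⟩,
        j, l, hj, hl, hbjl⟩
      · intro h0
        have h1 := congrFun h0 j
        exact mul_ne_zero (zpow_ne_zero _ ht) hj h1
      · have h1 := hs e t ht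
        have h2 : (fun j => f z0 j * t ^ b j) = fun j => t ^ b j * f z0 j := by
          funext j
          rw [mul_comm]
        rw [h2] at h1
        exact h1
    obtain ⟨P, hP, hP1⟩ := Pool.Agent.W602.GT.gm_of_diag (fun e => (h e).1) hd
    exact ⟨P, hP, 1, one_ne_zero, by rw [hP1]; exact hG⟩

/-- **Lang's equivalence for nested sums of high powers.** -/
theorem towers_lang [NumberField K] (σ : K →+* ℂ) {F : ι → MvPolynomial (Fin (n + 1)) K}
    {s N h : ℕ} (hF : HighTowers s N h F) (hN : (n + 1) * ((h + 1) * (2 * s + 1) ^ 5) ≤ N)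
    (I' : Ideal (MvPolynomial (Fin (n + 1)) K)) :
    [Hyperbolic σ (idl F) I', NoRat σ (idl F) I', LW.GeneralTypeOutside σ F I',
      HtBound (idl F) I', FinBound (idl F) I'].TFAE ∧
    (Finiteness (idl F) I' → Hyperbolic σ (idl F) I') := by
  have hFσ := towers_map σ hF
  have hFf : ∀ e, ∃ d, (F e).IsHomogeneous d := fun e => hF.form e
  obtain ⟨hNb, -, -⟩ := bnd_le hN
  obtain ⟨hm, h1, h2⟩ := main σ (idl F) I'
  have h0 : [Hyperbolic σ (idl F) I', NoRat σ (idl F) I', LW.GeneralTypeOutside σ F I',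
      HtBound (idl F) I', FinBound (idl F) I'].TFAE := by
    tfae_have 1 → 4 := h1
    tfae_have 2 ↔ 4 := hm.out 0 3
    tfae_have 2 ↔ 5 := hm.out 0 4
    tfae_have 2 → 1 := by
      intro hr f hf hf0 hfI hnc z G hG hGf
      by_contra hne
      obtain ⟨d, hd⟩ := hGf
      have hE : Pool.Agent.H159R3.GGL.EntireCurve (fun e => map σ (F e)) f :=
        ⟨hf, fun z => ⟨hf0 z, fun e => by
          rw [eval_map]
          exact (onI_idl σ hFf _).1 (hfI z) e⟩, hnc⟩
      obtain ⟨P, hP, t, -, ht⟩ := gm_of_entire hFσ hN hE (G := map σ G) (z := z)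
        (by rwa [LW.val_map])
      exact hr P (rcur_of_gm σ hFf hP hG ⟨d, hd⟩ ht)
    tfae_have 2 → 3 := by
      intro hr M _ _ w y hw hy hgt G hG hGf
      by_contra hne
      obtain ⟨d, hd⟩ := hGf
      obtain ⟨P, hP, t, -, ht⟩ := gm_through hFσ hNb hy hgt ⟨d, hd.map σ⟩ hne
      exact hr P (rcur_of_gm σ hFf hP hG ⟨d, hd⟩ ht)
    tfae_have 3 → 2 := by
      intro hg p hp
      obtain ⟨P, hP, G, hG, ⟨d, hd⟩, t, ht, hne⟩ := gm_of_rcur σ hFf hp
      apply hne
      have hsp : (fun i => (P i).eval t) ∈ SpGm (fun e => map σ (F e)) :=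
        ⟨⟨hP.ne t ht, fun e => hP.mem t ht e⟩, fun G' _ h => h P hP t ht⟩
      exact (Pool.Agent.W602.GT.gm_sub_alg (fun e => hFσ.form e) hsp).2 (map σ G) ⟨d, hd.map σ⟩
        fun M _ _ w y hw hy hgt => hg M w y hw hy hgt G hG ⟨d, hd⟩
    tfae_finish
  exact ⟨h0, fun h' => (h0.out 0 3).2 (h2 h')⟩

/-- **Components of the varieties given by nested sums of high powers.** -/
theorem towers_comp [Finite ι] [NumberField K] (σ : K →+* ℂ)
    {F : ι → MvPolynomial (Fin (n + 1)) K} {s N h : ℕ} (hF : HighTowers s N h F)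
    (hN : (n + 1) * ((h + 1) * (2 * s + 1) ^ 5) ≤ N) {M : Type} [Field M] [Algebra ℂ M] {w : ℕ}
    {y : Fin (n + 1) → M} (hy : SubVar (fun e => map σ (F e)) M w y)
    (hcomp : IsComponent (fun e => map σ (F e)) y) :
    [GeneralType ℂ M w, ∃ G ∈ exc (idl F), IsForm G ∧ val y (map σ G) ≠ 0,
      ¬ Ruled ℂ M, Psef ℂ M w (fun _ => False), KodGe ℂ M w (fun _ => False) 0,
      Pool.Agent.R869.Wd.BrodyV ∅ y].TFAE := by
  have hFσ := towers_map σ hF
  have hFf : ∀ e, ∃ d, (F e).IsHomogeneous d := fun e => hF.form e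
  obtain ⟨hNb, -, -⟩ := bnd_le hN
  have hneg := neg_tfae hFσ hNb hy hcomp
  tfae_have 3 ↔ 1 := by
    have h := hneg.out 2 3
    exact (not_congr h).trans not_not
  tfae_have 4 ↔ 1 := by
    have h := hneg.out 1 3
    exact not_iff_not.1 h
  tfae_have 5 ↔ 1 := by
    have h := hneg.out 0 3
    exact not_iff_not.1 h
  tfae_have 1 → 6 := brody_towers hFσ hN hy hcomp
  tfae_have 6 → 2 := fun h => not_contained hFf hcomp (curvesIn_of_brodyV h)
  tfae_have 2 → 1 := by
    rintro ⟨G, hG, ⟨d, hd⟩, hne⟩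
    by_contra hgt
    obtain ⟨P, hP, t, -, ht⟩ := gm_through hFσ hNb hy hgt ⟨d, hd.map σ⟩ hne
    exact noRat_of_NF σ (noRatNF_exc _) P (rcur_of_gm σ hFf hP hG ⟨d, hd⟩ ht)
  tfae_finish

/-- **The strong conjecture for nested sums of high powers.** -/
theorem towers_strong [Finite ι] [NumberField K] {F : ι → MvPolynomial (Fin (n + 1)) K}
    {s N h : ℕ} (hF : HighTowers s N h F) (hN : (n + 1) * ((h + 1) * (2 * s + 1) ^ 5) ≤ N) :
    ∃ I₀ : Ideal (MvPolynomial (Fin (n + 1)) K), idl F ≤ I₀ ∧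
      (∀ (σ : K →+* ℂ) (M : Type) [Field M] [Algebra ℂ M] (w : ℕ) (y : Fin (n + 1) → M),
        SubVar (fun e => map σ (F e)) M w y → IsComponent (fun e => map σ (F e)) y →
          [GeneralType ℂ M w, ∃ G ∈ I₀, IsForm G ∧ val y (map σ G) ≠ 0, ¬ Ruled ℂ M,
            Psef ℂ M w (fun _ => False), KodGe ℂ M w (fun _ => False) 0,
            Pool.Agent.R869.Wd.BrodyV ∅ y].TFAE) ∧
      (∀ (σ : K →+* ℂ) (I' : Ideal (MvPolynomial (Fin (n + 1)) K)), [Contained σ I₀ I',
        HtBound (idl F) I', FinBound (idl F) I', Hyperbolic σ (idl F) I', NoRat σ (idl F) I',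
        LW.GeneralTypeOutside σ F I'].TFAE) ∧
      ∀ (σ : K →+* ℂ) (I' : Ideal (MvPolynomial (Fin (n + 1)) K)),
        Finiteness (idl F) I' → Contained σ I₀ I' := by
  have hFf : ∀ e, ∃ d, (F e).IsHomogeneous d := fun e => hF.form e
  have h0 : ∀ (σ : K →+* ℂ) (I' : Ideal (MvPolynomial (Fin (n + 1)) K)),
      [Contained σ (exc (idl F)) I',
        HtBound (idl F) I', FinBound (idl F) I', Hyperbolic σ (idl F) I', NoRat σ (idl F) I',
        LW.GeneralTypeOutside σ F I'].TFAE := by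
    intro σ I'
    have h1 := (towers_lang σ hF hN I').1
    tfae_have 4 ↔ 5 := h1.out 0 1
    tfae_have 4 ↔ 6 := h1.out 0 2
    tfae_have 4 ↔ 2 := h1.out 0 3
    tfae_have 4 ↔ 3 := h1.out 0 4
    tfae_have 5 ↔ 1 := noRat_iff_contained σ _ I'
    tfae_finish
  refine ⟨exc (idl F), ?_, fun σ M _ _ w y hy hcomp => towers_comp σ hF hN hy hcomp,
    h0, fun σ I' h => ?_⟩
  · unfold idl
    rw [Ideal.span_le]
    rintro _ ⟨e, rfl⟩
    refine Ideal.subset_span ⟨hFf e, fun L _ _ _ p hp => ?_⟩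
    exact noRat_single hp (hp.zero (F e) (Ideal.subset_span ⟨e, rfl⟩) (hFf e))
  · have h1 := (towers_lang σ hF hN I').2 h
    exact ((h0 σ I').out 3 0).1 h1

end Pool.Agent.N126.ND
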